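import Pool.Agent.H5.DG.CoverDefs

/-!
# Project DG2, module BaseY: the forms `B a` have no common zero on the variety

If `y ≠ 0` is a zero of `P` and of all `B a`, then `eval y (G (ι j)) = 0` for all `j` (`c j ≠ 0`), so at least `m' > k` of the `G i` vanish at `y`.
So the common zeros of `span (range B) ⊔ P` are contained in `{0}` and `X i` lies in its radical
(`MvPolynomial.vanishingIdeal_zeroLocus_eq_radical`; see `mem_of_forall` in FinalDefs and module NullId).
-/

open MvPolynomial

noncomputable section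

namespace Pool.Agent.H5.DG

theorem baseFree_of_few {M m m' n e k : ℕ} {P : Ideal (MvPolynomial (Fin (M + 1)) ℂ)} (he : 1 ≤ e)
    {G : Fin m → MvPolynomial (Fin (M + 1)) ℂ} {B : Fin n → MvPolynomial (Fin (M + 1)) ℂ}
    (hB : ∀ a, (B a).IsHomogeneous e)
    (hk : ∀ y : Fin (M + 1) → ℂ, y ≠ 0 → (∀ g ∈ P, eval y g = 0) →
      {j | eval y (G j) = 0}.ncard ≤ k) {ι : Fin m' → Fin m} (hι : Function.Injective ι)
    (hm : k < m') {p : Fin m' → Fin n → ℂ} {c : Fin m' → ℂ}
    (h : ∀ j, c j ≠ 0 ∧ C (c j) * G (ι j) - comb (p j) B ∈ P) : BaseFree P e B := by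
  refine ⟨he, hB, fun i => ?_⟩
  have h1 : (X i : MvPolynomial (Fin (M + 1)) ℂ) ∈ (Ideal.span (Set.range B) ⊔ P).radical := by
    rw [← MvPolynomial.vanishingIdeal_zeroLocus_eq_radical (K := ℂ),
      MvPolynomial.mem_vanishingIdeal_iff]
    intro y hy
    rw [MvPolynomial.aeval_eq_eval]
    have hy' : ∀ g ∈ Ideal.span (Set.range B) ⊔ P, eval y g = 0 := by
      intro g hg
      have h2 := hy g hg
      rwa [MvPolynomial.aeval_eq_eval] at h2
    have hP : ∀ g ∈ P, eval y g = 0 := fun g hg => hy' g (Ideal.mem_sup_right hg)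
    have hBz : ∀ a, eval y (B a) = 0 := fun a =>
      hy' _ (Ideal.mem_sup_left (Ideal.subset_span ⟨a, rfl⟩))
    by_cases h0 : y = 0
    · rw [h0]
      simp
    · exfalso
      have h2 := hk y h0 hP
      have h3 : Set.range ι ⊆ {j | eval y (G j) = 0} := by
        rintro _ ⟨j, rfl⟩
        obtain ⟨h4, h5⟩ := h j
        have h6 := hP _ h5
        rw [map_sub, map_mul, eval_C, comb, map_sum] at h6
        have h7 : ∑ a, eval y (C (p j a) * B a) = 0 :=
          Finset.sum_eq_zero fun a _ => by rw [map_mul, hBz a, mul_zero]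
        rw [h7, sub_zero] at h6
        exact (mul_eq_zero.1 h6).resolve_left h4
      have h4 := Set.ncard_le_ncard h3 (Set.toFinite _)
      rw [← Set.image_univ, Set.ncard_image_of_injective _ hι, Set.ncard_univ, Nat.card_eq_fintype_card,
        Fintype.card_fin] at h4
      omega
  obtain ⟨k', hk'⟩ := h1
  exact ⟨k', hk'⟩

end Pool.Agent.H5.DG
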