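import Pool.Agent.H5.DG.CoverDefs

/-!
# Project DG2, module EigenC: regular functions on a projective variety are constant

Let `μ G' ∈ P + (G)` for all monomials `μ` of degree `K` (`K` large, from `h`, by the pigeonhole principle on the exponents).  Taking
homogeneous components (`P` homogeneous): `μ G' ≡ a_μ G` modulo `P` with `a_μ` of degree `K`.  So multiplication by `g = G' / G` in the
fraction field of `R / P` (`G ∉ P`) maps the finite-dimensional `ℂ`-space `V` = image of the forms of degree `K` in `R / P` into itself; `V ≠ 0` since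
some `X i ∉ P` (`X i ^ K`; if all `X i ∈ P` then `G ∈ P` since `1 ≤ e`).  An eigenvalue `c` (`Module.End.exists_eigenvalue`): `(g - c) x = 0`,
`x ≠ 0`, so `g = c`, i.e. `G' - C c * G ∈ P`.
-/

open MvPolynomial

noncomputable section

namespace Pool.Agent.H5.DG

private theorem EigenC_homComp {σ : Type} {F : MvPolynomial σ ℂ} {e : ℕ} (hF : F.IsHomogeneous e)
    (G : MvPolynomial σ ℂ) (j : ℕ) :
    homogeneousComponent (j + e) (G * F) = homogeneousComponent j G * F := by
  have h1 : homogeneousComponent (j + e) (G * F) =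
      ∑ i ∈ Finset.range (G.totalDegree + 1),
        homogeneousComponent (j + e) (homogeneousComponent i G * F) := by
    rw [← map_sum, ← Finset.sum_mul, sum_homogeneousComponent]
  have h2 : ∀ i ∈ Finset.range (G.totalDegree + 1),
      homogeneousComponent (j + e) (homogeneousComponent i G * F) =
        if i = j then homogeneousComponent j G * F else 0 := by
    intro i _
    have h3 : (homogeneousComponent i G * F) ∈ homogeneousSubmodule σ ℂ (i + e) :=
      (homogeneousComponent_isHomogeneous i G).mul hF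
    rw [homogeneousComponent_of_mem h3]
    by_cases h : i = j
    · rw [if_pos (by omega), if_pos h, h]
    · rw [if_neg (by omega), if_neg h]
  rw [h1, Finset.sum_congr rfl h2, Finset.sum_ite_eq']
  split_ifs with h
  · rfl
  · rw [homogeneousComponent_eq_zero _ _ (by
      rw [Finset.mem_range] at h
      omega), zero_mul]

private theorem EigenC_deg {M K : ℕ} {a : MvPolynomial (Fin (M + 1)) ℂ} (ha : a.IsHomogeneous K)
    {d : Fin (M + 1) →₀ ℕ} (hd : d ∈ a.support) : d.degree = K := by
  have h1 := ha (mem_support_iff.mp hd)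
  rw [Finsupp.degree_eq_weight_one]
  exact h1

private theorem EigenC_fin (M K : ℕ) :
    ∃ S : Set (MvPolynomial (Fin (M + 1)) ℂ), S.Finite ∧
      homogeneousSubmodule (Fin (M + 1)) ℂ K ≤ Submodule.span ℂ S := by
  refine ⟨(fun d => monomial d (1 : ℂ)) '' {d : Fin (M + 1) →₀ ℕ | d.degree ≤ K},
    (Finsupp.finite_of_degree_le K).image _, ?_⟩
  intro a ha
  have ha' : a.IsHomogeneous K := ha
  rw [a.as_sum]
  refine Submodule.sum_mem _ fun d hd => ?_
  have h1 : monomial d (coeff d a) = coeff d a • monomial d (1 : ℂ) := by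
    rw [smul_monomial, smul_eq_mul, mul_one]
  rw [h1]
  exact Submodule.smul_mem _ _ (Submodule.subset_span ⟨d, (EigenC_deg ha' hd).le, rfl⟩)

theorem const_of_sat {M e : ℕ} (P : Ideal (MvPolynomial (Fin (M + 1)) ℂ)) [P.IsPrime]
    (hP : Homog P) (he : 1 ≤ e) {G G' : MvPolynomial (Fin (M + 1)) ℂ} (hG : G.IsHomogeneous e)
    (hG' : G'.IsHomogeneous e) (hGP : G ∉ P)
    (h : ∀ i, ∃ k : ℕ, X i ^ k * G' ∈ P ⊔ Ideal.span {G}) : ∃ c : ℂ, G' - C c * G ∈ P := by
  classical
  choose k hk using h
  set K := ∑ i, k i with hK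
  have hmon : ∀ (d : Fin (M + 1) →₀ ℕ), d.degree = K → ∀ a : ℂ,
      monomial d a * G' ∈ P ⊔ Ideal.span {G} := by
    intro d hd a
    obtain ⟨i, hi⟩ : ∃ i, k i ≤ d i := by
      by_contra hcon
      push Not at hcon
      have h1 : ∑ i, d i < ∑ i, k i :=
        Finset.sum_lt_sum_of_nonempty Finset.univ_nonempty (fun i _ => hcon i)
      rw [Finsupp.degree_eq_sum] at hd
      omega
    have h2 : monomial d a = monomial (d - Finsupp.single i (k i)) a * X i ^ k i := by
      rw [X_pow_eq_monomial, monomial_mul, mul_one, tsub_add_cancel_of_le]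
      rw [Finsupp.single_le_iff]
      exact hi
    rw [h2, mul_assoc]
    exact Ideal.mul_mem_left _ _ (hk i)
  have hhom : ∀ a : MvPolynomial (Fin (M + 1)) ℂ, a.IsHomogeneous K →
      ∃ b : MvPolynomial (Fin (M + 1)) ℂ, b.IsHomogeneous K ∧ a * G' - b * G ∈ P := by
    intro a ha
    have h0 : a * G' = ∑ d ∈ a.support, monomial d (coeff d a) * G' := by
      rw [← Finset.sum_mul, ← a.as_sum]
    have h1 : a * G' ∈ P ⊔ Ideal.span {G} := by
      rw [h0]
      exact Ideal.sum_mem _ fun d hd => hmon d (EigenC_deg ha hd) _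
    obtain ⟨p, hp, q, hq, hpq⟩ := Submodule.mem_sup.mp h1
    obtain ⟨b, hb⟩ := Ideal.mem_span_singleton'.mp hq
    refine ⟨homogeneousComponent K b, homogeneousComponent_isHomogeneous K b, ?_⟩
    have h2 : homogeneousComponent (K + e) (a * G') = a * G' := by
      have h3 : a * G' ∈ homogeneousSubmodule (Fin (M + 1)) ℂ (K + e) := ha.mul hG'
      rw [homogeneousComponent_of_mem h3, if_pos rfl]
    rw [← hpq, ← hb, map_add, EigenC_homComp hG] at h2
    rw [← hpq, ← hb, ← h2, add_sub_cancel_right]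
    exact hP p hp _
  -- some coordinate is not in the ideal
  obtain ⟨i₀, hi₀⟩ : ∃ i, (X i : MvPolynomial (Fin (M + 1)) ℂ) ∉ P := by
    by_contra hcon
    push Not at hcon
    apply hGP
    rw [G.as_sum]
    refine Ideal.sum_mem _ fun d hd => ?_
    have h1 : d.degree = e := EigenC_deg hG hd
    obtain ⟨i, hi⟩ : ∃ i, 1 ≤ d i := by
      by_contra hc2
      push Not at hc2
      have h2 : ∑ i, d i = 0 := Finset.sum_eq_zero fun i _ => by
        have := hc2 i
        omega
      rw [Finsupp.degree_eq_sum] at h1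
      omega
    have h2 : monomial d (coeff d G) =
        monomial (d - Finsupp.single i 1) (coeff d G) * X i := by
      rw [show (X i : MvPolynomial (Fin (M + 1)) ℂ) = X i ^ 1 by rw [pow_one],
        X_pow_eq_monomial, monomial_mul, mul_one, tsub_add_cancel_of_le]
      rw [Finsupp.single_le_iff]
      exact hi
    rw [h2]
    exact Ideal.mul_mem_left _ _ (hcon i)
  -- the fraction field
  let A := MvPolynomial (Fin (M + 1)) ℂ ⧸ P
  let F := FractionRing A
  let φ : MvPolynomial (Fin (M + 1)) ℂ →ₐ[ℂ] F :=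
    (IsScalarTower.toAlgHom ℂ A F).comp (Ideal.Quotient.mkₐ ℂ P)
  have hker : ∀ x, φ x = 0 ↔ x ∈ P := by
    intro x
    have h1 : φ x = algebraMap A F (Ideal.Quotient.mk P x) := rfl
    rw [h1, map_eq_zero_iff _ (IsFractionRing.injective A F), Ideal.Quotient.eq_zero_iff_mem]
  have hGne : φ G ≠ 0 := fun h0 => hGP ((hker G).mp h0)
  set g : F := φ G' / φ G with hg
  let V : Submodule ℂ F := Submodule.map φ.toLinearMap (homogeneousSubmodule (Fin (M + 1)) ℂ K)
  have hVfin : Module.Finite ℂ V := by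
    obtain ⟨S, hS, hle⟩ := EigenC_fin M K
    have h1 : V ≤ Submodule.span ℂ (φ.toLinearMap '' S) := by
      rw [Submodule.span_image]
      exact Submodule.map_mono hle
    have h2 : Module.Finite ℂ (Submodule.span ℂ (φ.toLinearMap '' S)) :=
      Module.Finite.span_of_finite ℂ (hS.image _)
    exact Submodule.finiteDimensional_of_le h1
  have hmap : ∀ v ∈ V, LinearMap.mulLeft ℂ g v ∈ V := by
    intro v hv
    obtain ⟨a, ha, rfl⟩ := hv
    obtain ⟨b, hb, hab⟩ := hhom a ha
    refine ⟨b, hb, ?_⟩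
    have h1 : φ (a * G' - b * G) = 0 := (hker _).mpr hab
    rw [map_sub, map_mul, map_mul, sub_eq_zero] at h1
    show φ b = g * φ a
    rw [hg, div_mul_eq_mul_div, eq_div_iff hGne, ← h1, mul_comm]
  let T : Module.End ℂ V := (LinearMap.mulLeft ℂ g).restrict hmap
  have hnt : Nontrivial V := by
    have hx : φ (X i₀ ^ K) ∈ V := ⟨X i₀ ^ K, isHomogeneous_X_pow i₀ K, rfl⟩
    refine ⟨⟨⟨φ (X i₀ ^ K), hx⟩, 0, ?_⟩⟩
    intro h0
    have h1 : φ (X i₀ ^ K) = 0 := congrArg Subtype.val h0
    exact hi₀ (Ideal.IsPrime.mem_of_pow_mem inferInstance K ((hker _).mp h1))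
  obtain ⟨c, hc⟩ := Module.End.exists_eigenvalue T
  obtain ⟨v, hv⟩ := hc.exists_hasEigenvector
  refine ⟨c, ?_⟩
  have h1 : g * (v : F) = c • (v : F) := by
    have := hv.apply_eq_smul
    exact congrArg Subtype.val this
  have hv0 : (v : F) ≠ 0 := by
    intro h0
    exact hv.2 (Subtype.ext h0)
  have h2 : g = algebraMap ℂ F c := by
    rw [Algebra.smul_def] at h1
    exact mul_right_cancel₀ hv0 h1
  rw [← hker, map_sub, map_mul]
  have h3 : φ (C c) = algebraMap ℂ F c := φ.commutes c
  rw [h3, ← h2, hg, div_mul_cancel₀ _ hGne, sub_self]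

end Pool.Agent.H5.DG
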