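import Pool.Agent.H5.DG.CoverDefs

/-!
# Project DG2, module IntSec: integral hypersurface sections
-/

open MvPolynomial

noncomputable section

namespace Pool.Agent.H5.DG

/-- The scheme given by `G = 0` on the projective variety given by `P` is integral: there is a
homogeneous prime ideal `Q`, not containing all variables, which contains `P` and `G` and is
contained in the saturation of `P + (G)`. -/
def IntegralSection {M : ℕ} (P : Ideal (MvPolynomial (Fin (M + 1)) ℂ))
    (G : MvPolynomial (Fin (M + 1)) ℂ) : Prop :=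
  ∃ Q : Ideal (MvPolynomial (Fin (M + 1)) ℂ), Q.IsPrime ∧ Homog Q ∧ P ≤ Q ∧ G ∈ Q ∧
    (∃ i, X i ∉ Q) ∧ ∀ q ∈ Q, ∀ i, ∃ k : ℕ, X i ^ k * q ∈ P ⊔ Ideal.span {G}

theorem IntegralSection.congr {M : ℕ} {P : Ideal (MvPolynomial (Fin (M + 1)) ℂ)}
    {G G' : MvPolynomial (Fin (M + 1)) ℂ} {c : ℂ} (hc : c ≠ 0) (h : C c * G - G' ∈ P)
    (hG : IntegralSection P G) : IntegralSection P G' := by
  have h1 : P ⊔ Ideal.span {G} = P ⊔ Ideal.span {G'} := by
    refine le_antisymm ?_ ?_
    · refine sup_le le_sup_left ?_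
      rw [Ideal.span_singleton_le_iff_mem]
      have h2 : G = C c⁻¹ * (C c * G - G') + C c⁻¹ * G' := by
        rw [← mul_add, sub_add_cancel, ← mul_assoc, ← C_mul, inv_mul_cancel₀ hc, C_1, one_mul]
      rw [h2]
      exact Submodule.add_mem_sup (Ideal.mul_mem_left _ _ h)
        (Ideal.mul_mem_left _ _ (Ideal.subset_span rfl))
    · refine sup_le le_sup_left ?_
      rw [Ideal.span_singleton_le_iff_mem]
      have h2 : G' = -(C c * G - G') + C c * G := by ring
      rw [h2]
      exact Submodule.add_mem_sup (P.neg_mem h)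
        (Ideal.mul_mem_left _ _ (Ideal.subset_span rfl))
  obtain ⟨Q, hQ, hQh, hPQ, hGQ, hX, hsat⟩ := hG
  refine ⟨Q, hQ, hQh, hPQ, ?_, hX, ?_⟩
  · have h2 : G' = -(C c * G - G') + C c * G := by ring
    rw [h2]
    exact Q.add_mem (hPQ (P.neg_mem h)) (Ideal.mul_mem_left _ _ hGQ)
  · rw [← h1]
    exact hsat

end Pool.Agent.H5.DG
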