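import Pool.Agent.H5.DG2.TrLt

/-!
# Project DG2, module LinForms: linear forms without common zero

Induction on `s`.  A homogeneous ideal `I` has finitely many minimal primes (`Ideal.finite_minimalPrimes_of_isNoetherianRing` for the
quotient, or `Ideal.minimalPrimes` with the Noetherian instance), and they are homogeneous (`Ideal.IsPrime.homogeneousCore`: the
homogeneous core of a minimal prime `Q` of `I` is a prime ideal between `I` and `Q`; see `Homog` as `Ideal.IsHomogeneous` for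
`MvPolynomial.homogeneousSubmodule`).
`s = 0`: for a homogeneous prime `Q ≥ I` the element `X i` is algebraic over `ℂ` modulo `Q`: a monic relation, homogeneous components:
`X i ^ k ∈ Q`, so `X i ∈ Q`.  So `X i` lies in all minimal primes of `I`, in the radical of `I`.
`s + 1`: choose a linear form `ℓ = ∑ c_i X_i` which lies in no minimal prime `Q` of `I` with `∃ i, X i ∉ Q` (a `ℂ`-vector space is not a
finite union of proper subspaces: `Subspace.exists_eq_top_of_iUnion_eq_univ`; or choose `c` with finitely many non-zero linear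
conditions).  `I ⊔ span {ℓ}` is homogeneous; a homogeneous prime `Q' ≥ I ⊔ span {ℓ}` contains a minimal prime `Q` of `I`; if all `X i ∈ Q`:
`TD_of_X_mem`; otherwise `Q < Q'` and `TD.lt`.  Induction hypothesis for `I ⊔ span {ℓ}`; `Fin.cons ℓ ..`.
-/

open MvPolynomial

noncomputable section

namespace Pool.Agent.H5.DG

attribute [local instance] MvPolynomial.gradedAlgebra

private theorem lf_homog_iff {M : ℕ} (I : Ideal (MvPolynomial (Fin (M + 1)) ℂ)) :
    Homog I ↔ I.IsHomogeneous (homogeneousSubmodule (Fin (M + 1)) ℂ) := by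
  constructor
  · intro h i r hr
    have := h r hr i
    rw [← MvPolynomial.decomposition.decompose'_apply] at this
    exact this
  · intro h p hp k
    exact mem_iff_homogeneousComponent_mem h p |>.1 hp k

private theorem lf_core {M : ℕ} {I Q : Ideal (MvPolynomial (Fin (M + 1)) ℂ)} (hI : Homog I)
    (hQ : Q.IsPrime) (hIQ : I ≤ Q) :
    ∃ Q' : Ideal (MvPolynomial (Fin (M + 1)) ℂ), Q'.IsPrime ∧ Homog Q' ∧ I ≤ Q' ∧ Q' ≤ Q := by
  refine ⟨(Q.homogeneousCore (homogeneousSubmodule (Fin (M + 1)) ℂ)).toIdeal,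
    hQ.homogeneousCore, (lf_homog_iff _).2 (HomogeneousIdeal.isHomogeneous _), ?_,
    Ideal.toIdeal_homogeneousCore_le _ _⟩
  have h1 := (lf_homog_iff _).1 hI
  have h2 : I = (I.homogeneousCore (homogeneousSubmodule (Fin (M + 1)) ℂ)).toIdeal :=
    h1.toIdeal_homogeneousCore_eq_self.symm
  rw [h2]
  exact Ideal.homogeneousCore_mono _ hIQ

private theorem lf_X_mem {M : ℕ} {Q : Ideal (MvPolynomial (Fin (M + 1)) ℂ)} (hQ : Q.IsPrime)
    (hh : Homog Q) (h : TD Q 0) (i : Fin (M + 1)) : X i ∈ Q := by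
  have h1 := h (fun _ => X i)
  have h2 : ¬ Transcendental ℂ (Ideal.Quotient.mkₐ ℂ Q (X i)) := by
    intro h3
    apply h1
    have : Unique (Fin (0 + 1)) := inferInstanceAs (Unique (Fin 1))
    exact algebraicIndependent_unique_type_iff.2 h3
  rw [Transcendental, not_not] at h2
  obtain ⟨p, hp0, hp⟩ := h2
  rw [Polynomial.aeval_algHom_apply] at hp
  have hp' : Polynomial.aeval (X i : MvPolynomial (Fin (M + 1)) ℂ) p ∈ Q :=
    Ideal.Quotient.eq_zero_iff_mem.1 hp
  have h3 := hh _ hp' p.natDegree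
  have h4 : homogeneousComponent p.natDegree
      (Polynomial.aeval (X i : MvPolynomial (Fin (M + 1)) ℂ) p)
      = p.leadingCoeff • (X i : MvPolynomial (Fin (M + 1)) ℂ) ^ p.natDegree := by
    rw [Polynomial.aeval_eq_sum_range, map_sum, Finset.sum_range_succ,
      Finset.sum_eq_zero, zero_add]
    · rw [map_smul, homogeneousComponent_of_mem (n := p.natDegree) (m := p.natDegree)
        ((mem_homogeneousSubmodule _ _).2 (isHomogeneous_X_pow _ _)), if_pos rfl]
      rfl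
    · intro j hj
      rw [map_smul, homogeneousComponent_of_mem (m := p.natDegree) (n := j)
        ((mem_homogeneousSubmodule _ _).2 (isHomogeneous_X_pow _ _)), if_neg, smul_zero]
      have := Finset.mem_range.1 hj
      omega
  rw [h4] at h3
  have h5 : (X i : MvPolynomial (Fin (M + 1)) ℂ) ^ p.natDegree ∈ Q := by
    have h6 := Q.mul_mem_left (C (p.leadingCoeff)⁻¹) h3
    rwa [smul_eq_C_mul, ← mul_assoc, ← C_mul, inv_mul_cancel₀, C_1, one_mul] at h6
    exact Polynomial.leadingCoeff_ne_zero.2 hp0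
  exact hQ.mem_of_pow_mem _ h5

private theorem lf_exists_form {M : ℕ} (S : Set (Ideal (MvPolynomial (Fin (M + 1)) ℂ)))
    (hS : S.Finite) (hX : ∀ Q ∈ S, ∃ i, X i ∉ Q) :
    ∃ ℓ : MvPolynomial (Fin (M + 1)) ℂ, ℓ.IsHomogeneous 1 ∧ ∀ Q ∈ S, ℓ ∉ Q := by
  classical
  let φ : (Fin (M + 1) → ℂ) →ₗ[ℂ] MvPolynomial (Fin (M + 1)) ℂ :=
    ∑ i, (LinearMap.proj i : (Fin (M + 1) → ℂ) →ₗ[ℂ] ℂ).smulRight (X i)
  have hφ : ∀ c, φ c = ∑ i, c i • X i := by
    intro c
    simp [φ]
  have := hS.to_subtype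
  by_contra hcon
  push Not at hcon
  have h1 : ⋃ Q : S, (((Q.1.restrictScalars ℂ).comap φ : Submodule ℂ (Fin (M + 1) → ℂ)) :
      Set (Fin (M + 1) → ℂ)) = Set.univ := by
    rw [Set.eq_univ_iff_forall]
    intro c
    obtain ⟨Q, hQ, hc⟩ := hcon (φ c) (by
      rw [hφ]
      refine IsHomogeneous.sum _ _ _ fun i _ => ?_
      rw [smul_eq_C_mul]
      simpa using (isHomogeneous_C (Fin (M + 1)) (c i)).mul (isHomogeneous_X ℂ i))
    exact Set.mem_iUnion.2 ⟨⟨Q, hQ⟩, hc⟩
  obtain ⟨Q, hQ⟩ := Subspace.exists_eq_top_of_iUnion_eq_univ h1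
  obtain ⟨i, hi⟩ := hX Q.1 Q.2
  apply hi
  have h2 : (Pi.single i 1 : Fin (M + 1) → ℂ) ∈ (Q.1.restrictScalars ℂ).comap φ := by
    rw [hQ]; trivial
  have h3 : φ (Pi.single i 1) ∈ Q.1 := h2
  rw [hφ] at h3
  have h4 : ∑ j, (Pi.single i 1 : Fin (M + 1) → ℂ) j • (X j : MvPolynomial (Fin (M + 1)) ℂ)
      = X i := by
    rw [Finset.sum_eq_single i]
    · simp
    · intro j _ hj
      simp [Pi.single_eq_of_ne hj]
    · simp
  rwa [h4] at h3

theorem exists_linear {M : ℕ} (s : ℕ) (I : Ideal (MvPolynomial (Fin (M + 1)) ℂ)) (hI : Homog I)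
    (h : ∀ Q : Ideal (MvPolynomial (Fin (M + 1)) ℂ), Q.IsPrime → Homog Q → I ≤ Q → TD Q s) :
    ∃ ℓ : Fin s → MvPolynomial (Fin (M + 1)) ℂ, (∀ i, (ℓ i).IsHomogeneous 1) ∧
      ∀ i, ∃ k : ℕ, X i ^ k ∈ I ⊔ Ideal.span (Set.range ℓ) := by
  induction s generalizing I with
  | zero =>
    refine ⟨Fin.elim0, fun i => i.elim0, fun i => ?_⟩
    have h1 : X i ∈ I.radical := by
      rw [Ideal.radical_eq_sInf, Submodule.mem_sInf]
      rintro J ⟨hIJ, hJ⟩
      obtain ⟨Q, hQ1, hQ2, hQ3, hQ4⟩ := lf_core hI hJ hIJ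
      exact hQ4 (lf_X_mem hQ1 hQ2 (h Q hQ1 hQ2 hQ3) i)
    obtain ⟨k, hk⟩ := h1
    exact ⟨k, Ideal.mem_sup_left hk⟩
  | succ s ih =>
    have hfin : I.minimalPrimes.Finite := Ideal.finite_minimalPrimes_of_isNoetherianRing _ I
    obtain ⟨l, hl1, hl2⟩ := lf_exists_form {Q ∈ I.minimalPrimes | ∃ i, X i ∉ Q}
      (hfin.subset fun Q hQ => hQ.1) (fun Q hQ => hQ.2)
    have hJ : Homog (I ⊔ Ideal.span {l}) := by
      rw [lf_homog_iff]
      refine Ideal.IsHomogeneous.sup ((lf_homog_iff _).1 hI) (Ideal.homogeneous_span _ _ ?_)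
      rintro x hx
      rw [Set.mem_singleton_iff] at hx
      subst hx
      exact ⟨1, hl1⟩
    obtain ⟨ℓ, hℓ1, hℓ2⟩ := ih (I ⊔ Ideal.span {l}) hJ (by
      intro Q' hQ'1 hQ'2 hQ'3
      have hIQ' : I ≤ Q' := le_sup_left.trans hQ'3
      obtain ⟨Q, hQ, hQQ'⟩ := Ideal.exists_minimalPrimes_le hIQ'
      by_cases hX : ∀ i, X i ∈ Q
      · exact TD_of_X_mem (fun i => hQQ' (hX i)) s
      · push Not at hX
        have hlQ : l ∉ Q := hl2 Q ⟨hQ, hX⟩
        have hlQ' : l ∈ Q' := hQ'3 (Ideal.mem_sup_right (Ideal.subset_span rfl))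
        have hQp : Q.IsPrime := hQ.1.1
        obtain ⟨Q₂, h1, h2, h3, h4⟩ := lf_core hI hQp hQ.1.2
        have h5 : Q₂ = Q := le_antisymm h4 (hQ.2 ⟨h1, h3⟩ h4)
        rw [h5] at h2
        exact TD.lt hQp hQ'1 (lt_of_le_of_ne hQQ' fun he => hlQ (he ▸ hlQ'))
          (h Q hQp h2 hQ.1.2))
    refine ⟨Fin.cons l ℓ, ?_, ?_⟩
    · intro i
      refine Fin.cases ?_ (fun j => ?_) i
      · simpa using hl1
      · simpa using hℓ1 j
    · intro i
      obtain ⟨k, hk⟩ := hℓ2 i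
      refine ⟨k, ?_⟩
      have hle : I ⊔ Ideal.span {l} ⊔ Ideal.span (Set.range ℓ) ≤
          I ⊔ Ideal.span (Set.range (Fin.cons l ℓ : Fin (s + 1) → _)) := by
        rw [sup_assoc, ← Ideal.span_union]
        refine sup_le_sup le_rfl (Ideal.span_mono ?_)
        rw [Fin.range_cons]
        rintro x (hx | hx)
        · exact Set.mem_insert_iff.2 (Or.inl hx)
        · exact Set.mem_insert_iff.2 (Or.inr hx)
      exact hle hk

end Pool.Agent.H5.DG
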