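import Pool.Agent.H5.DG.CoverDefs

/-!
# Project DG2, module Naka: Nakayama's lemma for the coordinate ring

`L` is an `O`-module by `θ`.  `M_d` = the `O`-submodule of `L` spanned by the (finitely many) values
at `y` of the monomials of degree `d`.  `G_p = comb p B` with `p a = π (t a)`, `G_q = comb q B`,
`q a = π (τ a)` have values in `𝔪 M_e`.  For large `d` every monomial of degree `d` lies in the ideal
of `hX`, so `M_d ≤ N_d ⊔ 𝔪 • M_d` with `N_d = ∑ i, ℓ i (y) * M_(d-1)`, and `M_d ≤ N_d` by Nakayama's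
lemma.  So the module generated by the monomials of small degree over the subring of the conclusion
contains all monomials.
-/

open MvPolynomial

noncomputable section

namespace Pool.Agent.H5.DG

private theorem Naka_homComp {σ : Type} {F : MvPolynomial σ ℂ} {e : ℕ} (hF : F.IsHomogeneous e)
    (G : MvPolynomial σ ℂ) (j : ℕ) :
    homogeneousComponent (j + e) (G * F) = homogeneousComponent j G * F := by
  have h1 : homogeneousComponent (j + e) (G * F) =
      ∑ i ∈ Finset.range (G.totalDegree + 1),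
        homogeneousComponent (j + e) (homogeneousComponent i G * F) := by
    rw [← map_sum, ← Finset.sum_mul, sum_homogeneousComponent]
  have h2 : ∀ i ∈ Finset.range (G.totalDegree + 1),
      homogeneousComponent (j + e) (homogeneousComponent i G * F) =
        if i = j then homogeneousComponent j G * F else 0 := by
    intro i _
    have h3 : (homogeneousComponent i G * F) ∈ homogeneousSubmodule σ ℂ (i + e) :=
      (homogeneousComponent_isHomogeneous i G).mul hF
    rw [homogeneousComponent_of_mem h3]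
    by_cases h : i = j
    · rw [if_pos (by omega), if_pos h, h]
    · rw [if_neg (by omega), if_neg h]
  rw [h1, Finset.sum_congr rfl h2, Finset.sum_ite_eq']
  split_ifs with h
  · rfl
  · rw [homogeneousComponent_eq_zero _ _ (by
      rw [Finset.mem_range] at h
      omega), zero_mul]

theorem naka {O L : Type} [CommRing O] [IsLocalRing O] [Field L] [Algebra ℂ L] (θ : O →+* L)
    (π : O →+* ℂ) (γ : ℂ →+* O) (hγ : ∀ z, θ (γ z) = algebraMap ℂ L z) (hπ : ∀ z, π (γ z) = z)
    {M n e s : ℕ} {P : Ideal (MvPolynomial (Fin (M + 1)) ℂ)} (hP : Homog P)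
    {B : Fin (n + 2) → MvPolynomial (Fin (M + 1)) ℂ} (hB : ∀ a, (B a).IsHomogeneous e)
    {t τ : Fin (n + 2) → O} {y : Fin (M + 1) → L} (hy : ∀ g ∈ P, aeval y g = 0)
    (ht : ∑ a, θ (t a) * aeval y (B a) = 0) (hτ : ∑ a, θ (τ a) * aeval y (B a) = 0)
    {ℓ : Fin s → MvPolynomial (Fin (M + 1)) ℂ} (hℓ : ∀ i, (ℓ i).IsHomogeneous 1)
    (hX : ∀ i, ∃ k : ℕ, X i ^ k ∈ P ⊔ Ideal.span {comb (fun a => π (t a)) B} ⊔
      Ideal.span {comb (fun a => π (τ a)) B} ⊔ Ideal.span (Set.range ℓ)) (i : Fin (M + 1)) :
    IsIntegral (Subring.closure (Set.range θ ∪ Set.range fun i => aeval y (ℓ i))) (y i) := by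
  classical
  letI : Algebra O L := θ.toAlgebra
  have hsmul : ∀ (o : O) (x : L), o • x = θ o * x := fun o x => rfl
  -- the monomials
  obtain ⟨mon, hmon⟩ : ∃ mon : (Fin (M + 1) →₀ ℕ) → L,
    ∀ μ, mon μ = aeval y (monomial μ (1 : ℂ)) := ⟨_, fun _ => rfl⟩
  obtain ⟨Md, hMd⟩ : ∃ Md : ℕ → Submodule O L,
    ∀ d, Md d = Submodule.span O (mon '' {μ | μ.degree = d}) := ⟨_, fun _ => rfl⟩
  have hfg : ∀ d, (Md d).FG := by
    intro d
    rw [hMd]
    refine Submodule.fg_span (Set.Finite.image _ ?_)
    exact (Finsupp.finite_of_degree_le d).subset fun μ hμ => le_of_eq hμ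
  have hmonMd : ∀ μ, mon μ ∈ Md μ.degree := by
    intro μ
    rw [hMd]
    exact Submodule.subset_span ⟨μ, rfl, rfl⟩
  have hform : ∀ (d : ℕ) (h : MvPolynomial (Fin (M + 1)) ℂ), h.IsHomogeneous d →
      aeval y h ∈ Md d := by
    intro d h hh
    rw [h.as_sum, map_sum]
    refine Submodule.sum_mem _ fun μ hμ => ?_
    have h1 : aeval y (monomial μ (coeff μ h)) = γ (coeff μ h) • mon μ := by
      rw [hsmul, hγ, hmon, ← MvPolynomial.aeval_C (R := ℂ) y, ← map_mul, C_mul_monomial, mul_one]
    rw [h1]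
    refine Submodule.smul_mem _ _ ?_
    have h2 : μ.degree = d := by
      have h3 := hh (mem_support_iff.1 hμ)
      rw [Finsupp.weight_apply, Finsupp.sum_fintype _ _ (by simp)] at h3
      rw [Finsupp.degree_eq_sum, ← h3]
      simp
    rw [← h2]
    exact hmonMd μ
  -- the maximal ideal
  have hmax : ∀ o : O, π o = 0 → o ∈ IsLocalRing.maximalIdeal O := by
    intro o ho
    rw [IsLocalRing.mem_maximalIdeal, mem_nonunits_iff]
    intro hu
    exact (hu.map π).ne_zero ho
  have hG : ∀ (t : Fin (n + 2) → O), ∑ a, θ (t a) * aeval y (B a) = 0 → ∀ (d : ℕ)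
      (a' : MvPolynomial (Fin (M + 1)) ℂ), a'.IsHomogeneous d →
      aeval y (a' * comb (fun a => π (t a)) B) ∈ IsLocalRing.maximalIdeal O • Md (d + e) := by
    intro t ht d a' ha'
    have h1 : aeval y (a' * comb (fun a => π (t a)) B) =
        ∑ b, (γ (π (t b)) - t b) • aeval y (a' * B b) := by
      have h2 : ∑ b, (γ (π (t b)) - t b) • aeval y (a' * B b) =
          aeval y a' * (∑ b, algebraMap ℂ L (π (t b)) * aeval y (B b)) -
            aeval y a' * ∑ b, θ (t b) * aeval y (B b) := by
        rw [Finset.mul_sum, Finset.mul_sum, ← Finset.sum_sub_distrib]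
        refine Finset.sum_congr rfl fun b _ => ?_
        rw [hsmul, map_sub, hγ, map_mul]
        ring
      rw [h2, ht, mul_zero, sub_zero, map_mul]
      congr 1
      unfold comb
      rw [map_sum]
      refine Finset.sum_congr rfl fun b _ => ?_
      rw [map_mul, aeval_C]
    rw [h1]
    refine Submodule.sum_mem _ fun b _ => Submodule.smul_mem_smul (hmax _ ?_)
      (hform _ _ (ha'.mul (hB b)))
    rw [map_sub, hπ, sub_self]
  -- the relations
  choose k hk using hX
  obtain ⟨K, hK⟩ : ∃ K : ℕ, K = (∑ i, k i) + e + 1 := ⟨_, rfl⟩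
  obtain ⟨Nd, hNd⟩ : ∃ Nd : ℕ → Submodule O L, ∀ d, Nd d =
    ⨆ i, Submodule.map (LinearMap.mulLeft O (aeval y (ℓ i))) (Md (d - 1)) := ⟨_, fun _ => rfl⟩
  have hstep : ∀ d, K ≤ d → Md d ≤ Nd d ⊔ IsLocalRing.maximalIdeal O • Md d := by
    intro d hd
    rw [hMd d, Submodule.span_le]
    rintro _ ⟨μ, hμ, rfl⟩
    have hμd : μ.degree = d := hμ
    obtain ⟨i, hi⟩ : ∃ i, k i ≤ μ i := by
      by_contra hcon
      push Not at hcon
      have h1 : ∑ i, μ i ≤ ∑ i, k i := Finset.sum_le_sum fun i _ => (hcon i).le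
      rw [Finsupp.degree_eq_sum] at hμd
      omega
    have h1 : monomial μ (1 : ℂ) ∈ P ⊔ Ideal.span {comb (fun a => π (t a)) B} ⊔
        Ideal.span {comb (fun a => π (τ a)) B} ⊔ Ideal.span (Set.range ℓ) := by
      have h2 : (monomial μ (1 : ℂ) : MvPolynomial (Fin (M + 1)) ℂ) =
          monomial (μ - Finsupp.single i (k i)) 1 * X i ^ k i := by
        rw [X_pow_eq_monomial, monomial_mul, mul_one, tsub_add_cancel_of_le]
        exact Finsupp.single_le_iff.2 hi
      rw [h2]
      exact Ideal.mul_mem_left _ _ (hk i)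
    obtain ⟨g₃, hg₃, l', hl', hsum1⟩ := Submodule.mem_sup.1 h1
    obtain ⟨g₂, hg₂, b', hb', hsum2⟩ := Submodule.mem_sup.1 hg₃
    obtain ⟨g, hg, a', ha', hsum3⟩ := Submodule.mem_sup.1 hg₂
    obtain ⟨a, rfl⟩ := Ideal.mem_span_singleton'.1 ha'
    obtain ⟨b, rfl⟩ := Ideal.mem_span_singleton'.1 hb'
    obtain ⟨h, rfl⟩ := (Submodule.mem_span_range_iff_exists_fun _).1 hl'
    have hd1 : d = (d - e) + e := by omega
    have hd2 : d = (d - 1) + 1 := by omega
    have hcomb : ∀ t : Fin (n + 2) → O, (comb (fun a => π (t a)) B).IsHomogeneous e := fun t =>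
      comb_isHomogeneous _ hB
    have h3 : (monomial μ (1 : ℂ) : MvPolynomial (Fin (M + 1)) ℂ) =
        homogeneousComponent d g +
          homogeneousComponent (d - e) a * comb (fun a => π (t a)) B +
          homogeneousComponent (d - e) b * comb (fun a => π (τ a)) B +
          ∑ i, homogeneousComponent (d - 1) (h i) * ℓ i := by
      have h4 : homogeneousComponent d (monomial μ (1 : ℂ) : MvPolynomial (Fin (M + 1)) ℂ) =
          monomial μ 1 := by
        refine homogeneousComponent_eq_self ?_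
        exact isHomogeneous_monomial _ hμd
      rw [← h4, ← hsum1, ← hsum2, ← hsum3, map_add, map_add, map_add, map_sum]
      congr 1
      · congr 1
        · congr 1
          conv_lhs => rw [hd1]
          exact Naka_homComp (hcomb t) a (d - e)
        · conv_lhs => rw [hd1]
          exact Naka_homComp (hcomb τ) b (d - e)
      · refine Finset.sum_congr rfl fun j _ => ?_
        rw [smul_eq_mul]
        conv_lhs => rw [hd2]
        exact Naka_homComp (hℓ j) (h j) (d - 1)
    rw [SetLike.mem_coe, hmon, h3, map_add, map_add, map_add, hy _ (hP g hg d), zero_add, map_sum,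
      ← hMd d]
    have ha2 := hG t ht (d - e) _ (homogeneousComponent_isHomogeneous (d - e) a)
    have hb2 := hG τ hτ (d - e) _ (homogeneousComponent_isHomogeneous (d - e) b)
    rw [← hd1] at ha2 hb2
    refine Submodule.add_mem _ (Submodule.mem_sup_right (Submodule.add_mem _ ha2 hb2))
      (Submodule.mem_sup_left (Submodule.sum_mem _ fun j _ => ?_))
    rw [hNd]
    refine Submodule.mem_iSup_of_mem j ?_
    refine ⟨aeval y (homogeneousComponent (d - 1) (h j)),
      hform _ _ (homogeneousComponent_isHomogeneous (d - 1) (h j)), ?_⟩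
    rw [LinearMap.mulLeft_apply, map_mul, mul_comm]
  have hnak : ∀ d, K ≤ d → Md d ≤ Nd d := fun d hd =>
    Submodule.le_of_le_smul_of_le_jacobson_bot (hfg d)
      (IsLocalRing.maximalIdeal_le_jacobson _) (hstep d hd)
  -- the module over the subring
  obtain ⟨A, hA⟩ : ∃ A : Subring L,
    A = Subring.closure (Set.range θ ∪ Set.range fun i => aeval y (ℓ i)) := ⟨_, rfl⟩
  rw [← hA]
  have hθA : ∀ o, θ o ∈ A := by
    intro o
    rw [hA]
    exact Subring.subset_closure (Or.inl ⟨o, rfl⟩)
  have hℓA : ∀ j, aeval y (ℓ j) ∈ A := by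
    intro j
    rw [hA]
    exact Subring.subset_closure (Or.inr ⟨j, rfl⟩)
  obtain ⟨W, hW⟩ : ∃ W : Submodule A L, W = Submodule.span A (mon '' {μ | μ.degree < K}) :=
    ⟨_, rfl⟩
  have hWsmul : ∀ a ∈ A, ∀ x ∈ W, a * x ∈ W := fun a ha x hx => W.smul_mem ⟨a, ha⟩ hx
  let W' : Submodule O L :=
    { carrier := W
      add_mem' := fun {a b} ha hb => W.add_mem ha hb
      zero_mem' := W.zero_mem
      smul_mem' := fun o x hx => hWsmul _ (hθA o) x hx }
  have hMW : ∀ d, Md d ≤ W' := by
    intro d
    induction d using Nat.strong_induction_on with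
    | _ d ih =>
      rcases lt_or_ge d K with hlt | hge
      · rw [hMd d, Submodule.span_le]
        rintro _ ⟨μ, hμ, rfl⟩
        have hμd : μ.degree = d := hμ
        change mon μ ∈ W
        rw [hW]
        exact Submodule.subset_span ⟨μ, by rw [Set.mem_ofPred_eq, hμd]; exact hlt, rfl⟩
      · refine (hnak d hge).trans ?_
        rw [hNd]
        refine iSup_le fun j => ?_
        rw [Submodule.map_le_iff_le_comap]
        intro x hx
        exact hWsmul _ (hℓA j) x (ih (d - 1) (by omega) hx)
  have hall : ∀ μ, mon μ ∈ W := fun μ => hMW _ (hmonMd μ)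
  have hone : (1 : L) ∈ W := by
    have h1 := hall 0
    rwa [hmon, monomial_zero', C_1, map_one] at h1
  refine isIntegral_of_smul_mem_submodule (R := A) (A := L) W ?_ ?_ (y i) ?_
  · intro hcon
    rw [hcon, Submodule.mem_bot] at hone
    exact one_ne_zero hone
  · rw [hW]
    refine Submodule.fg_span (Set.Finite.image _ ?_)
    refine (Finsupp.finite_of_degree_le K).subset fun μ hμ => ?_
    have h1 : μ.degree < K := hμ
    exact h1.le
  · intro x hx
    have h1 : W ≤ W.comap (LinearMap.mulLeft A (y i)) := by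
      conv_lhs => rw [hW]
      rw [Submodule.span_le]
      rintro _ ⟨μ, -, rfl⟩
      change y i * mon μ ∈ W
      have h2 : y i * mon μ = mon (Finsupp.single i 1 + μ) := by
        have h3 : (monomial (Finsupp.single i 1 + μ) (1 : ℂ) : MvPolynomial (Fin (M + 1)) ℂ) =
            X i * monomial μ 1 := by
          rw [X, monomial_mul, mul_one]
        rw [hmon, hmon, h3, map_mul, aeval_X]
      rw [h2]
      exact hall _
    exact h1 hx

end Pool.Agent.H5.DG
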