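import Pool.Agent.H5.DG2.Omega

/-!
# Project DG2, module GalInv: polynomials over the algebraic closure which are fixed by the Galois group

`InfiniteGalois.fixedField_bot` (or `IsGalois` of `Omg` over `RatFunc ℂ`, instance `IsSepClosure.isGalois`): an element of `Omg` fixed by
all `σ : Omg ≃ₐ[RatFunc ℂ] Omg` lies in the image of `RatFunc ℂ`; apply this to the coefficients.
-/

open MvPolynomial

noncomputable section

namespace Pool.Agent.H5.DG

theorem exists_of_fixed (x : Omg) (hx : ∀ σ : Omg ≃ₐ[RatFunc ℂ] Omg, σ x = x) :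
    ∃ y : RatFunc ℂ, algebraMap (RatFunc ℂ) Omg y = x := by
  obtain ⟨y, hy⟩ := (InfiniteGalois.mem_range_algebraMap_iff_fixed (k := RatFunc ℂ) x).2 hx
  exact ⟨y, hy⟩

theorem exists_of_fixed_poly {σ : Type} (Q : MvPolynomial σ Omg)
    (hQ : ∀ g : Omg ≃ₐ[RatFunc ℂ] Omg, MvPolynomial.map (g : Omg →+* Omg) Q = Q) :
    ∃ Q₀ : MvPolynomial σ (RatFunc ℂ), MvPolynomial.map (algebraMap (RatFunc ℂ) Omg) Q₀ = Q := by
  classical
  have hc : ∀ m : σ →₀ ℕ, ∃ y : RatFunc ℂ, algebraMap (RatFunc ℂ) Omg y = Q.coeff m := by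
    intro m
    refine exists_of_fixed _ fun g => ?_
    have h1 := congrArg (MvPolynomial.coeff m) (hQ g)
    rw [MvPolynomial.coeff_map] at h1
    exact h1
  choose y hy using hc
  refine ⟨∑ m ∈ Q.support, MvPolynomial.monomial m (y m), ?_⟩
  rw [map_sum]
  simp only [MvPolynomial.map_monomial, hy]
  exact Q.support_sum_monomial_coeff

end Pool.Agent.H5.DG
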