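import Pool.Agent.H5.DG2.Omega
import Pool.Agent.H5.DG.Iface

/-!
# Project DG2, module OmgSplit: the factors of the norm form over `ℂ(u)` and their derivatives

`t` from `hN.split Omg uu`.  Both sides of the three identities are polynomials in `w` with coefficients in `j (Omg)`; they agree for
`w = j ∘ w₀`, `w₀ : Fin (n + 2) → Omg`, hence always (`Omg` is infinite: `MvPolynomial.funext` over `Omg`, then apply `aeval w` after
`map j`).  For `w₀` over `Omg`: the first is `hN.split`; the second is `val_dN_of_split` (module BasicB) with `a = 0`, `t s 0 = 1`; the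
third: apply `d` to `val N w₀ uu = ∏ s, dot (t s) w₀`: the left side gives `∑ a, val (dN a N) w₀ uu * d (w₀ a) + N' (w₀; uu) * d uu` (the
computation is that of `derivation_root`, module PhiNe, which does not need `val N v u = 0` before its last line), the right side
`∑ s, (dot (d ∘ t s) w₀ + dot (t s) (d ∘ w₀)) * ∏ s' ∈ univ.erase s, dot (t s') w₀`; the terms with `d ∘ w₀` cancel by `val_dN_of_split`.
-/

open MvPolynomial

noncomputable section

namespace Pool.Agent.H5.DG

variable {n κ : ℕ} {N : Polynomial (PV n)}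

/-- The factors of the norm form over `ℂ(u)`. -/
structure Factors (N : Polynomial (PV n)) (t : Fin κ → Fin (n + 2) → Omg) : Prop where
  zero : ∀ s, t s 0 = 1
  one : ∀ s, t s 1 = uu
  split : ∀ w : Fin (n + 2) → Omg, val N w uu = ∏ s, dot (t s) w

theorem exists_factors (hN : IsPreNorm κ N) : ∃ t : Fin κ → Fin (n + 2) → Omg, Factors N t := by
  obtain ⟨t, ht, hs⟩ := hN.split Omg uu
  exact ⟨t, fun s => (ht s).1, fun s => (ht s).2, hs⟩

private theorem OmgSplit_atV {L : Type} [Field L] [Algebra ℂ L] (v : Fin (n + 2) → L) :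
    atV N v = ∑ i ∈ N.support, Polynomial.monomial i (MvPolynomial.aeval v (N.coeff i)) := by
  conv_lhs => rw [atV, N.as_sum_support, Polynomial.map_sum]
  refine Finset.sum_congr rfl fun i _ => ?_
  rw [Polynomial.map_monomial]
  rfl

private theorem OmgSplit_val {L : Type} [Field L] [Algebra ℂ L] (v : Fin (n + 2) → L) (u : L) :
    val N v u = ∑ i ∈ N.support, MvPolynomial.aeval v (N.coeff i) * u ^ i := by
  rw [val, OmgSplit_atV, Polynomial.eval_finsetSum]
  exact Finset.sum_congr rfl fun i _ => Polynomial.eval_monomial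

private theorem OmgSplit_der {L : Type} [Field L] [Algebra ℂ L] (v : Fin (n + 2) → L) (u : L) :
    (Polynomial.derivative (atV N v)).eval u =
      ∑ i ∈ N.support, MvPolynomial.aeval v (N.coeff i) * (i * u ^ (i - 1)) := by
  rw [OmgSplit_atV, Polynomial.derivative_sum, Polynomial.eval_finsetSum]
  refine Finset.sum_congr rfl fun i _ => ?_
  rw [Polynomial.derivative_monomial, Polynomial.eval_monomial]
  ring

/-- The polynomial over `Omg`. -/
private def OmgSplit_pol (N : Polynomial (PV n)) (c : ℕ → Omg) : MvPolynomial (Fin (n + 2)) Omg :=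
  ∑ i ∈ N.support, MvPolynomial.map (algebraMap ℂ Omg) (N.coeff i) * MvPolynomial.C (c i)

private theorem OmgSplit_eval_pol {L : Type} [Field L] [Algebra ℂ L] (j : Omg →ₐ[ℂ] L)
    (c : ℕ → Omg) (w : Fin (n + 2) → L) :
    MvPolynomial.eval₂ (j : Omg →+* L) w (OmgSplit_pol N c) =
      ∑ i ∈ N.support, MvPolynomial.aeval w (N.coeff i) * j (c i) := by
  rw [OmgSplit_pol, MvPolynomial.eval₂_sum]
  refine Finset.sum_congr rfl fun i _ => ?_
  rw [MvPolynomial.eval₂_mul, MvPolynomial.eval₂_C, MvPolynomial.eval₂_map]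
  have h : (j : Omg →+* L).comp (algebraMap ℂ Omg) = algebraMap ℂ L := j.comp_algebraMap
  rw [h]
  rfl

/-- The linear form. -/
private def OmgSplit_lin (t : Fin (n + 2) → Omg) : MvPolynomial (Fin (n + 2)) Omg :=
  ∑ a, MvPolynomial.C (t a) * MvPolynomial.X a

private theorem OmgSplit_eval_lin {L : Type} [Field L] [Algebra ℂ L] (j : Omg →ₐ[ℂ] L)
    (t : Fin (n + 2) → Omg) (w : Fin (n + 2) → L) :
    MvPolynomial.eval₂ (j : Omg →+* L) w (OmgSplit_lin t) = dot (fun a => j (t a)) w := by
  rw [OmgSplit_lin, MvPolynomial.eval₂_sum, dot]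
  refine Finset.sum_congr rfl fun i _ => ?_
  rw [MvPolynomial.eval₂_mul, MvPolynomial.eval₂_C, MvPolynomial.eval₂_X]
  rfl

private theorem OmgSplit_transfer {P Q : MvPolynomial (Fin (n + 2)) Omg}
    (h : ∀ x : Fin (n + 2) → ℂ, MvPolynomial.eval₂ (AlgHom.id ℂ Omg : Omg →+* Omg)
      (fun a => algebraMap ℂ Omg (x a)) P = MvPolynomial.eval₂ (AlgHom.id ℂ Omg : Omg →+* Omg)
      (fun a => algebraMap ℂ Omg (x a)) Q) : P = Q := by
  refine MvPolynomial.funext_set (fun _ => Set.range (algebraMap ℂ Omg))
    (fun _ => Set.infinite_range_of_injective (algebraMap ℂ Omg).injective) fun y hy => ?_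
  choose x hx using fun a => hy a (Set.mem_univ a)
  have hy' : y = fun a => algebraMap ℂ Omg (x a) := funext fun a => (hx a).symm
  rw [hy']
  exact h x

private theorem OmgSplit_prod (d : Derivation ℂ Omg Omg) {ι : Type} [DecidableEq ι] (S : Finset ι)
    (f : ι → Omg) : d (∏ s ∈ S, f s) = ∑ s ∈ S, d (f s) * ∏ s' ∈ S.erase s, f s' := by
  induction S using Finset.induction_on with
  | empty => simp
  | insert a S ha ih =>
    rw [Finset.prod_insert ha, d.leibniz, ih, Finset.sum_insert ha, Finset.erase_insert ha,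
      smul_eq_mul, smul_eq_mul, Finset.mul_sum, add_comm, mul_comm (∏ s ∈ S, f s)]
    congr 1
    refine Finset.sum_congr rfl fun s hs => ?_
    have has : a ≠ s := fun h => ha (h ▸ hs)
    rw [Finset.erase_insert_of_ne has, Finset.prod_insert (fun h => ha (Finset.mem_of_mem_erase h))]
    ring

theorem Factors.identities {t : Fin κ → Fin (n + 2) → Omg} (ht : Factors N t)
    (d : Derivation ℂ Omg Omg) (hd : d uu = 1) {L : Type} [Field L] [Algebra ℂ L]
    (j : Omg →ₐ[ℂ] L) (w : Fin (n + 2) → L) :
    val N w (j uu) = ∏ s, dot (fun a => j (t s a)) w ∧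
    val (dN 0 N) w (j uu) =
      ∑ s, ∏ s' ∈ Finset.univ.erase s, dot (fun a => j (t s' a)) w ∧
    (Polynomial.derivative (atV N w)).eval (j uu) =
      ∑ s, dot (fun a => j (d (t s a))) w *
        ∏ s' ∈ Finset.univ.erase s, dot (fun a => j (t s' a)) w := by
  have h1 : ∀ w : Fin (n + 2) → L, val N w (j uu) = ∏ s, dot (fun a => j (t s a)) w := by
    intro w
    have hP : OmgSplit_pol N (fun i => uu ^ i) = ∏ s, OmgSplit_lin (t s) := by
      refine OmgSplit_transfer fun x => ?_
      rw [OmgSplit_eval_pol, MvPolynomial.eval₂_prod]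
      simp only [OmgSplit_eval_lin]
      have h2 := ht.split fun a => algebraMap ℂ Omg (x a)
      rw [OmgSplit_val] at h2
      exact h2
    have h2 := congrArg (MvPolynomial.eval₂ (j : Omg →+* L) w) hP
    rw [OmgSplit_eval_pol, MvPolynomial.eval₂_prod] at h2
    simp only [OmgSplit_eval_lin, map_pow] at h2
    rw [OmgSplit_val]
    exact h2
  refine ⟨h1 w, ?_, ?_⟩
  · rw [val_dN_of_split h1 0 w]
    refine Finset.sum_congr rfl fun s _ => ?_
    rw [ht.zero s, map_one, one_mul]
  · have hP : OmgSplit_pol N (fun i => i * uu ^ (i - 1)) =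
        ∑ s, OmgSplit_lin (fun a => d (t s a)) * ∏ s' ∈ Finset.univ.erase s, OmgSplit_lin (t s') := by
      refine OmgSplit_transfer fun x => ?_
      rw [OmgSplit_eval_pol, MvPolynomial.eval₂_sum]
      simp only [MvPolynomial.eval₂_mul, MvPolynomial.eval₂_prod, OmgSplit_eval_lin, AlgHom.id_apply]
      have h2 := congrArg d (ht.split fun a => algebraMap ℂ Omg (x a))
      rw [OmgSplit_val, map_sum, OmgSplit_prod] at h2
      have h3 : ∀ i, d (MvPolynomial.aeval (fun a => algebraMap ℂ Omg (x a)) (N.coeff i) * uu ^ i) =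
          MvPolynomial.aeval (fun a => algebraMap ℂ Omg (x a)) (N.coeff i) * (i * uu ^ (i - 1)) := by
        intro i
        have h4 : MvPolynomial.aeval (fun a => algebraMap ℂ Omg (x a)) (N.coeff i) =
            algebraMap ℂ Omg (MvPolynomial.eval x (N.coeff i)) := by
          exact MvPolynomial.aeval_algebraMap_apply Omg x (N.coeff i)
        rw [d.leibniz, h4, d.map_algebraMap, smul_zero, add_zero, d.leibniz_pow, hd]
        simp only [smul_eq_mul, nsmul_eq_mul, mul_one]
      have h5 : ∀ s, d (dot (t s) fun a => algebraMap ℂ Omg (x a)) =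
          dot (fun a => d (t s a)) fun a => algebraMap ℂ Omg (x a) := by
        intro s
        rw [dot, map_sum, dot]
        refine Finset.sum_congr rfl fun a _ => ?_
        rw [d.leibniz, d.map_algebraMap, smul_zero, zero_add, smul_eq_mul, mul_comm]
      simp only [h3, h5] at h2
      exact h2
    have h2 := congrArg (MvPolynomial.eval₂ (j : Omg →+* L) w) hP
    rw [OmgSplit_eval_pol, MvPolynomial.eval₂_sum] at h2
    simp only [MvPolynomial.eval₂_mul, MvPolynomial.eval₂_prod, OmgSplit_eval_lin, map_mul, map_natCast,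
      map_pow] at h2
    rw [OmgSplit_der]
    exact h2

end Pool.Agent.H5.DG
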