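import Pool.Agent.H5.DG2.Theta
import Pool.Agent.H5.DG2.GalInv
import Pool.Agent.H5.DG2.OmgSplit

/-!
# Project DG2, module Trans: the Galois group permutes the factors of the norm form transitively

Fix `s`.  For `g : Omg ≃ₐ[RatFunc ℂ] Omg` the vector `g ∘ t s` is again some `t s'`: it lies in `Gam N Omg` (apply `g` to
`val N w uu = aeval w (Th N)`, `val_eq_Th`) and its coordinate `1` is `uu`, use `mem_Gam_iff`.  Let `𝒪` be the finite set of the `g ∘ t s`
(a subset of the image of `t`), `Q = ∏ τ ∈ 𝒪, ∑ a, C (τ a) * X a`.  `Q` is fixed by the group (which permutes `𝒪`), so `Q = map Q₀`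
(`exists_of_fixed_poly`).  `Q` divides `map (Th N) = ∏ s, ∑ a, C (t s a) * X a` (equality of polynomials over the infinite field `Omg`:
`MvPolynomial.funext`; the product over the subset `𝒪` of the image of `t` divides the product over all `s`); the quotient is fixed by
the group as well (domain), so `Th N = Q₀ * H₀` over `RatFunc ℂ`.  `Th_clear` for `Q₀` and `H₀`: `Th G₁ = q₁ Q₀`, `Th G₂ = q₂ H₀`, so
`Th (G₁ * G₂) = Th (C (..) * N)`, `N ∣ G₁ * G₂` by `Th_injective` (the polynomial `q₁ q₂` of `u` is `Th` of an element of `Polynomial (PV n)`).  `N` is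
prime (`hN.irred`, `PV n` is a UFD).  `N ∣ G₂` is impossible: `Th N` would divide `q₂ H₀ ≠ 0`, but `totalDegree (Th N) = κ`,
`totalDegree H₀ = κ - 𝒪.card < κ` (`totalDegree_mul_of_isDomain`).  `N ∣ G₁` gives `κ ≤ totalDegree Q₀ = 𝒪.card ≤ (image of t).card ≤ κ`.
So `𝒪` = image of `t` and `t` is injective.
-/

open MvPolynomial

noncomputable section

namespace Pool.Agent.H5.DG

variable {n κ : ℕ} {N : Polynomial (PV n)}

/-- The linear form with the coefficients `τ`. -/
private def Trans_lin (τ : Fin (n + 2) → Omg) : MvPolynomial (Fin (n + 2)) Omg :=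
  ∑ a, MvPolynomial.C (τ a) * MvPolynomial.X a

private theorem Trans_lin_eval (τ w : Fin (n + 2) → Omg) :
    MvPolynomial.eval w (Trans_lin τ) = dot τ w := by
  simp [Trans_lin, dot]

private theorem Trans_lin_homog (τ : Fin (n + 2) → Omg) : (Trans_lin τ).IsHomogeneous 1 := by
  unfold Trans_lin
  refine MvPolynomial.IsHomogeneous.sum _ _ _ fun a _ => ?_
  have h := (MvPolynomial.isHomogeneous_C (Fin (n + 2)) (τ a)).mul
    (MvPolynomial.isHomogeneous_X Omg a)
  simpa using h

private theorem Trans_lin_ne {τ : Fin (n + 2) → Omg} (h : τ 0 = 1) : Trans_lin τ ≠ 0 := by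
  intro h0
  have h1 := Trans_lin_eval τ (Pi.single 0 1)
  rw [h0, map_zero] at h1
  have h2 : dot τ (Pi.single 0 1 : Fin (n + 2) → Omg) = τ 0 := by
    simp [dot, Pi.single_apply]
  rw [h2, h] at h1
  exact zero_ne_one h1

private theorem Trans_lin_map (g : Omg ≃ₐ[RatFunc ℂ] Omg) (τ : Fin (n + 2) → Omg) :
    MvPolynomial.map (g : Omg →+* Omg) (Trans_lin τ) = Trans_lin fun a => g (τ a) := by
  simp [Trans_lin]

/-- The Galois group permutes the factors. -/
private theorem Trans_mem {t : Fin κ → Fin (n + 2) → Omg} (ht : Factors N t)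
    (g : Omg ≃ₐ[RatFunc ℂ] Omg) (s : Fin κ) : ∃ s', (fun a => g (t s a)) = t s' := by
  have hu : g uu = uu := g.commutes _
  have hmem : (fun a => g (t s a)) ∈ Gam N Omg := by
    refine ⟨?_, fun w hw => ?_⟩
    · show g (t s 0) = 1
      rw [ht.zero, map_one]
    · show val N w (g (t s 1)) = 0
      rw [ht.one, hu, val_eq_Th]
      have h1 : MvPolynomial.aeval w (Th N) =
          g (MvPolynomial.aeval (fun a => g.symm (w a)) (Th N)) := by
        have h2 := MvPolynomial.comp_aeval_apply (fun a => g.symm (w a))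
          (g : Omg →ₐ[RatFunc ℂ] Omg) (Th N)
        rw [AlgEquiv.coe_toAlgHom] at h2
        rw [h2]
        congr 1
        congr 1
        funext a
        exact (g.apply_symm_apply _).symm
      have h3 : dot (t s) (fun a => g.symm (w a)) = 0 := by
        have h4 : g (dot (t s) fun a => g.symm (w a)) = 0 := by
          rw [← hw]
          simp [dot]
        exact (map_eq_zero_iff g g.injective).1 h4
      rw [h1, ← val_eq_Th, ht.split, Finset.prod_eq_zero (Finset.mem_univ s) h3, map_zero]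
  exact (mem_Gam_iff (fun s => ⟨ht.zero s, ht.one s⟩) ht.split _
    (by show g (t s 1) = uu; rw [ht.one, hu])).1 hmem

/-- The norm form over the algebraic closure. -/
private def Trans_Ph : Polynomial (PV n) →+* MvPolynomial (Fin (n + 2)) Omg :=
  (MvPolynomial.map (algebraMap (RatFunc ℂ) Omg)).comp Th

private theorem Trans_split {t : Fin κ → Fin (n + 2) → Omg} (ht : Factors N t) :
    Trans_Ph N = ∏ s, Trans_lin (t s) := by
  have : Infinite Omg := Infinite.of_injective (algebraMap ℂ Omg) (algebraMap ℂ Omg).injective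
  refine MvPolynomial.funext fun w => ?_
  rw [map_prod]
  simp only [Trans_lin_eval]
  rw [← ht.split, val_eq_Th]
  show MvPolynomial.eval w (MvPolynomial.map (algebraMap (RatFunc ℂ) Omg) (Th N)) = _
  rw [MvPolynomial.eval_map]
  rfl

private theorem Trans_mapC (q : Polynomial ℂ) :
    Th (n := n) (q.map MvPolynomial.C) =
      MvPolynomial.C (algebraMap (Polynomial ℂ) (RatFunc ℂ) q) := by
  have h : (Th (n := n)).comp (Polynomial.mapRingHom MvPolynomial.C) =
      MvPolynomial.C.comp (algebraMap (Polynomial ℂ) (RatFunc ℂ)) := by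
    refine Polynomial.ringHom_ext (fun c => ?_) ?_
    · simp only [RingHom.comp_apply, Polynomial.coe_mapRingHom, Polynomial.map_C, Th,
        Polynomial.coe_eval₂RingHom, Polynomial.eval₂_C, MvPolynomial.map_C]
      rfl
    · simp only [RingHom.comp_apply, Polynomial.coe_mapRingHom, Polynomial.map_X, Th,
        Polynomial.coe_eval₂RingHom, Polynomial.eval₂_X, RatFunc.algebraMap_X]
  exact congrArg (fun f => f q) h

/-- the main step -/
private theorem Trans_orbit {t : Fin κ → Fin (n + 2) → Omg} (ht : Factors N t)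
    (hN : IsNormForm κ N) (s₀ : Fin κ) :
    Function.Injective t ∧ ∀ s', ∃ g : Omg ≃ₐ[RatFunc ℂ] Omg, (fun a => g (t s₀ a)) = t s' := by
  classical
  set R : Finset (Fin (n + 2) → Omg) := Finset.univ.image t with hR
  set O : Finset (Fin (n + 2) → Omg) :=
    R.filter fun τ => ∃ g : Omg ≃ₐ[RatFunc ℂ] Omg, (fun a => g (t s₀ a)) = τ with hO
  have hO1 : ∀ g : Omg ≃ₐ[RatFunc ℂ] Omg, ∀ τ ∈ O, (fun a => g (τ a)) ∈ O := by
    intro g τ hτ
    rw [hO, Finset.mem_filter] at hτ ⊢
    obtain ⟨-, g', rfl⟩ := hτ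
    have h1 : (fun a => g (g' (t s₀ a))) = fun a => (g'.trans g) (t s₀ a) := rfl
    refine ⟨?_, g'.trans g, rfl⟩
    obtain ⟨s', hs'⟩ := Trans_mem ht (g'.trans g) s₀
    rw [hR, Finset.mem_image]
    exact ⟨s', Finset.mem_univ _, hs'.symm⟩
  have hO0 : ∀ τ ∈ O, τ 0 = 1 := by
    intro τ hτ
    rw [hO, Finset.mem_filter, hR, Finset.mem_image] at hτ
    obtain ⟨⟨s, -, rfl⟩, -⟩ := hτ
    exact ht.zero s
  have hOs : t s₀ ∈ O := by
    rw [hO, Finset.mem_filter, hR, Finset.mem_image]
    exact ⟨⟨s₀, Finset.mem_univ _, rfl⟩, AlgEquiv.refl, rfl⟩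
  set P : MvPolynomial (Fin (n + 2)) Omg := ∏ s, Trans_lin (t s) with hP
  set Q : MvPolynomial (Fin (n + 2)) Omg := ∏ τ ∈ O, Trans_lin τ with hQ
  have hPN : Trans_Ph N = P := Trans_split ht
  have hP0 : P ≠ 0 := Finset.prod_ne_zero_iff.2 fun s _ => Trans_lin_ne (ht.zero s)
  have hQ0 : Q ≠ 0 := Finset.prod_ne_zero_iff.2 fun τ hτ => Trans_lin_ne (hO0 τ hτ)
  have hPd : P.totalDegree = κ := by
    have h := MvPolynomial.IsHomogeneous.prod (Finset.univ : Finset (Fin κ))
      (fun s => Trans_lin (t s)) (fun _ => 1) (fun s _ => Trans_lin_homog (t s))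
    have h1 := h.totalDegree hP0
    rw [h1]
    simp
  have hQd : Q.totalDegree = O.card := by
    have h := MvPolynomial.IsHomogeneous.prod O
      (fun τ => Trans_lin τ) (fun _ => 1) (fun τ _ => Trans_lin_homog τ)
    have h1 := h.totalDegree hQ0
    rw [h1]
    simp
  -- `Q` divides `P`
  have hdvd : Q ∣ P := by
    have hex : ∀ τ : Fin (n + 2) → Omg, τ ∈ O → ∃ s, t s = τ := by
      intro τ hτ
      rw [hO, Finset.mem_filter, hR, Finset.mem_image] at hτ
      obtain ⟨⟨s, -, h⟩, -⟩ := hτ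
      exact ⟨s, h⟩
    have : Nonempty (Fin κ) := ⟨s₀⟩
    choose! f hf using hex
    have hinj : Set.InjOn f O := by
      intro τ hτ τ' hτ' h
      rw [← hf τ hτ, ← hf τ' hτ', h]
    have h1 : Q = ∏ s ∈ O.image f, Trans_lin (t s) := by
      rw [Finset.prod_image hinj]
      exact Finset.prod_congr rfl fun τ hτ => by rw [hf τ hτ]
    rw [h1, hP]
    exact Finset.prod_dvd_prod_of_subset _ _ _ (Finset.subset_univ _)
  obtain ⟨H, hH⟩ := hdvd
  have hH0 : H ≠ 0 := by
    rintro rfl
    rw [mul_zero] at hH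
    exact hP0 hH
  have hQg : ∀ g : Omg ≃ₐ[RatFunc ℂ] Omg, MvPolynomial.map (g : Omg →+* Omg) Q = Q := by
    intro g
    rw [hQ, map_prod]
    simp only [Trans_lin_map]
    refine Finset.prod_nbij' (fun τ => fun a => g (τ a)) (fun τ => fun a => g.symm (τ a))
      (fun τ hτ => hO1 g τ hτ) (fun τ hτ => hO1 g.symm τ hτ) (fun τ _ => ?_) (fun τ _ => ?_)
      (fun τ _ => rfl)
    · funext a
      exact g.symm_apply_apply _
    · funext a
      exact g.apply_symm_apply _
  have hPg : ∀ g : Omg ≃ₐ[RatFunc ℂ] Omg, MvPolynomial.map (g : Omg →+* Omg) P = P := by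
    intro g
    rw [← hPN]
    show MvPolynomial.map (g : Omg →+* Omg) (MvPolynomial.map (algebraMap (RatFunc ℂ) Omg) (Th N)) =
      MvPolynomial.map (algebraMap (RatFunc ℂ) Omg) (Th N)
    rw [MvPolynomial.map_map]
    congr 1
    congr 1
    ext x
    exact g.commutes x
  have hHg : ∀ g : Omg ≃ₐ[RatFunc ℂ] Omg, MvPolynomial.map (g : Omg →+* Omg) H = H := by
    intro g
    have h1 := hPg g
    rw [hH, map_mul, hQg g] at h1
    exact mul_left_cancel₀ hQ0 h1
  obtain ⟨Q₀, hQ₀⟩ := exists_of_fixed_poly Q hQg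
  obtain ⟨H₀, hH₀⟩ := exists_of_fixed_poly H hHg
  have hmi : Function.Injective
      (MvPolynomial.map (σ := Fin (n + 2)) (algebraMap (RatFunc ℂ) Omg)) :=
    MvPolynomial.map_injective _ (algebraMap (RatFunc ℂ) Omg).injective
  have hTh : Th N = Q₀ * H₀ := by
    apply hmi
    rw [map_mul, hQ₀, hH₀, ← hH]
    exact hPN
  obtain ⟨q₁, G₁, hq₁, hG₁⟩ := Th_clear Q₀
  obtain ⟨q₂, G₂, hq₂, hG₂⟩ := Th_clear H₀
  have hdv : N ∣ G₁ * G₂ := by
    refine ⟨(q₁ * q₂).map MvPolynomial.C, Th_injective ?_⟩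
    rw [map_mul, map_mul, hG₁, hG₂, hTh, Trans_mapC, map_mul, map_mul]
    ring
  have hprime : Prime N := hN.irred.prime
  -- the degree of a multiple of `N`
  have hdeg : ∀ (q : Polynomial ℂ) (G : Polynomial (PV n)) (A : MvPolynomial (Fin (n + 2)) Omg)
      (A₀ : MvPolynomial (Fin (n + 2)) (RatFunc ℂ)), q ≠ 0 → A ≠ 0 →
      MvPolynomial.map (algebraMap (RatFunc ℂ) Omg) A₀ = A →
      Th G = MvPolynomial.C (algebraMap (Polynomial ℂ) (RatFunc ℂ) q) * A₀ → N ∣ G →
      κ ≤ A.totalDegree := by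
    intro q G A A₀ hq hA hA₀ hG hNG
    obtain ⟨B, rfl⟩ := hNG
    have h1 : P * Trans_Ph B =
        MvPolynomial.C (algebraMap (RatFunc ℂ) Omg (algebraMap (Polynomial ℂ) (RatFunc ℂ) q)) *
          A := by
      rw [← hPN, ← map_mul, ← hA₀]
      show MvPolynomial.map (algebraMap (RatFunc ℂ) Omg) (Th (N * B)) = _
      rw [hG, map_mul, MvPolynomial.map_C]
    have hc : (MvPolynomial.C (algebraMap (RatFunc ℂ) Omg
        (algebraMap (Polynomial ℂ) (RatFunc ℂ) q)) : MvPolynomial (Fin (n + 2)) Omg) ≠ 0 := by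
      rw [Ne, MvPolynomial.C_eq_zero, map_eq_zero]
      intro h
      exact hq ((map_eq_zero_iff _ (RatFunc.algebraMap_injective ℂ)).1 h)
    have hB0 : Trans_Ph B ≠ 0 := by
      intro h
      rw [h, mul_zero] at h1
      exact mul_ne_zero hc hA h1.symm
    have h2 := congrArg MvPolynomial.totalDegree h1
    rw [MvPolynomial.totalDegree_mul_of_isDomain hP0 hB0,
      MvPolynomial.totalDegree_mul_of_isDomain hc hA, MvPolynomial.totalDegree_C, zero_add,
      hPd] at h2
    omega
  have hsum : κ = O.card + H.totalDegree := by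
    rw [← hPd, hH, MvPolynomial.totalDegree_mul_of_isDomain hQ0 hH0, hQd]
  have hOpos : 0 < O.card := Finset.card_pos.2 ⟨_, hOs⟩
  have hcard : κ ≤ O.card := by
    rcases hprime.dvd_or_dvd hdv with h | h
    · have h1 := hdeg q₁ G₁ Q Q₀ hq₁ hQ0 hQ₀ hG₁ h
      rwa [hQd] at h1
    · have h1 := hdeg q₂ G₂ H H₀ hq₂ hH0 hH₀ hG₂ h
      omega
  have hOR : O ⊆ R := Finset.filter_subset _ _
  have hRcard : R.card ≤ κ := by
    rw [hR]
    refine Finset.card_image_le.trans ?_
    simp
  have hOeq : O = R := Finset.eq_of_subset_of_card_le hOR (hRcard.trans hcard)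
  have hinj : Function.Injective t := by
    have h1 : R.card = (Finset.univ : Finset (Fin κ)).card := by
      have h2 := Finset.card_le_card hOR
      rw [Finset.card_univ, Fintype.card_fin]
      omega
    have h2 := Finset.card_image_iff.1 h1
    intro a b hab
    exact h2 (Finset.mem_coe.2 (Finset.mem_univ a)) (Finset.mem_coe.2 (Finset.mem_univ b)) hab
  refine ⟨hinj, fun s' => ?_⟩
  have h1 : t s' ∈ O := by
    rw [hOeq, hR]
    exact Finset.mem_image_of_mem _ (Finset.mem_univ _)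
  rw [hO, Finset.mem_filter] at h1
  exact h1.2

theorem Factors.trans {t : Fin κ → Fin (n + 2) → Omg} (ht : Factors N t) (hN : IsNormForm κ N) :
    Function.Injective t ∧
      ∀ s s', ∃ g : Omg ≃ₐ[RatFunc ℂ] Omg, ∀ a, g (t s a) = t s' a := by
  constructor
  · intro s s' h
    exact (Trans_orbit ht hN s).1 h
  · intro s s'
    obtain ⟨g, hg⟩ := (Trans_orbit ht hN s).2 s'
    exact ⟨g, fun a => congrFun hg a⟩

end Pool.Agent.H5.DG
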