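import Pool.Agent.H5.DG2.Place
import Pool.Agent.H5.DG2.Trans
import Pool.Agent.H5.DG.SizeLem

/-!
# Project DG2, module PlaceT: a place which maps a given factor of the norm form to a given point of the curve

`exists_place (p 1)`: `O`, `π`.  All `t s' a ∈ O`: `size_val` with the valuation of `O` (trivial on `ℂ ⊆ O`, `uu ∈ O`; `t s' ∈ Gam N Omg`,
`mem_Gam_iff`).  Apply `π` to `val N w uu = ∏ s', dot (t s') w` for `w` with complex coordinates: `val N w (p 1) = ∏ s', dot (π ∘ t s') w`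
(`val_eq_sum`); `π ∘ t s'` has coordinates `1` and `p 1` at `0`, `1`.  Since `p ∈ Gam N ℂ`, `p = π ∘ t s'` for some `s'` (`mem_Gam_iff`).
`ht.trans hN` gives `g` with `g ∘ t s = t s'`; take `O.comap g` and `π ∘ g`.
-/

open MvPolynomial

noncomputable section

namespace Pool.Agent.H5.DG

variable {n κ : ℕ} {N : Polynomial (PV n)}

theorem Factors.exists_place {t : Fin κ → Fin (n + 2) → Omg} (ht : Factors N t)
    (hN : IsNormForm κ N) (s : Fin κ) {p : Fin (n + 2) → ℂ} (hp : p ∈ Gam N ℂ) :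
    ∃ (O : ValuationSubring Omg) (π : O →+* ℂ), IsPlace O π ∧
      ∀ a, ∃ h : t s a ∈ O, π ⟨t s a, h⟩ = p a := by
  obtain ⟨O, π, hπ, huu, hπu⟩ := Pool.Agent.H5.DG.exists_place (p 1)
  have hκ : 1 ≤ κ := by
    have := s.2
    omega
  have ht1 : ∀ s, t s 0 = 1 ∧ t s 1 = uu := fun s => ⟨ht.zero s, ht.one s⟩
  have hc : ∀ z : ℂ, algebraMap ℂ Omg z ∈ O := by
    intro z
    obtain ⟨h, -⟩ := hπ.const z
    exact h
  have hν : ∀ c : ℂ, c ≠ 0 → O.valuation (algebraMap ℂ Omg c) = 1 := by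
    intro c hc0
    have h1 := (O.valuation_le_one_iff _).2 (hc c)
    have h2 := (O.valuation_le_one_iff _).2 (hc c⁻¹)
    have h3 : O.valuation (algebraMap ℂ Omg c) * O.valuation (algebraMap ℂ Omg c⁻¹) = 1 := by
      rw [← map_mul, ← map_mul, mul_inv_cancel₀ hc0, map_one, map_one]
    refine le_antisymm h1 ?_
    calc (1 : O.ValueGroup) = _ := h3.symm
      _ ≤ O.valuation (algebraMap ℂ Omg c) * 1 := mul_le_mul_right h2 _
      _ = _ := mul_one _
  have hmem : ∀ s' a, t s' a ∈ O := by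
    intro s' a
    have h1 : t s' ∈ Gam N Omg := (mem_Gam_iff ht1 ht.split (t s') (ht.one s')).2 ⟨s', rfl⟩
    have h2 := size_val hκ hN.pre O.valuation hν (t s') h1 a
    rw [ht.one s'] at h2
    rw [← O.valuation_le_one_iff]
    exact h2.trans (max_le le_rfl ((O.valuation_le_one_iff _).2 huu))
  obtain ⟨σ, hσ⟩ : ∃ σ : Fin κ → Fin (n + 2) → ℂ, σ = fun s' a => π ⟨t s' a, hmem s' a⟩ :=
    ⟨_, rfl⟩
  have hval : ∀ w : Fin (n + 2) → ℂ, val N w (p 1) = ∏ s', dot (σ s') w := by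
    intro w
    obtain ⟨c, hcd⟩ : ∃ c : ℂ →+* O, c = (algebraMap ℂ Omg).codRestrict O hc := ⟨_, rfl⟩
    have hcs : ∀ z, O.subtype (c z) = algebraMap ℂ Omg z := by
      intro z
      rw [hcd]
      rfl
    have hcπ : ∀ z, π (c z) = z := by
      intro z
      obtain ⟨h, e⟩ := hπ.const z
      rw [hcd]
      exact e
    have h1 := ht.split (algebraMap ℂ Omg ∘ w)
    rw [val_eq_sum (natDegree_le hN.pre)] at h1 ⊢
    have h2 : (∑ i ∈ Finset.range (κ + 1), c (MvPolynomial.aeval w (N.coeff i)) *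
        (⟨uu, huu⟩ : O) ^ i) = ∏ s', ∑ a, (⟨t s' a, hmem s' a⟩ : O) * c (w a) := by
      apply O.subtype_injective
      rw [map_sum, map_prod]
      refine Eq.trans ?_ (h1.trans ?_)
      · refine Finset.sum_congr rfl fun i _ => ?_
        rw [map_mul, map_pow, hcs, MvPolynomial.aeval_algebraMap_apply]
        rfl
      · refine Finset.prod_congr rfl fun s' _ => ?_
        rw [map_sum]
        refine Finset.sum_congr rfl fun a _ => ?_
        rw [map_mul, hcs]
        rfl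
    have h3 := congrArg π h2
    rw [map_sum, map_prod] at h3
    refine Eq.trans ?_ (h3.trans ?_)
    · refine Finset.sum_congr rfl fun i _ => ?_
      rw [map_mul, map_pow, hcπ, hπu]
    · refine Finset.prod_congr rfl fun s' _ => ?_
      rw [map_sum, hσ]
      refine Finset.sum_congr rfl fun a _ => ?_
      rw [map_mul, hcπ]
  have hσ1 : ∀ s', σ s' 0 = 1 ∧ σ s' 1 = p 1 := by
    intro s'
    rw [hσ]
    constructor
    · have h1 : (⟨t s' 0, hmem s' 0⟩ : O) = 1 := Subtype.ext (ht.zero s')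
      show π ⟨t s' 0, hmem s' 0⟩ = 1
      rw [h1, map_one]
    · have h1 : (⟨t s' 1, hmem s' 1⟩ : O) = ⟨uu, huu⟩ := Subtype.ext (ht.one s')
      show π ⟨t s' 1, hmem s' 1⟩ = p 1
      rw [h1, hπu]
  obtain ⟨s', hs'⟩ := (mem_Gam_iff hσ1 hval p rfl).1 hp
  obtain ⟨g, hg⟩ := (ht.trans hN).2 s s'
  obtain ⟨f, hf⟩ : ∃ f : Omg →+* Omg, f = (g : Omg →+* Omg) := ⟨_, rfl⟩
  have hfc : ∀ z : ℂ, f (algebraMap ℂ Omg z) = algebraMap ℂ Omg z := by
    intro z
    rw [hf, IsScalarTower.algebraMap_apply ℂ (RatFunc ℂ) Omg]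
    exact g.commutes _
  have hft : ∀ a, f (t s a) = t s' a := by
    intro a
    rw [hf]
    exact hg a
  refine ⟨O.comap f, π.comp ((f.comp (O.comap f).subtype).codRestrict O fun x => x.2),
    ⟨fun z => ?_⟩, fun a => ?_⟩
  · have h1 : algebraMap ℂ Omg z ∈ O.comap f := by
      rw [ValuationSubring.mem_comap, hfc]
      exact hc z
    refine ⟨h1, ?_⟩
    obtain ⟨h, e⟩ := hπ.const z
    refine Eq.trans ?_ e
    rw [RingHom.comp_apply]
    exact congrArg π (Subtype.ext (hfc z))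
  · have h1 : t s a ∈ O.comap f := by
      rw [ValuationSubring.mem_comap, hft]
      exact hmem s' a
    refine ⟨h1, ?_⟩
    have h2 : p a = π ⟨t s' a, hmem s' a⟩ := by
      rw [hs', hσ]
    rw [h2, RingHom.comp_apply]
    exact congrArg π (Subtype.ext (hft a))

end Pool.Agent.H5.DG
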