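import Pool.Agent.H5.DG2.Omega

/-!
# Project DG2, module TrFin: a transcendence degree

The elements of `A` lie in the subfield `K' = ` algebraic closure in `L` of `ℂ(j uu, S)` (the `j x`, `x : Omg`, are algebraic over
`ℂ(j uu)`: `omg_algebraic`), which has transcendence degree at most `s + 1`; the `y i` are integral over `A`, so they are algebraic over
`ℂ(j uu, S)` as well, and so are all `aeval y (f i)`.  So no `s + 2` of them are algebraically independent over `ℂ`
(`IsTranscendenceBasis`, `Algebra.trdeg`, exchange).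
-/

open MvPolynomial

noncomputable section

namespace Pool.Agent.H5.DG

/-- The images of the elements of `Omg` are algebraic. -/
private theorem TrFin_j {L : Type} [Field L] [Algebra ℂ L] (j : Omg →ₐ[ℂ] L)
    (F : IntermediateField ℂ L) (hF : j uu ∈ F) (x : Omg) : j x ∈ algebraicClosure F L := by
  rw [mem_algebraicClosure_iff]
  obtain ⟨A, hA, hx⟩ := omg_algebraic x
  let u' : F := ⟨j uu, hF⟩
  have hcomp : (algebraMap F L).comp (Polynomial.aeval u' : Polynomial ℂ →ₐ[ℂ] F).toRingHom =
      (j : Omg →+* L).comp (Polynomial.aeval uu : Polynomial ℂ →ₐ[ℂ] Omg).toRingHom := by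
    apply Polynomial.ringHom_ext
    · intro a
      simp only [RingHom.comp_apply, AlgHom.toRingHom_eq_coe, RingHom.coe_coe, Polynomial.aeval_C]
      rw [AlgHom.commutes, ← IsScalarTower.algebraMap_apply]
    · simp only [RingHom.comp_apply, AlgHom.toRingHom_eq_coe, RingHom.coe_coe, Polynomial.aeval_X]
      rfl
  refine ⟨A.map (Polynomial.aeval u' : Polynomial ℂ →ₐ[ℂ] F).toRingHom, ?_, ?_⟩
  · rw [Polynomial.map_ne_zero_iff]
    · exact hA
    · rw [injective_iff_map_eq_zero]
      intro p hp
      have h1 : j (Polynomial.aeval uu p) = 0 := by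
        have h2 := congrArg (fun φ => φ p) hcomp
        simp only [RingHom.comp_apply] at h2
        rw [hp, map_zero] at h2
        exact h2.symm
      have h3 : Polynomial.aeval uu p = 0 :=
        (map_eq_zero_iff (j : Omg →+* L) (j : Omg →+* L).injective).1 h1
      exact aeval_uu_injective (by rw [h3, map_zero])
  · rw [Polynomial.aeval_def, Polynomial.eval₂_map, hcomp]
    rw [Polynomial.eval_map] at hx
    have h4 := Polynomial.hom_eval₂ A (Polynomial.aeval uu : Polynomial ℂ →ₐ[ℂ] Omg).toRingHom
      (j : Omg →+* L) x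
    rw [hx, map_zero] at h4
    exact h4.symm

theorem no_independent {L : Type} [Field L] [Algebra ℂ L] (j : Omg →ₐ[ℂ] L) {s : ℕ}
    (S : Fin s → L) {M : ℕ} (y : Fin (M + 1) → L)
    (hy : ∀ i, IsIntegral (Subring.closure (Set.range j ∪ Set.range S)) (y i))
    (f : Fin (s + 2) → MvPolynomial (Fin (M + 1)) ℂ) :
    ¬ AlgebraicIndependent ℂ fun i => aeval y (f i) := by
  classical
  intro hind
  obtain ⟨T, hT⟩ : ∃ T : Set L, T = insert (j uu) (Set.range S) := ⟨_, rfl⟩
  obtain ⟨F, hFdef⟩ : ∃ F : IntermediateField ℂ L, F = IntermediateField.adjoin ℂ T := ⟨_, rfl⟩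
  have hTF : T ⊆ F := by
    rw [hFdef]
    exact IntermediateField.subset_adjoin ℂ T
  have hj : ∀ x : Omg, j x ∈ algebraicClosure F L := fun x =>
    TrFin_j j F (hTF (by rw [hT]; exact Set.mem_insert _ _)) x
  have hF : ∀ z ∈ F, z ∈ algebraicClosure F L := fun z hz =>
    (algebraicClosure F L).algebraMap_mem (⟨z, hz⟩ : F)
  have hS : ∀ i, S i ∈ algebraicClosure F L := fun i =>
    hF _ (hTF (by rw [hT]; exact Set.mem_insert_of_mem _ ⟨i, rfl⟩))
  have hcl : Subring.closure (Set.range j ∪ Set.range S) ≤
      (algebraicClosure F L).toSubfield.toSubring := by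
    rw [Subring.closure_le]
    rintro z (⟨x, rfl⟩ | ⟨i, rfl⟩)
    · exact hj x
    · exact hS i
  have hyD : ∀ i, y i ∈ algebraicClosure F L := by
    intro i
    obtain ⟨p, hp, hpe⟩ := hy i
    rw [mem_algebraicClosure_iff']
    have h1 : IsIntegral (algebraicClosure F L) (y i) := by
      let ψ : Subring.closure (Set.range j ∪ Set.range S) →+* (algebraicClosure F L) :=
        Subring.inclusion hcl
      refine ⟨p.map ψ, hp.map _, ?_⟩
      rw [Polynomial.eval₂_map]
      exact hpe
    exact isIntegral_trans (R := F) (A := algebraicClosure F L) (y i) h1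
  have hf : ∀ q : MvPolynomial (Fin (M + 1)) ℂ, aeval y q ∈ algebraicClosure F L := by
    intro q
    induction q using MvPolynomial.induction_on with
    | C a =>
      rw [aeval_C]
      apply hF
      exact F.algebraMap_mem a
    | add p q hp hq =>
      rw [map_add]
      exact add_mem hp hq
    | mul_X p n hp =>
      rw [map_mul, aeval_X]
      exact mul_mem hp (hyD n)
  -- the matroid
  have hcl2 : ∀ z ∈ algebraicClosure F L, z ∈ (AlgebraicIndependent.matroid ℂ L).closure T := by
    intro z hz
    rw [AlgebraicIndependent.matroid_closure_eq]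
    show z ∈ Subalgebra.algebraicClosure (Algebra.adjoin ℂ T) L
    rw [Subalgebra.mem_algebraicClosure]
    subst hFdef
    rw [mem_algebraicClosure_iff] at hz
    open scoped IntermediateField.algebraAdjoinAdjoin in
    exact (IsFractionRing.isAlgebraic_iff (Algebra.adjoin ℂ T) (IntermediateField.adjoin ℂ T) L).2 hz
  have hI : (AlgebraicIndependent.matroid ℂ L).Indep (Set.range fun i => aeval y (f i)) := by
    rw [AlgebraicIndependent.matroid_indep_iff]
    exact hind.coe_range
  have h1 := hI.encard_le_eRk_of_subset (X := (AlgebraicIndependent.matroid ℂ L).closure T) (by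
    rintro _ ⟨i, rfl⟩
    exact hcl2 _ (hf _))
  rw [Matroid.eRk_closure_eq] at h1
  have h2 := h1.trans (Matroid.eRk_le_encard _ T)
  have h3 : (Set.range fun i => aeval y (f i)).encard = (s + 2 : ℕ) := by
    rw [← Set.image_univ, hind.injective.encard_image, Set.encard_univ]
    simp
  have h4 : T.encard ≤ (s + 1 : ℕ) := by
    rw [hT]
    refine (Set.encard_insert_le _ _).trans ?_
    have h5 : (Set.range S).encard ≤ (s : ℕ) := by
      rw [← Set.image_univ]
      refine (Set.encard_image_le _ _).trans ?_
      rw [Set.encard_univ]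
      simp
    push_cast
    exact add_le_add h5 le_rfl
  rw [h3] at h2
  have h6 := h2.trans h4
  have h7 : s + 2 ≤ s + 1 := by exact_mod_cast h6
  omega

end Pool.Agent.H5.DG
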