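import Pool.Agent.H5.DG2.TwoForms
import Pool.Agent.H5.DG2.PlaceT
import Pool.Agent.H5.DG2.Naka
import Pool.Agent.H5.DG2.TrFin
import Pool.Agent.H5.DG2.LinForms
import Pool.Agent.H5.DG2.EigenC
import Pool.Agent.H5.DG2.IntSec

/-!
# Project DG2, module DelV: the exceptional form does not vanish on the variety

`L` = algebraic closure of the fraction field of `R / P`, `y i` = image of `X i`, `v a = aeval y (B a)`; suppose `aeval v (Del κ N) = 0`.
`two_forms`: `t`, `s`, `τ`, `j`.  `Factors.exists_place` for `p`: `O`, `π`.  Scale `τ` by the inverse of a coordinate of maximal value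
(`ValuationSubring`): `τ a ∈ O` for all `a`, some coordinate `1`; `q a = π (τ a)`, `q ≠ 0`, `q 0 = 0`.  `Gp = comb p B`, `Gq = comb q B`.
* `Gp ∉ P` (`hind`, `p 0 = 1`).  `Gq ∉ Q` (the prime ideal `Q` of `hp'`): otherwise `const_of_sat` gives `Gq - C c * Gp ∈ P`, so `q = c p` by `hind`,
  and `q 0 = 0`, `p 0 = 1` give `c = 0`, `q = 0`.
* `exists_TD` for `P`: `TD P D`, and `D` independent elements.  `P < Q` (`Gp ∈ Q`); `Q < 𝔪 = span (range X)` (`Q` is homogeneous and contains no
  non-zero constants; some `X i ∉ Q`), so `¬ TD Q 0` (`TD.not_zero`) and `D ≥ 2` (`TD.lt`, `TD.mono`).  Write `D = s' + 2`.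
* homogeneous primes `Q' ≥ P ⊔ span {Gp} ⊔ span {Gq}`: `TD Q' s'`: if all `X i ∈ Q'`: `TD_of_X_mem`; otherwise `X i ∉ Q'` for some `i`, and
  `Q ≤ Q'` (`q' ∈ Q`: `X i ^ k * q' ∈ P ⊔ span {Gp} ≤ Q'`), `Q < Q'` because of `Gq`; `TD.lt` twice.
* `exists_linear s'` and `naka` with `θ = j ∘ O.subtype`; the subring of `naka` is contained in that of `no_independent`
  (`IsIntegral` over a larger ring: `IsIntegral.tower_top` or directly), so `no_independent` with the `D = s' + 2` independent elements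
  (`aeval y g = 0 ↔ g ∈ P`, so they are independent in `L`) gives a contradiction.
-/

open MvPolynomial

noncomputable section

namespace Pool.Agent.H5.DG

private theorem dv_homog_iff {M : ℕ} (I : Ideal (MvPolynomial (Fin (M + 1)) ℂ)) :
    letI : GradedRing (homogeneousSubmodule (Fin (M + 1)) ℂ) := MvPolynomial.gradedAlgebra
    Homog I ↔ I.IsHomogeneous (homogeneousSubmodule (Fin (M + 1)) ℂ) := by
  constructor
  · intro h i p hp
    have := h p hp i
    rwa [← decomposition.decompose'_apply] at this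
  · intro h p hp k
    have := h k hp
    rwa [← decomposition.decompose'_apply]

private theorem dv_homog_span {M e : ℕ} {G : MvPolynomial (Fin (M + 1)) ℂ}
    (hG : G.IsHomogeneous e) : Homog (Ideal.span {G}) := by
  let _ : GradedRing (homogeneousSubmodule (Fin (M + 1)) ℂ) := MvPolynomial.gradedAlgebra
  rw [dv_homog_iff]
  refine Ideal.homogeneous_span _ _ fun x hx => ?_
  rw [Set.mem_singleton_iff.1 hx]
  exact ⟨e, hG⟩

private theorem dv_homog_sup {M : ℕ} {I J : Ideal (MvPolynomial (Fin (M + 1)) ℂ)}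
    (hI : Homog I) (hJ : Homog J) : Homog (I ⊔ J) := by
  let _ : GradedRing (homogeneousSubmodule (Fin (M + 1)) ℂ) := MvPolynomial.gradedAlgebra
  rw [dv_homog_iff] at *
  exact hI.sup hJ

/-- The ideal of the polynomials without constant term. -/
private abbrev dvm (M : ℕ) : Ideal (MvPolynomial (Fin (M + 1)) ℂ) :=
  RingHom.ker (constantCoeff : MvPolynomial (Fin (M + 1)) ℂ →+* ℂ)

private theorem dv_lt {M : ℕ} {Q : Ideal (MvPolynomial (Fin (M + 1)) ℂ)} (hQ : Q.IsPrime)
    (hQh : Homog Q) (hX : ∃ i, X i ∉ Q) : Q < dvm M := by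
  refine lt_of_le_of_ne ?_ ?_
  · intro q hq
    have h1 := hQh q hq 0
    rw [homogeneousComponent_zero] at h1
    rw [RingHom.mem_ker]
    by_contra h2
    refine hQ.ne_top ?_
    refine Ideal.eq_top_of_isUnit_mem _ h1 ?_
    exact (IsUnit.mk0 _ h2).map C
  · intro h
    obtain ⟨i, hi⟩ := hX
    refine hi ?_
    rw [h, RingHom.mem_ker]
    simp

private theorem dv_integral {L : Type} [CommRing L] {A A' : Subring L} (h : A ≤ A') {x : L}
    (hx : IsIntegral A x) : IsIntegral A' x := by
  obtain ⟨p, hm, hp⟩ := hx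
  refine ⟨p.map (Subring.inclusion h), hm.map _, ?_⟩
  rw [Polynomial.eval₂_map]
  exact hp

private theorem dv_scale {n : ℕ} (O : ValuationSubring Omg) {τ : Fin (n + 2) → Omg}
    (h : τ ≠ 0) : ∃ b, τ b ≠ 0 ∧ ∀ a, τ a / τ b ∈ O := by
  obtain ⟨b, hb⟩ := Finite.exists_max fun a => O.valuation (τ a)
  have hb0 : τ b ≠ 0 := by
    intro h0
    apply h
    funext a
    have := hb a
    simp only [h0, map_zero, le_zero_iff, map_eq_zero] at this
    simpa using this
  refine ⟨b, hb0, fun a => ?_⟩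
  rw [← ValuationSubring.valuation_le_one_iff, map_div₀]
  exact div_le_one_of_le₀ (hb a) zero_le

/-- **The exceptional form does not vanish on the variety.** -/
theorem del_notMem {M n κ e : ℕ} {N : Polynomial (PV n)} (hκ : 1 ≤ κ) (hN : IsNormForm κ N)
    (P : Ideal (MvPolynomial (Fin (M + 1)) ℂ)) [P.IsPrime] (hP : Homog P) (he : 1 ≤ e)
    {B : Fin (n + 2) → MvPolynomial (Fin (M + 1)) ℂ} (hB : ∀ a, (B a).IsHomogeneous e)
    (hind : ∀ x : Fin (n + 2) → ℂ, comb x B ∈ P → x = 0) {p : Fin (n + 2) → ℂ}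
    (hp : p ∈ Gam N ℂ) (hp' : IntegralSection P (comb p B)) : aeval B (Del κ N) ∉ P := by
  intro hdel
  classical
  -- the generic point
  let L : Type := AlgebraicClosure (FractionRing (MvPolynomial (Fin (M + 1)) ℂ ⧸ P))
  let ψ : (MvPolynomial (Fin (M + 1)) ℂ ⧸ P) →ₐ[ℂ] L :=
    IsScalarTower.toAlgHom ℂ (MvPolynomial (Fin (M + 1)) ℂ ⧸ P) L
  have hψ : Function.Injective ψ := by
    have h1 : Function.Injective (algebraMap (MvPolynomial (Fin (M + 1)) ℂ ⧸ P)
        (FractionRing (MvPolynomial (Fin (M + 1)) ℂ ⧸ P))) := IsFractionRing.injective _ _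
    have h2 : Function.Injective
        (algebraMap (FractionRing (MvPolynomial (Fin (M + 1)) ℂ ⧸ P)) L) :=
      (algebraMap (FractionRing (MvPolynomial (Fin (M + 1)) ℂ ⧸ P)) L).injective
    intro a b hab
    apply h1
    apply h2
    rw [← IsScalarTower.algebraMap_apply, ← IsScalarTower.algebraMap_apply]
    exact hab
  let y : Fin (M + 1) → L := fun i => ψ (Ideal.Quotient.mkₐ ℂ P (X i))
  have hy : ∀ g, aeval y g = ψ (Ideal.Quotient.mkₐ ℂ P g) := by
    intro g
    have : aeval y = ψ.comp (Ideal.Quotient.mkₐ ℂ P) := by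
      apply MvPolynomial.algHom_ext
      intro i
      rw [aeval_X]
      rfl
    rw [this]
    rfl
  have hyP : ∀ g, aeval y g = 0 ↔ g ∈ P := by
    intro g
    rw [hy, map_eq_zero_iff ψ hψ]
    exact Ideal.Quotient.eq_zero_iff_mem
  have hcomb : ∀ x : Fin (n + 2) → ℂ,
      aeval y (comb x B) = dot (toL L x) fun a => aeval y (B a) := by
    intro x
    unfold comb dot toL
    rw [map_sum]
    refine Finset.sum_congr rfl fun a _ => ?_
    rw [map_mul, ← MvPolynomial.algebraMap_eq, AlgHom.commutes]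
  have hv : ∀ x : Fin (n + 2) → ℂ, dot (toL L x) (fun a => aeval y (B a)) = 0 → x = 0 := by
    intro x hx
    rw [← hcomb, hyP] at hx
    exact hind x hx
  have hdel' : MvPolynomial.aeval (fun a => aeval y (B a)) (Del κ N) = 0 := by
    have h1 : aeval (fun a => aeval y (B a)) (Del κ N) = aeval y (aeval B (Del κ N)) := by
      rw [← AlgHom.comp_apply]
      congr 1
      apply MvPolynomial.algHom_ext
      intro i
      rw [aeval_X, AlgHom.comp_apply, aeval_X]
    rw [h1, hyP]
    exact hdel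
  obtain ⟨t, s, τ, j, ht, h1, hτ0, hτne, h2⟩ := two_forms hκ hN _ hv hdel'
  obtain ⟨O, π, hπ, htO⟩ := Factors.exists_place ht hN s hp
  obtain ⟨b, hb0, hbO⟩ := dv_scale O hτne
  let T : Fin (n + 2) → O := fun a => ⟨t s a, (htO a).choose⟩
  have hT : ∀ a, π (T a) = p a := fun a => (htO a).choose_spec
  let T' : Fin (n + 2) → O := fun a => ⟨τ a / τ b, hbO a⟩
  set q : Fin (n + 2) → ℂ := fun a => π (T' a) with hq
  have hqb : q b = 1 := by
    have : T' b = 1 := Subtype.ext (div_self hb0)
    rw [hq]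
    simp only [this, map_one]
  have hq0 : q 0 = 0 := by
    have : T' 0 = 0 := Subtype.ext (by
      change τ 0 / τ b = 0
      rw [hτ0, zero_div])
    rw [hq]
    simp only [this, map_zero]
  have hp0 : p 0 = 1 := hp.1
  have hGp : comb p B ∉ P := by
    intro h
    have := hind p h
    rw [this] at hp0
    exact zero_ne_one hp0
  obtain ⟨Q, hQ, hQh, hPQ, hGQ, hXQ, hsat⟩ := hp'
  have hGq : comb q B ∉ Q := by
    intro h
    obtain ⟨c, hc⟩ := const_of_sat P hP he (comb_isHomogeneous p hB) (comb_isHomogeneous q hB) hGp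
      (fun i => hsat _ h i)
    have h3 : comb q B - C c * comb p B = comb (fun a => q a - c * p a) B := by
      unfold comb
      rw [Finset.mul_sum, ← Finset.sum_sub_distrib]
      refine Finset.sum_congr rfl fun a _ => ?_
      rw [C_sub, C_mul]
      ring
    rw [h3] at hc
    have h4 := hind _ hc
    have h5 : c = 0 := by
      have := congrFun h4 0
      simp only [hq0, hp0, mul_one, zero_sub, Pi.zero_apply, neg_eq_zero] at this
      exact this
    have h6 := congrFun h4 b
    simp only [hqb, h5, zero_mul, sub_zero, Pi.zero_apply] at h6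
    exact one_ne_zero h6
  obtain ⟨D, hD, f, hf⟩ := exists_TD (Q := P) inferInstance
  have hPQlt : P < Q := lt_of_le_of_ne hPQ fun h => hGp (h ▸ hGQ)
  have hQm : Q < dvm M := dv_lt hQ hQh hXQ
  have hmp : (dvm M).IsPrime := RingHom.ker_isPrime _
  have hQ0 : ¬ TD Q 0 := TD.not_zero hQ hmp hQm
  have hD2 : 2 ≤ D := by
    by_contra h
    exact hQ0 (TD.lt inferInstance hQ hPQlt (TD.mono (by omega) hD))
  obtain ⟨s', rfl⟩ : ∃ s', D = s' + 2 := ⟨D - 2, by omega⟩
  have hI : Homog (P ⊔ Ideal.span {comb p B} ⊔ Ideal.span {comb q B}) :=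
    dv_homog_sup (dv_homog_sup hP (dv_homog_span (comb_isHomogeneous p hB)))
      (dv_homog_span (comb_isHomogeneous q hB))
  obtain ⟨ℓ, hℓ, hXℓ⟩ := exists_linear s' _ hI (by
    intro Q' hQ' hQh' hle
    by_cases hX : ∀ i, X i ∈ Q'
    · exact TD_of_X_mem hX s'
    · push Not at hX
      obtain ⟨i, hi⟩ := hX
      have h7 : Q ≤ Q' := by
        intro q' hq'
        obtain ⟨k, hk⟩ := hsat q' hq' i
        have h8 : X i ^ k * q' ∈ Q' := hle (Ideal.mem_sup_left hk)
        exact (hQ'.mem_or_mem h8).resolve_left fun h9 => hi (hQ'.mem_of_pow_mem _ h9)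
      have h8 : Q < Q' := lt_of_le_of_ne h7 fun h9 => hGq (by
        rw [h9]
        exact hle (Ideal.mem_sup_right (Ideal.subset_span rfl)))
      exact TD.lt hQ hQ' h8 (TD.lt inferInstance hQ hPQlt hD))
  let θ : O →+* L := (j : Omg →+* L).comp O.subtype
  let γ : ℂ →+* O := (algebraMap ℂ Omg).codRestrict O.toSubring fun z => (hπ.const z).choose
  have hγ : ∀ z, θ (γ z) = algebraMap ℂ L z := fun z => j.commutes z
  have hπγ : ∀ z, π (γ z) = z := fun z => (hπ.const z).choose_spec
  have hpT : p = fun a => π (T a) := funext fun a => (hT a).symm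
  have hint : ∀ i, IsIntegral (Subring.closure (Set.range j ∪
      Set.range fun i => aeval y (ℓ i))) (y i) := by
    intro i
    have h3 : ∑ a, θ (T a) * aeval y (B a) = 0 := h1
    have h4 : ∑ a, θ (T' a) * aeval y (B a) = 0 := by
      have h5 : ∀ a, θ (T' a) * aeval y (B a) = j (τ b)⁻¹ * (j (τ a) * aeval y (B a)) := by
        intro a
        change j (τ a / τ b) * _ = _
        rw [div_eq_mul_inv, map_mul]
        ring
      rw [Finset.sum_congr rfl fun a _ => h5 a, ← Finset.mul_sum]
      have h6 : ∑ a, j (τ a) * aeval y (B a) = 0 := h2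
      rw [h6, mul_zero]
    have h5 := naka θ π γ hγ hπγ hP hB (fun g hg => (hyP g).2 hg) h3 h4 hℓ (by
      intro i
      obtain ⟨k, hk⟩ := hXℓ i
      refine ⟨k, ?_⟩
      rw [hpT] at hk
      exact hk) i
    refine dv_integral (Subring.closure_mono ?_) h5
    refine Set.union_subset_union_left _ ?_
    rintro _ ⟨x, rfl⟩
    exact ⟨(x : Omg), rfl⟩
  refine no_independent j (fun i => aeval y (ℓ i)) y hint f ?_
  have h3 : (fun i => aeval y (f i)) = ψ ∘ fun i => Ideal.Quotient.mkₐ ℂ P (f i) :=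
    funext fun i => hy (f i)
  rw [h3]
  exact hf.map' hψ

end Pool.Agent.H5.DG
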