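import Pool.Agent.H5.DG.D2Pt

/-!
# Project DG2: definitions

`p 0, …, p (m - 1)` are distinct points of the curve of the norm form `N`.
-/

open MvPolynomial

noncomputable section

namespace Pool.Agent.H5.DG

/-- Many distinct points of the curve given by `N`. -/
structure Pkg2 {n m : ℕ} (p : Fin m → Fin (n + 2) → ℂ) (κ : ℕ) (N : Polynomial (PV n))
    (φ : PVW n) : Prop where
  data : DGData κ N φ
  del : Del κ N ≠ 0
  hom : ∃ k, (Del κ N).IsHomogeneous k
  mem : ∀ j, p j ∈ Gam N ℂ
  inj : Function.Injective p
  card : (2 * n + 8) * κ < m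

theorem Pkg2.marked {n m κ : ℕ} {p : Fin m → Fin (n + 2) → ℂ} {N : Polynomial (PV n)} {φ : PVW n}
    (h : Pkg2 p κ N φ) : Marked N p (fun _ => 1) Finset.univ where
  ne := fun _ _ => one_ne_zero
  mem := fun j _ => by
    simp only [one_mul]
    exact h.mem j
  inj := by
    intro i _ j _ hij
    simp only [one_mul] at hij
    exact h.inj (funext fun a => congrFun hij a)

end Pool.Agent.H5.DG
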