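import Pool.Agent.H5.DG2.Defs
import Pool.Agent.H5.DG2.EG2A
import Pool.Agent.H5.DG.CovAlg

/-!
# Project DG2, module EG2: closed subvarieties of covers are of log general type, without general position

The proof is that of `EG_core` (module EGenA, which uses only the fields `data`, `hom`, `marked`, `card` and the matrix `M`) and of
`alg_cover` (module EGen), with `M = 1`, `J` = all `j`, `c = 1`.

`alg_cover2_forms`: the forms `comb (p j) F` are, on the subvariety, multiples of the given forms `G (σ j)`; the other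
forms `G i`, `i ∈ O`, may be arbitrary.
-/

open MvPolynomial
open Pool.Agent.H17LG.Variety (FunField ratio)
open Pool.Agent.H17GT (coordFun functionField)
open Pool.Agent.H92.GT (exists_index)
open Pool.Agent.H92.GT.Proj (exists_coordFun_ne_zero proj_point)

noncomputable section

namespace Pool.Agent.H5.DG

/-- The generic point, normalised at a coordinate. -/
private def EG_x {Nn : ℕ} (P : Ideal (MvPolynomial (Fin (Nn + 1)) ℂ)) [P.IsPrime]
    (j₀ : Fin (Nn + 1)) (i : Fin (Nn + 1)) : functionField P := ratio P i j₀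

private theorem EG_x_ratio {Nn : ℕ} (P : Ideal (MvPolynomial (Fin (Nn + 1)) ℂ)) [P.IsPrime]
    {j₀ : Fin (Nn + 1)} (hj₀ : coordFun P j₀ ≠ 0) (j : Fin (Nn + 1)) :
    (fun i => (EG_x P j₀ j)⁻¹ * EG_x P j₀ i) = fun i => ratio P i j := by
  funext i
  rw [← div_eq_inv_mul]
  exact ((EG_point2 P hj₀).1 i j).symm

private theorem EG_onForms {Nn m k : ℕ} (P : Ideal (MvPolynomial (Fin (Nn + 1)) ℂ)) [P.IsPrime]
    {j₀ : Fin (Nn + 1)} (hj₀ : coordFun P j₀ ≠ 0) (O : Finset (Fin m))
    (H : Fin m → MvPolynomial (Fin (Nn + 1)) ℂ)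
    (E : H23.PrimeDivisorOver (functionField P) k) {j : Fin (Nn + 1)} (hj : EG_x P j₀ j ≠ 0)
    (h0 : ∀ i, 0 ≤ E.ord ((EG_x P j₀ j)⁻¹ * EG_x P j₀ i)) {i : Fin m} (hi : i ∈ O)
    (h1 : 0 < E.ord (aeval (fun i => (EG_x P j₀ j)⁻¹ * EG_x P j₀ i) (H i))) :
    OnForms P O H (H23.toFano E) := by
  refine ⟨j, ?_, fun i' => ?_, i, hi, ?_⟩
  · intro h0
    apply hj
    apply Subtype.ext
    show coordFun P j / coordFun P j₀ = 0
    rw [h0, zero_div]
  · have := h0 i'
    rw [congrFun (EG_x_ratio P hj₀ j) i'] at this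
    exact this
  · rw [EG_x_ratio P hj₀ j] at h1
    exact h1

private theorem EG_x_facts {Nn : ℕ} (P : Ideal (MvPolynomial (Fin (Nn + 1)) ℂ)) [P.IsPrime]
    {j₀ : Fin (Nn + 1)} (hj₀ : coordFun P j₀ ≠ 0) :
    EG_x P j₀ j₀ = 1 ∧
      Algebra.IsAlgebraic (IntermediateField.adjoin ℂ (Set.range (EG_x P j₀)))
        (functionField P) ∧
      ∀ (k : ℕ) (G : MvPolynomial (Fin (Nn + 1)) ℂ), G.IsHomogeneous k →
        (aeval (EG_x P j₀) G = 0 ↔ G ∈ P) := by
  obtain ⟨-, hgen, hker⟩ := EG_point2 P hj₀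
  refine ⟨?_, ?_, fun k G hG => hker k G hG⟩
  · apply Subtype.ext
    exact div_self hj₀
  · have hgen' : IntermediateField.adjoin ℂ (Set.range (EG_x P j₀)) = ⊤ := hgen
    rw [hgen']
    exact ⟨fun f => isAlgebraic_algebraMap (⟨f, IntermediateField.mem_top⟩ :
      (⊤ : IntermediateField ℂ (functionField P)))⟩

private theorem EG_prop {n Nn e w : ℕ} (P : Ideal (MvPolynomial (Fin (Nn + 1)) ℂ)) [P.IsPrime]
    (hP : Homog P) {F : Fin (n + 2) → MvPolynomial (Fin (Nn + 1)) ℂ} (hF : BaseFree P e F)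
    {j₀ : Fin (Nn + 1)} (hj₀ : coordFun P j₀ ≠ 0) {z : Fin (w + 1) → functionField P}
    (hz : IsTranscendenceBasis ℂ z) :
    ¬ ∃ (y : Fin (n + 2) → ℂ) (f : functionField P), ∀ a,
      aeval (EG_x P j₀) (F a) = algebraMap ℂ (functionField P) (y a) * f := by
  obtain ⟨a₀, ha₀, halgF⟩ := fun_algebraic P hP hF hj₀
  rintro ⟨y, f, hy⟩
  set V : Fin (n + 2) → functionField P := fun a => aeval (EG_x P j₀) (F a) with hV
  have halg' : Algebra.IsAlgebraic
      (IntermediateField.adjoin ℂ (Set.range fun a => V a / V a₀)) (functionField P) := halgF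
  have hV0 : V a₀ ≠ 0 := ha₀
  have hf0 : f ≠ 0 := by
    rintro rfl
    apply hV0
    rw [hV]
    simp only
    rw [hy a₀, mul_zero]
  have h3 : ∀ a, V a / V a₀ = algebraMap ℂ (functionField P) (y a / y a₀) := by
    intro a
    rw [hV]
    simp only
    rw [hy a, hy a₀, map_div₀, mul_div_mul_right _ _ hf0]
  have h4 : Algebra.IsAlgebraic ℂ (IntermediateField.adjoin ℂ
      (Set.range fun a => V a / V a₀)) := by
    apply IntermediateField.isAlgebraic_adjoin
    rintro _ ⟨a, rfl⟩
    simp only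
    rw [h3 a]
    exact isIntegral_algebraMap
  have h5 : Algebra.IsAlgebraic ℂ (functionField P) :=
    Algebra.IsAlgebraic.trans ℂ (IntermediateField.adjoin ℂ
      (Set.range fun a => V a / V a₀)) (functionField P)
  exact hz.1.transcendental 0 (h5.isAlgebraic _)

private lemma EG_aeval_scale' {K : Type} [Field K] [Algebra ℂ K] {σ : Type} [Fintype σ]
    {G : MvPolynomial σ ℂ} {e : ℕ} (hG : G.IsHomogeneous e) (c : K) (x : σ → K) :
    aeval (fun i => c * x i) G = c ^ e * aeval x G := by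
  rw [aeval_def, aeval_def, eval₂_eq, eval₂_eq, Finset.mul_sum]
  refine Finset.sum_congr rfl fun m hm => ?_
  have h5 : ∑ i ∈ m.support, m i = e := by
    have := hG (mem_support_iff.1 hm)
    rw [Finsupp.weight_apply, Finsupp.sum] at this
    simpa using this
  simp only [mul_pow, Finset.prod_mul_distrib]
  rw [Finset.prod_pow_eq_pow_sum, h5]
  ring

/-- The property `Ram` depends on the form modulo the ideal only. -/
theorem Ram.congr {Nn : ℕ} {I : Ideal (MvPolynomial (Fin (Nn + 1)) ℂ)}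
    {L G : MvPolynomial (Fin (Nn + 1)) ℂ} {c : ℂ} (hc : c ≠ 0) (h : L - C c * G ∈ I)
    (hG : Ram I G) : Ram I L := by
  have hspan : Ideal.span {L} ⊔ I = Ideal.span {G} ⊔ I := by
    have hL : L ∈ Ideal.span {G} ⊔ I := by
      have e : L = C c * G + (L - C c * G) := by ring
      rw [e]
      exact Ideal.add_mem _ (Ideal.mem_sup_left (Ideal.mul_mem_left _ _
        (Ideal.mem_span_singleton_self G))) (Ideal.mem_sup_right h)
    have hG' : G ∈ Ideal.span {L} ⊔ I := by
      have e : G = C c⁻¹ * L + -(C c⁻¹ * (L - C c * G)) := by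
        have h1 : (C c⁻¹ : MvPolynomial (Fin (Nn + 1)) ℂ) * C c = 1 := by
          rw [← C_mul, inv_mul_cancel₀ hc, C_1]
        linear_combination -G * h1
      rw [e]
      exact Ideal.add_mem _ (Ideal.mem_sup_left (Ideal.mul_mem_left _ _
        (Ideal.mem_span_singleton_self L)))
        (Ideal.mem_sup_right (neg_mem (Ideal.mul_mem_left _ _ h)))
    apply le_antisymm
    · exact sup_le ((Ideal.span_singleton_le_iff_mem _).2 hL) le_sup_right
    · exact sup_le ((Ideal.span_singleton_le_iff_mem _).2 hG') le_sup_right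
  intro i
  obtain ⟨k, hk⟩ := hG i
  refine ⟨k, ?_⟩
  rw [hspan]
  have e : X i ^ k * L = C c * (X i ^ k * G) + X i ^ k * (L - C c * G) := by ring
  rw [e]
  exact Ideal.add_mem _ (Ideal.mul_mem_left _ _ hk)
    (Ideal.mem_sup_right (Ideal.mul_mem_left _ _ h))

/-- **Closed subvarieties of covers are of log general type.** -/
theorem alg_cover2_forms {n Nn κ m m' e : ℕ} {p : Fin m → Fin (n + 2) → ℂ} {N : Polynomial (PV n)}
    {φ : PVW n} (h : Pkg2 p κ N φ) {F : Fin (n + 2) → MvPolynomial (Fin (Nn + 1)) ℂ}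
    (P : Ideal (MvPolynomial (Fin (Nn + 1)) ℂ)) [P.IsPrime] (hP : Homog P)
    (hF : BaseFree P e F) {G : Fin m' → MvPolynomial (Fin (Nn + 1)) ℂ} {σ : Fin m → Fin m'}
    {c : Fin m → ℂ} (hc : ∀ j, c j ≠ 0) (hσ : ∀ j, comb (p j) F - C (c j) * G (σ j) ∈ P)
    (O : Finset (Fin m')) (hram : ∀ i ∉ O, Ram P (G i)) (hΔ : aeval F (Del κ N) ∉ P)
    {w : ℕ} (hw : 1 ≤ w) (hz : ∃ z : Fin w → FunField P, IsTranscendenceBasis ℂ z) :
    H17LG.Variety.IsLogGeneralType (K := FunField P) (k := w) (OnForms P O G) := by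
  classical
  have hwn : w ≤ n + 1 := dim_le P hP hF hz
  obtain ⟨k, rfl⟩ : ∃ k, w = k + 1 := ⟨w - 1, by omega⟩
  obtain ⟨z, hz⟩ := hz
  obtain ⟨j₀, hj₀⟩ := exists_coordFun_ne_zero P (k := k) z hz
  obtain ⟨hx1, halg, hker⟩ := EG_x_facts P hj₀
  have hess : Algebra.EssFiniteType ℂ (functionField P) := H17GT.essFiniteType_functionField P
  obtain ⟨I, hI⟩ := exists_index halg (z := z) hz
  have hprop := EG_prop P hP hF hj₀ hI
  refine H17LG.isLogGeneralType_translate (K := functionField P)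
    (B := fun E => OnForms P O G (H23.toFano E)) (fun E => Iff.rfl) ?_
  refine EG2_core (K := functionField P) h P hP hF (Finset.univ.filter fun j => σ j ∈ O)
    (fun j hj => ?_) hΔ hx1 halg hker hprop (by omega) hI _ fun E hE j₁ hj₁ h0 j hjO hpos => ?_
  · have hj' : σ j ∉ O := fun hcon => hj (Finset.mem_filter.2 ⟨Finset.mem_univ _, hcon⟩)
    exact (hram _ hj').congr (hc j) (hσ j)
  · apply hE
    refine EG_onForms P hj₀ O _ E hj₁ h0 (Finset.mem_filter.1 hjO).2 ?_
    -- the form `G (σ j)` has positive order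
    have hyP : aeval (fun i => (EG_x P j₀ j₁)⁻¹ * EG_x P j₀ i)
        (comb (p j) F - C (c j) * G (σ j)) = 0 := by
      rw [← MvPolynomial.sum_homogeneousComponent (comb (p j) F - C (c j) * G (σ j)), map_sum]
      refine Finset.sum_eq_zero fun t _ => ?_
      have h1 := (hker t _ (homogeneousComponent_isHomogeneous t _)).mpr (hP _ (hσ j) t)
      rw [EG_aeval_scale' (homogeneousComponent_isHomogeneous t _), h1, mul_zero]
    rw [map_sub, map_mul, aeval_C, sub_eq_zero] at hyP
    rw [hyP, E.ord.map_mul, H92.GT.val_const E.ord_const (hc j), zero_add] at hpos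
    exact hpos

/-- **Closed subvarieties of covers are of log general type.** -/
theorem alg_cover2 {n Nn κ m e : ℕ} {p : Fin m → Fin (n + 2) → ℂ} {N : Polynomial (PV n)}
    {φ : PVW n} (h : Pkg2 p κ N φ) {F : Fin (n + 2) → MvPolynomial (Fin (Nn + 1)) ℂ}
    (P : Ideal (MvPolynomial (Fin (Nn + 1)) ℂ)) [P.IsPrime] (hP : Homog P)
    (hF : BaseFree P e F) (O : Finset (Fin m)) (hram : ∀ j ∉ O, Ram P (comb (p j) F))
    (hΔ : aeval F (Del κ N) ∉ P) {w : ℕ} (hw : 1 ≤ w)
    (hz : ∃ z : Fin w → FunField P, IsTranscendenceBasis ℂ z) :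
    H17LG.Variety.IsLogGeneralType (K := FunField P) (k := w)
      (OnForms P O fun j => comb (p j) F) :=
  alg_cover2_forms h P hP hF (G := fun j => comb (p j) F) (σ := id) (c := fun _ => 1)
    (fun _ => one_ne_zero) (fun j => by
      simp only [C_1, one_mul, id, sub_self]
      exact P.zero_mem) O hram hΔ hw hz

end Pool.Agent.H5.DG
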