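import Pool.Agent.H5.DG2.Core2
import Pool.Agent.H5.DG.OrbDefs
import Pool.Agent.H62.FC.PunctMero
import Pool.Agent.H62.FC.Extend

/-!
# Project DG2, module Orb2: maps to projective space with multiplicities, without general position

The proof is that of `picard_orb` (module `Pool.Agent.H5.DG.D3Orb`) with the coordinate `a₀ ∈ nzSet f` instead of `l i₀`:
`g a z = (f z).rep a / (f z).rep a₀`; `core_analytic2` instead of `core_analytic`.  With a local lift `ψ` at `s`: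
`ordZ (g a) s = ord (ψ a) - ord (ψ a₀)` and `μ = - ord (ψ a₀)` since some coordinate `ψ a` does not vanish at `s`;
`ordZ (lin (p j) g) s = ord (p j . ψ) - ord (ψ a₀)`, so the multiplicity hypothesis is `MeetsWithMult 2 (p j) f`.
-/

open MvPolynomial Filter Topology
open Pool.Agent.H62.FC (MeroPunct PunctMero)
open Pool.Agent.H92.GGL (ordZ)
open Pool.Agent.H17 (PN VanishesAt HolomorphicInto puncturedDisc)

noncomputable section

namespace Pool.Agent.H5.DG

private def O2_LF {r : ℕ} (v : Fin r → ℂ) : MvPolynomial (Fin r) ℂ := ∑ a, C (v a) * X a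

private theorem O2_hom {r : ℕ} (v : Fin r → ℂ) : (O2_LF v).IsHomogeneous 1 := by
  refine IsHomogeneous.sum _ _ _ fun a _ => ?_
  have h1 := (isHomogeneous_C (Fin r) (v a)).mul (isHomogeneous_X ℂ a)
  rwa [zero_add] at h1

private theorem O2_eval {r : ℕ} (v x : Fin r → ℂ) : eval x (O2_LF v) = dot v x := by
  unfold O2_LF dot
  rw [map_sum]
  exact Finset.sum_congr rfl fun a _ => by rw [map_mul, eval_C, eval_X]

private theorem O2_dot_smul {r : ℕ} (v x : Fin r → ℂ) (c : ℂ) :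
    dot v (fun a => c * x a) = c * dot v x := by
  unfold dot
  rw [Finset.mul_sum]
  exact Finset.sum_congr rfl fun a _ => by ring

private theorem O2_rep {r : ℕ} {f : ℂ → PN r} {s : ℂ} {ψ : ℂ → Fin (r + 1) → ℂ}
    (he : ∀ᶠ z in 𝓝 s, ∃ h : ψ z ≠ 0, f z = Projectivization.mk ℂ (ψ z) h) :
    ∀ᶠ z in 𝓝 s, ∃ c : ℂ, c ≠ 0 ∧ ∀ i, (f z).rep i = c * ψ z i := by
  filter_upwards [he] with z hz
  obtain ⟨h1, h2⟩ := hz
  obtain ⟨a, ha, h3⟩ := Pool.Agent.H17.exists_smul_rep (ψ z) h1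
  refine ⟨a, ha, fun i => ?_⟩
  rw [h2, h3]
  rfl

private theorem O2_ord_ge {Λ : ℂ → ℂ} {s : ℂ} (hΛ : AnalyticAt ℂ Λ s)
    (hne : meromorphicOrderAt Λ s ≠ ⊤) {k : ℕ} (hk : (k : ℕ∞) ≤ analyticOrderAt Λ s) :
    (k : ℤ) ≤ ordZ Λ s := by
  have h1 := hΛ.meromorphicOrderAt_eq
  have h2 := Pool.Agent.H92.GGL.ordZ_cast hne
  cases h3 : analyticOrderAt Λ s with
  | top =>
    rw [h3] at h1
    exact absurd h1 hne
  | coe n =>
    rw [h3] at h1 hk
    have h4 : ((ordZ Λ s : ℤ) : WithTop ℤ) = ((n : ℤ) : WithTop ℤ) := by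
      rw [h2, h1]
      rfl
    have h5 : ordZ Λ s = n := WithTop.coe_injective h4
    have h6 : k ≤ n := by exact_mod_cast hk
    rw [h5]
    exact_mod_cast h6

private theorem O2_dot_analytic {r : ℕ} {ψ : ℂ → Fin r → ℂ} {s : ℂ} (hψ : AnalyticAt ℂ ψ s)
    (v : Fin r → ℂ) : AnalyticAt ℂ (fun z => dot v (ψ z)) s := by
  unfold dot
  refine Finset.analyticAt_fun_sum _ fun a _ => ?_
  exact analyticAt_const.mul (analyticAt_pi_iff.mp hψ a)

private theorem O2_scale {r k : ℕ} {P : MvPolynomial (Fin r) ℂ} (hP : P.IsHomogeneous k)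
    (c : ℂ) (x : Fin r → ℂ) : eval (fun a => c * x a) P = c ^ k * eval x P := by
  rw [eval_eq, eval_eq, Finset.mul_sum]
  refine Finset.sum_congr rfl fun d hd => ?_
  have h1 : ∑ i, d i = k := by
    have h2 := hP (mem_support_iff.1 hd)
    rw [Finsupp.weight_apply, Finsupp.sum_fintype _ _ (by simp)] at h2
    rw [← h2]
    simp
  have h3 : ∀ y : Fin r → ℂ, ∏ i ∈ d.support, y i ^ d i = ∏ i, y i ^ d i := by
    intro y
    refine Finset.prod_subset (Finset.subset_univ _) fun i _ hi => ?_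
    rw [Finsupp.notMem_support_iff.1 hi, pow_zero]
  rw [h3, h3]
  simp only [mul_pow]
  rw [Finset.prod_mul_distrib, Finset.prod_pow_eq_pow_sum, h1]
  ring

/-- **Picard's theorem** for maps with multiplicities over many points of the curve. -/
theorem picard_orb2 {n m κ : ℕ} {p : Fin m → Fin (n + 2) → ℂ} {N : Polynomial (PV n)} {φ : PVW n}
    (h : Pkg2 p κ N φ) : OrbExt 2 p (Del κ N) := by
  classical
  intro f hf hm hne
  have hmem : ∀ z : ℂ, 0 < ‖z‖ → ‖z‖ < 1 → z ∈ puncturedDisc := fun z h1 h2 =>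
    mem_puncturedDisc.mpr ⟨h1, h2⟩
  -- the values of the linear forms
  obtain ⟨Lf, hLf⟩ : ∃ Lf : Fin m → ℂ → ℂ, ∀ i z, Lf i z = dot (p i) (f z).rep :=
    ⟨fun i z => dot (p i) (f z).rep, fun _ _ => rfl⟩
  have hvan : ∀ i z, VanishesAt (O2_LF (p i)) (f z) ↔ Lf i z = 0 := by
    intro i z
    unfold VanishesAt
    rw [O2_eval, hLf]
  have hdich0 : ∀ i, (∀ s ∈ puncturedDisc, ∀ᶠ z in 𝓝 s, Lf i z = 0) ∨
      (∀ s ∈ puncturedDisc, ∀ᶠ z in 𝓝[≠] s, Lf i z ≠ 0) := by
    intro i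
    rcases vanish_dich hf (O2_hom (p i)) with h1 | h1
    · left
      intro s hs
      filter_upwards [h1 s hs] with z hz
      exact (hvan i z).1 hz
    · right
      intro s hs
      filter_upwards [h1 s hs] with z hz hz'
      exact hz ((hvan i z).2 hz')
  have hhalf : (1 / 2 : ℂ) ∈ puncturedDisc := by
    refine hmem _ ?_ ?_
    · norm_num
    · norm_num
  obtain ⟨a₀, ha₀⟩ : ∃ a₀, a₀ ∈ nzSet f := by
    by_contra hcon
    push Not at hcon
    exact (f (1 / 2)).rep_nonzero (funext fun a => nz_notMem hf (hcon a) hhalf)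
  have hi₀ : ∀ s ∈ puncturedDisc, ∀ᶠ z in 𝓝[≠] s, (f z).rep a₀ ≠ 0 := fun s hs => nz_mem ha₀ hs
  obtain ⟨g, hg⟩ : ∃ g : Fin (n + 2) → ℂ → ℂ, ∀ a z, g a z = (f z).rep a / (f z).rep a₀ :=
    ⟨fun a z => (f z).rep a / (f z).rep a₀, fun _ _ => rfl⟩
  have hlin : ∀ i z, lin (p i) g z = Lf i z / (f z).rep a₀ := by
    intro i z
    unfold lin
    have h1 : (fun a => g a z) = fun a => ((f z).rep a₀)⁻¹ * (f z).rep a := by
      funext a
      rw [hg, div_eq_inv_mul]
    rw [h1, O2_dot_smul, ← hLf, div_eq_inv_mul]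
  -- local lifts
  have hloc : ∀ {s : ℂ} {ψ : ℂ → Fin (n + 2) → ℂ},
      (∀ᶠ z in 𝓝 s, ∃ h : ψ z ≠ 0, f z = Projectivization.mk ℂ (ψ z) h) →
      ∀ᶠ z in 𝓝 s, ∃ c : ℂ, c ≠ 0 ∧ (∀ a, (f z).rep a = c * ψ z a) ∧
        ∀ i, Lf i z = c * dot (p i) (ψ z) := by
    intro s ψ he
    filter_upwards [O2_rep he] with z hz
    obtain ⟨c, hc, h2⟩ := hz
    refine ⟨c, hc, h2, fun i => ?_⟩
    rw [hLf, ← O2_dot_smul]
    congr 1
    funext a
    exact h2 a
  have hgm : ∀ a z, 0 < ‖z‖ → ‖z‖ < 1 → MeromorphicAt (g a) z := by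
    intro a z h1 h2
    refine (quot_mero hf a a₀ (hmem z h1 h2)).congr (Eventually.of_forall fun w => ?_)
    exact (hg a w).symm
  have hlm : ∀ i z, 0 < ‖z‖ → ‖z‖ < 1 → MeromorphicAt (lin (p i) g) z := by
    intro i z h1 h2
    obtain ⟨ψ, hψ, he⟩ := hf z (hmem z h1 h2)
    have h3 : MeromorphicAt (fun w => dot (p i) (ψ w) / ψ w a₀) z :=
      (O2_dot_analytic hψ (p i)).meromorphicAt.fun_div
        (analyticAt_pi_iff.mp hψ a₀).meromorphicAt
    refine h3.congr ?_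
    filter_upwards [(hloc he).filter_mono nhdsWithin_le_nhds] with w hw
    obtain ⟨c, hc, h4, h5⟩ := hw
    rw [hlin, h4, h5, mul_div_mul_left _ _ hc]
  have hcoord0 : ∀ a, a ∈ nzSet f → MeroPunct 1 (g a) := by
    intro a ha
    refine ⟨hgm a, fun z h1 h2 => ?_⟩
    rw [meromorphicOrderAt_ne_top_iff_eventually_ne_zero (hgm a z h1 h2)]
    filter_upwards [nz_mem ha (hmem z h1 h2), hi₀ z (hmem z h1 h2)] with w h3 h4
    rw [hg]
    exact div_ne_zero h3 h4
  have hcoord : ∀ a, MeroPunct 1 (g a) ∨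
      ∀ z, 0 < ‖z‖ → ‖z‖ < 1 → ∀ᶠ ζ in 𝓝[≠] z, g a ζ = 0 := by
    intro a
    by_cases ha : a ∈ nzSet f
    · exact Or.inl (hcoord0 a ha)
    · right
      intro z h1 h2
      filter_upwards [eventually_mem_puncturedDisc (hmem z h1 h2)] with ζ hζ
      rw [hg, nz_notMem hf ha hζ, zero_div]
  have hmp : ∀ i, (∀ s ∈ puncturedDisc, ∀ᶠ z in 𝓝[≠] s, Lf i z ≠ 0) →
      MeroPunct 1 (lin (p i) g) := by
    intro i hi
    refine ⟨hlm i, fun z h1 h2 => ?_⟩
    rw [meromorphicOrderAt_ne_top_iff_eventually_ne_zero (hlm i z h1 h2)]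
    filter_upwards [hi z (hmem z h1 h2), hi₀ z (hmem z h1 h2)] with w h3 h4
    rw [hlin]
    exact div_ne_zero h3 h4
  have hdich : ∀ i, MeroPunct 1 (lin (p i) g) ∨
      ∀ z, 0 < ‖z‖ → ‖z‖ < 1 → ∀ᶠ ζ in 𝓝[≠] z, lin (p i) g ζ = 0 := by
    intro i
    rcases hdich0 i with h1 | h1
    · right
      intro z h2 h3
      filter_upwards [(h1 z (hmem z h2 h3)).filter_mono nhdsWithin_le_nhds] with w hw
      rw [hlin, hw, zero_div]
    · left
      exact hmp i h1
  have hone : ∀ z, 0 < ‖z‖ → ‖z‖ < 1 → ∀ᶠ ζ in 𝓝[≠] z, g a₀ ζ = 1 := by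
    intro z h1 h2
    filter_upwards [hi₀ z (hmem z h1 h2)] with w hw
    rw [hg, div_self hw]
  have hΔ : ∀ z, 0 < ‖z‖ → ‖z‖ < 1 →
      ∀ᶠ ζ in 𝓝[≠] z, MvPolynomial.eval (fun a => g a ζ) (Del κ N) ≠ 0 := by
    intro z h1 h2
    obtain ⟨k, hk⟩ := h.hom
    obtain ⟨z₁, hz₁, hz₁'⟩ := hne
    have h3 : ∀ᶠ ζ in 𝓝[≠] z, ¬ VanishesAt (Del κ N) (f ζ) := by
      rcases vanish_dich hf hk with h4 | h4
      · exact absurd (h4 z₁ hz₁).self_of_nhds hz₁'
      · exact h4 z (hmem z h1 h2)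
    filter_upwards [h3, hi₀ z (hmem z h1 h2)] with ζ h5 h6
    have h7 : (fun a => g a ζ) = fun a => ((f ζ).rep a₀)⁻¹ * (f ζ).rep a := by
      funext a
      rw [hg, div_eq_inv_mul]
    have h8 : eval (fun a => ((f ζ).rep a₀)⁻¹ * (f ζ).rep a) (Del κ N) =
        ((f ζ).rep a₀)⁻¹ ^ k * eval (f ζ).rep (Del κ N) := O2_scale hk _ _
    rw [h7, h8]
    exact mul_ne_zero (pow_ne_zero _ (inv_ne_zero h6)) h5
  have hmult : ∀ j, MeroPunct 1 (lin (p j) g) → ∀ s, 0 < ‖s‖ → ‖s‖ < 1 → ∀ μ : ℤ,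
      (∀ a, MeroPunct 1 (g a) → μ ≤ ordZ (g a) s) →
      (∃ a, MeroPunct 1 (g a) ∧ ordZ (g a) s = μ) →
      ordZ (lin (p j) g) s = μ ∨ μ + 2 ≤ ordZ (lin (p j) g) s := by
    intro j hj s hs1 hs2 μ hμ1 hμ2
    have hs := hmem s hs1 hs2
    obtain ⟨ψ, hψ, he, hord⟩ := hm j s hs
    have hΛ : ∀ i, AnalyticAt ℂ (fun z => dot (p i) (ψ z)) s := fun i =>
      O2_dot_analytic hψ (p i)
    have hΨ : ∀ a, AnalyticAt ℂ (fun z => ψ z a) s := fun a => analyticAt_pi_iff.mp hψ a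
    have hlocs := hloc he
    -- the orders of the coordinates
    have hfinc : ∀ a, MeroPunct 1 (g a) → meromorphicOrderAt (fun z => ψ z a) s ≠ ⊤ := by
      intro a ha
      rw [meromorphicOrderAt_ne_top_iff_eventually_ne_zero (hΨ a).meromorphicAt]
      have h1 := (meromorphicOrderAt_ne_top_iff_eventually_ne_zero (ha.mero s hs1 hs2)).1
        (ha.ord s hs1 hs2)
      filter_upwards [h1, hlocs.filter_mono nhdsWithin_le_nhds] with z h2 h3 h4
      obtain ⟨c, hc, h5, h6⟩ := h3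
      apply h2
      rw [hg, h5 a, h4, mul_zero, zero_div]
    have hfin0 := hfinc a₀ (hcoord0 a₀ ha₀)
    have hordc : ∀ a, MeroPunct 1 (g a) → ordZ (g a) s =
        ordZ (fun z => ψ z a) s - ordZ (fun z => ψ z a₀) s := by
      intro a ha
      have h1 : (fun z => ψ z a) =ᶠ[𝓝[≠] s] (fun z => g a z * ψ z a₀) := by
        filter_upwards [hlocs.filter_mono nhdsWithin_le_nhds, hi₀ s hs] with z hz h3
        obtain ⟨c, hc, h5, h6⟩ := hz
        rw [hg, h5 a, h5 a₀, mul_div_mul_left _ _ hc, div_mul_cancel₀]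
        intro h7
        apply h3
        rw [h5 a₀, h7, mul_zero]
      have h2 := meromorphicOrderAt_congr h1
      have h3 : meromorphicOrderAt (fun z => g a z * ψ z a₀) s =
          meromorphicOrderAt (g a) s + meromorphicOrderAt (fun z => ψ z a₀) s :=
        fun_meromorphicOrderAt_mul (ha.mero s hs1 hs2) (hΨ a₀).meromorphicAt
      rw [h3, ← Pool.Agent.H92.GGL.ordZ_cast (hfinc a ha),
        ← Pool.Agent.H92.GGL.ordZ_cast hfin0,
        ← Pool.Agent.H92.GGL.ordZ_cast (ha.ord s hs1 hs2)] at h2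
      have h4 : ordZ (fun z => ψ z a) s = ordZ (g a) s + ordZ (fun z => ψ z a₀) s := by
        exact_mod_cast h2
      linarith
    have hnnc : ∀ a, MeroPunct 1 (g a) → 0 ≤ ordZ (fun z => ψ z a) s := by
      intro a ha
      have := O2_ord_ge (k := 0) (hΨ a) (hfinc a ha) (by simp)
      exact_mod_cast this
    -- the order of the form
    have hfin : meromorphicOrderAt (fun z => dot (p j) (ψ z)) s ≠ ⊤ := by
      rw [meromorphicOrderAt_ne_top_iff_eventually_ne_zero (hΛ j).meromorphicAt]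
      have h1 := (meromorphicOrderAt_ne_top_iff_eventually_ne_zero (hj.mero s hs1 hs2)).1
        (hj.ord s hs1 hs2)
      filter_upwards [h1, hlocs.filter_mono nhdsWithin_le_nhds] with z h2 h3 h4
      obtain ⟨c, hc, h5, h6⟩ := h3
      apply h2
      rw [hlin, h6 j, h4, mul_zero, zero_div]
    have hordj : ordZ (lin (p j) g) s =
        ordZ (fun z => dot (p j) (ψ z)) s - ordZ (fun z => ψ z a₀) s := by
      have h1 : (fun z => dot (p j) (ψ z)) =ᶠ[𝓝[≠] s]
          (fun z => lin (p j) g z * ψ z a₀) := by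
        filter_upwards [hlocs.filter_mono nhdsWithin_le_nhds, hi₀ s hs] with z hz h3
        obtain ⟨c, hc, h5, h6⟩ := hz
        rw [hlin, h6 j, h5 a₀, mul_div_mul_left _ _ hc, div_mul_cancel₀]
        intro h7
        apply h3
        rw [h5 a₀, h7, mul_zero]
      have h2 := meromorphicOrderAt_congr h1
      have h3 : meromorphicOrderAt (fun z => lin (p j) g z * ψ z a₀) s =
          meromorphicOrderAt (lin (p j) g) s + meromorphicOrderAt (fun z => ψ z a₀) s :=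
        fun_meromorphicOrderAt_mul (hj.mero s hs1 hs2) (hΨ a₀).meromorphicAt
      rw [h3, ← Pool.Agent.H92.GGL.ordZ_cast hfin,
        ← Pool.Agent.H92.GGL.ordZ_cast hfin0,
        ← Pool.Agent.H92.GGL.ordZ_cast (hj.ord s hs1 hs2)] at h2
      have h4 : ordZ (fun z => dot (p j) (ψ z)) s =
          ordZ (lin (p j) g) s + ordZ (fun z => ψ z a₀) s := by
        exact_mod_cast h2
      linarith
    -- a coordinate which does not vanish at `s`
    obtain ⟨a₁, ha₁⟩ : ∃ a₁, ψ s a₁ ≠ 0 := by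
      by_contra hcon
      push Not at hcon
      obtain ⟨h1, -⟩ := he.self_of_nhds
      exact h1 (funext hcon)
    have ha₁m : MeroPunct 1 (g a₁) := by
      by_cases h1 : a₁ ∈ nzSet f
      · exact hcoord0 a₁ h1
      · exfalso
        obtain ⟨c, hc, h5, h6⟩ := hlocs.self_of_nhds
        have h7 := nz_notMem hf h1 hs
        rw [h5] at h7
        exact mul_ne_zero hc ha₁ h7
    have h1 := hμ1 a₁ ha₁m
    rw [hordc a₁ ha₁m, ord_eq_zero_of_ne (hΨ a₁) ha₁] at h1
    obtain ⟨a₂, ha₂m, ha₂⟩ := hμ2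
    have h2 := hnnc a₂ ha₂m
    rw [hordc a₂ ha₂m] at ha₂
    have hμ : μ = - ordZ (fun z => ψ z a₀) s := by linarith
    rw [hordj, hμ]
    by_cases hjs : dot (p j) (ψ s) = 0
    · right
      have h3 := hord hjs
      have h4 := O2_ord_ge (k := 2) (hΛ j) hfin (by exact_mod_cast h3)
      push_cast at h4
      linarith
    · left
      rw [ord_eq_zero_of_ne (hΛ j) hjs]
      ring
  have hcore := core_analytic2 h one_pos hgm hΔ hcoord hdich hone hmult
  refine Pool.Agent.H62.FC.exists_extension hf (i₀ := a₀) ?_ ?_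
  · filter_upwards [eventually_puncturedDisc_zero] with z hz
    exact nz_mem ha₀ hz
  · intro a
    refine (hcore a).congr (Eventually.of_forall fun z => Eventually.of_forall fun w => ?_)
    exact hg a w

end Pool.Agent.H5.DG
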