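import Pool.Agent.H5.DG2.VPack
import Pool.Agent.H5.DG2.BaseY
import Pool.Agent.H5.DG2.Orb2
import Pool.Agent.H5.DG2.EG2
import Pool.Agent.H5.DG2.DelV
import Pool.Agent.H5.DG.SecMain

/-!
# Project DG2, module Main2: the main theorem on hypersurface sections
-/

open MvPolynomial
open Pool.Agent.H17 (PN VanishesAt)

noncomputable section

namespace Pool.Agent.H5.DG

/-- The package gives the statements on hyperplanes. -/
theorem Pkg2.linearPart {n m κ : ℕ} {p : Fin m → Fin (n + 2) → ℂ} {N : Polynomial (PV n)}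
    {φ : PVW n} (h : Pkg2 p κ N φ) : LinearPart 2 p (Del κ N) where
  orb := picard_orb2 h
  alg := by
    intro N' e Q _ F O hQ hF hram hΔ w hw hz
    exact alg_cover2 h Q hQ hF O hram hΔ hw hz

/-- At most `k` of the forms `G j` vanish at any point of the variety given by `P`. -/
def AtMostThrough (k : ℕ) {m M : ℕ} (P : Ideal (MvPolynomial (Fin (M + 1)) ℂ))
    (G : Fin m → MvPolynomial (Fin (M + 1)) ℂ) : Prop :=
  ∀ x ∈ variety P, {j | VanishesAt (G j) x}.ncard ≤ k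

/-- **The main theorem on hypersurface sections.** -/
theorem main_sections (M δ k : ℕ) : ∃ N₀ : ℕ, ∀ (m : ℕ)
    (P : Ideal (MvPolynomial (Fin (M + 1)) ℂ)) [P.IsPrime]
    (G : Fin m → MvPolynomial (Fin (M + 1)) ℂ), N₀ ≤ m → Homog P →
    (∀ j, ∃ e, 1 ≤ e ∧ e ≤ δ ∧ (G j).IsHomogeneous e) →
    (∀ i j, i ≠ j → ∀ c : ℂ, G i - C c * G j ∉ P) → (∀ j, IntegralSection P (G j)) →
    AtMostThrough k P G →
    ∃ (d : ℕ) (Δ : MvPolynomial (Fin (M + 1)) ℂ), Δ ∉ P ∧ Δ.IsHomogeneous d ∧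
      SectionTheorem 2 P G Δ := by
  obtain ⟨N₀, hN₀⟩ := vpack M δ k
  refine ⟨N₀, fun m P _ G hm hP hdeg hne hint hthr => ?_⟩
  obtain ⟨e, n, m', κ, ι, N, φ, p, c, B, he, hι, hpkg, hm', hB, hind, hc⟩ :=
    hN₀ P m G hm hdeg hne
  have hGh : ∀ j, ∃ d, (G j).IsHomogeneous d := fun j => by
    obtain ⟨d, -, -, hd⟩ := hdeg j
    exact ⟨d, hd⟩
  have hbase : BaseFree P e B := by
    refine baseFree_of_few he hB (fun y hy hyP => ?_) hι hm' hc
    have h1 := hthr (Projectivization.mk ℂ y hy) (fun Q hQ d hd => by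
      rw [Pool.Agent.H17.vanishesAt_mk_iff hd]
      exact hyP Q hQ)
    refine le_trans (le_of_eq ?_) h1
    congr 1
    ext j
    obtain ⟨d, hd⟩ := hGh j
    simp only [Set.mem_ofPred_eq]
    rw [Pool.Agent.H17.vanishesAt_mk_iff hd]
  obtain ⟨d, hd⟩ := hpkg.hom
  have hj : 0 < m' := by omega
  have hdel : aeval B (Del κ N) ∉ P :=
    del_notMem hpkg.data.pos hpkg.data.norm P hP he hB hind (hpkg.mem ⟨0, hj⟩)
      ((hint _).congr (hc ⟨0, hj⟩).1 (hc ⟨0, hj⟩).2)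
  exact ⟨e * d, aeval B (Del κ N), hdel, hd.aeval _ hB,
    SectionTheorem.of_linear hP hbase hGh hd hpkg.linearPart (fun j => (hc j).1)
      (fun j => (hc j).2) hdel⟩

end Pool.Agent.H5.DG
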