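import Pool.Agent.H5.DG.CoverDefs

/-!
# Project DG2, module TrLt: transcendence degrees of quotients by prime ideals

`TD.lt`: let `f : Fin (s + 1) → R` be independent modulo `Q₂`; then it is independent modulo `Q₁`.  Take `b ∈ Q₂`, `b ∉ Q₁`.  If
`Fin.snoc f b` were dependent modulo `Q₁`, `b` would be algebraic over `ℂ(f)` modulo `Q₁`: a relation `∑ i, c_i (f) b ^ i ∈ Q₁` with
`c_0 (f) ∉ Q₁` (divide by a power of `b ∉ Q₁`); modulo `Q₂` it gives `c_0 (f) ∈ Q₂`, so `c_0 = 0`, a contradiction.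
`TD.not_zero`: take `b ∈ Q₂ \ Q₁`; modulo `Q₁` it is algebraic over `ℂ`, so `b ≡ c`, `c ∈ ℂ` (`Q₁` prime, `ℂ` algebraically closed); `c ∈ Q₂`,
so `c = 0`, `b ∈ Q₁`.
`exists_TD`: `D = ` the largest number of elements independent modulo `Q` (at most the number of variables, since the images of the
variables generate the quotient: transcendence degree).
-/

open MvPolynomial

noncomputable section

namespace Pool.Agent.H5.DG

variable {σ : Type} [Finite σ]

/-- The transcendence degree of the quotient by `Q` is at most `s`. -/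
def TD (Q : Ideal (MvPolynomial σ ℂ)) (s : ℕ) : Prop :=
  ∀ f : Fin (s + 1) → MvPolynomial σ ℂ,
    ¬ AlgebraicIndependent ℂ fun i => Ideal.Quotient.mkₐ ℂ Q (f i)

/-- A nonzero element of a domain which lies in the kernel of a surjection is transcendental over
every family which stays independent. -/
private theorem TrLt_transc {A B ι : Type} [CommRing A] [CommRing B] [IsDomain A] [Algebra ℂ A]
    [Algebra ℂ B] (π : A →ₐ[ℂ] B) {x : ι → A}
    (hx : AlgebraicIndependent ℂ fun i => π (x i)) {b : A} (hb : b ≠ 0) (hπ : π b = 0) :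
    Transcendental (Algebra.adjoin ℂ (Set.range x)) b := by
  intro halg
  obtain ⟨⟨r, hr⟩, hr0, hdvd⟩ := halg.exists_nonzero_dvd (mem_nonZeroDivisors_of_ne_zero hb)
  rw [Algebra.adjoin_range_eq_range_aeval] at hr
  obtain ⟨P, rfl⟩ := hr
  obtain ⟨c, hc⟩ := hdvd
  have h1 : aeval x P = b * c := hc
  have h2 : aeval (fun i => π (x i)) P = 0 := by
    have h3 := congrArg π h1
    rw [map_mul, hπ, zero_mul] at h3
    rw [← h3]
    exact (comp_aeval_apply (f := x) π P).symm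
  have h4 : P = 0 := hx.eq_zero_of_aeval_eq_zero P h2
  apply hr0
  apply Subtype.ext
  show aeval x P = 0
  rw [h4, map_zero]

theorem TD.lt {Q₁ Q₂ : Ideal (MvPolynomial σ ℂ)} (h₁ : Q₁.IsPrime) (h₂ : Q₂.IsPrime)
    (hlt : Q₁ < Q₂) {s : ℕ} (h : TD Q₁ (s + 1)) : TD Q₂ s := by
  intro f hf
  obtain ⟨b, hb2, hb1⟩ := Set.exists_of_ssubset hlt
  have hb0 : Ideal.Quotient.mkₐ ℂ Q₁ b ≠ 0 := fun h0 => hb1 (Ideal.Quotient.eq_zero_iff_mem.1 h0)
  let π : (MvPolynomial σ ℂ ⧸ Q₁) →ₐ[ℂ] (MvPolynomial σ ℂ ⧸ Q₂) :=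
    Ideal.Quotient.factorₐ ℂ hlt.le
  have hπb : π (Ideal.Quotient.mkₐ ℂ Q₁ b) = 0 := Ideal.Quotient.eq_zero_iff_mem.2 hb2
  have hf2 : AlgebraicIndependent ℂ fun i => π (Ideal.Quotient.mkₐ ℂ Q₁ (f i)) := hf
  have hf1 : AlgebraicIndependent ℂ fun i => Ideal.Quotient.mkₐ ℂ Q₁ (f i) :=
    AlgebraicIndependent.of_comp π hf2
  have ht := TrLt_transc π hf2 hb0 hπb
  have ho := (hf1.option_iff_transcendental _).2 ht
  refine h (fun i => ((finSuccEquivLast i).elim b f)) ?_
  have he := (algebraicIndependent_equiv (R := ℂ) (finSuccEquivLast (n := s + 1))).2 ho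
  convert he using 1
  funext i
  simp only [Function.comp_apply]
  cases finSuccEquivLast i <;> rfl

theorem TD.not_zero {Q₁ Q₂ : Ideal (MvPolynomial σ ℂ)} (h₁ : Q₁.IsPrime) (h₂ : Q₂.IsPrime)
    (hlt : Q₁ < Q₂) : ¬ TD Q₁ 0 := by
  intro h
  obtain ⟨b, hb2, hb1⟩ := Set.exists_of_ssubset hlt
  have hb0 : Ideal.Quotient.mkₐ ℂ Q₁ b ≠ 0 := fun h0 => hb1 (Ideal.Quotient.eq_zero_iff_mem.1 h0)
  refine h (fun _ => b) ?_
  show AlgebraicIndependent ℂ fun _ : Fin 1 => Ideal.Quotient.mkₐ ℂ Q₁ b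
  rw [algebraicIndependent_unique_type_iff]
  intro halg
  obtain ⟨r, hr0, c, hc⟩ := halg.exists_nonzero_dvd (mem_nonZeroDivisors_of_ne_zero hb0)
  obtain ⟨c, rfl⟩ := Ideal.Quotient.mkₐ_surjective ℂ Q₁ c
  have h1 : C r - b * c ∈ Q₁ := by
    rw [← Ideal.Quotient.eq_zero_iff_mem, map_sub, map_mul, sub_eq_zero]
    exact hc
  have h2 : C r ∈ Q₂ := by
    have h3 : C r = (C r - b * c) + b * c := by ring
    rw [h3]
    exact Q₂.add_mem (hlt.le h1) (Q₂.mul_mem_right _ hb2)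
  apply h₂.ne_top
  rw [Ideal.eq_top_iff_one]
  have h3 : (1 : MvPolynomial σ ℂ) = C r⁻¹ * C r := by
    rw [← C_mul, inv_mul_cancel₀ hr0, C_1]
  rw [h3]
  exact Q₂.mul_mem_left _ h2

theorem TD.mono {Q : Ideal (MvPolynomial σ ℂ)} {s s' : ℕ} (hs : s ≤ s') (h : TD Q s) :
    TD Q s' := by
  intro f hf
  refine h (fun i => f (Fin.castLE (by omega) i)) ?_
  exact hf.comp (Fin.castLE (by omega : s + 1 ≤ s' + 1)) (Fin.castLE_injective _)

/-- The transcendence degree. -/
theorem exists_TD {Q : Ideal (MvPolynomial σ ℂ)} (hQ : Q.IsPrime) : ∃ D : ℕ,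
    TD Q D ∧ ∃ f : Fin D → MvPolynomial σ ℂ,
      AlgebraicIndependent ℂ fun i => Ideal.Quotient.mkₐ ℂ Q (f i) := by
  have hfin : Algebra.trdeg ℂ (MvPolynomial σ ℂ ⧸ Q) < Cardinal.aleph0 :=
    trdeg_lt_aleph0_of_finiteType
  obtain ⟨D, hD⟩ := Cardinal.lt_aleph0.1 hfin
  have hinj : Function.Injective (algebraMap ℂ (MvPolynomial σ ℂ ⧸ Q)) := RingHom.injective _
  have : FaithfulSMul ℂ (MvPolynomial σ ℂ ⧸ Q) := (faithfulSMul_iff_algebraMap_injective _ _).2 hinj
  obtain ⟨s, hs⟩ := exists_isTranscendenceBasis ℂ (MvPolynomial σ ℂ ⧸ Q)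
  have hcard : Cardinal.mk s = D := by rw [hs.cardinalMk_eq_trdeg, hD]
  have : Finite s := Cardinal.lt_aleph0_iff_finite.1 (by rw [hcard]; exact Cardinal.natCast_lt_aleph0)
  have hN : Nat.card s = D := by
    rw [Nat.card, hcard, Cardinal.toNat_natCast]
  let e : Fin D ≃ s := (finCongr hN.symm).trans (Finite.equivFin s).symm
  choose g hg using Ideal.Quotient.mkₐ_surjective ℂ Q
  refine ⟨D, ?_, fun i => g (e i), ?_⟩
  · intro f hf
    have h1 := hf.cardinalMk_le_trdeg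
    rw [hD, Cardinal.mk_fin] at h1
    have h2 : D + 1 ≤ D := by exact_mod_cast h1
    omega
  · have h1 := (algebraicIndependent_equiv (R := ℂ) e).2 hs.1
    convert h1 using 1
    funext i
    rw [hg]
    rfl

/-- All elements are constants modulo the irrelevant ideal. -/
theorem TD_of_X_mem {Q : Ideal (MvPolynomial σ ℂ)} (hX : ∀ i, X i ∈ Q) (s : ℕ) : TD Q s := by
  intro f hf
  have h1 : ∀ p : MvPolynomial σ ℂ, p - C (constantCoeff p) ∈ Q := by
    intro p
    induction p using MvPolynomial.induction_on with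
    | C a => simp
    | add p q hp hq =>
      have h2 : p + q - C (constantCoeff (p + q)) =
          (p - C (constantCoeff p)) + (q - C (constantCoeff q)) := by
        rw [map_add, C_add]; ring
      rw [h2]
      exact Q.add_mem hp hq
    | mul_X p i hp =>
      have h2 : p * X i - C (constantCoeff (p * X i)) = p * X i := by simp
      rw [h2]
      exact Q.mul_mem_left _ (hX i)
  have h2 : aeval (fun i => Ideal.Quotient.mkₐ ℂ Q (f i))
      (X 0 - C (constantCoeff (f 0)) : MvPolynomial (Fin (s + 1)) ℂ) = 0 := by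
    rw [map_sub, aeval_X, aeval_C]
    exact Ideal.Quotient.eq_zero_iff_mem.2 (h1 (f 0))
  have h3 := hf.eq_zero_of_aeval_eq_zero _ h2
  have h4 := congrArg (eval fun _ => constantCoeff (f 0) + 1) h3
  simp at h4

end Pool.Agent.H5.DG
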