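import Pool.Agent.H5.DG.Iface
import Pool.Agent.H5.DG.SizeLem

/-!
# Project DG2, module CoeffSplit: the leading coefficient of the norm form is a product of linear forms

For `k ∈ ℕ` (`k ≥ 1`) let `t_s (k)` be the factors of `N (·; k)` over `ℂ` (`hN.split ℂ k`).  By `size_abs` (module SizeLem; `t_s (k) ∈ Gam N ℂ`,
`mem_Gam_iff`) `‖t_s (k)‖ ≤ C * k`, so the vectors `t_s (k) / k` stay in a compact set of `Fin κ → Fin (n + 2) → ℂ` and a subsequence
converges to `ξ` (`IsCompact.tendsto_subseq`); `ξ s 1 = 1` since `t_s (k) 1 = k`.  For fixed `w`: `val N w k / k ^ κ → eval w (N.coeff κ)`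
(`val_eq_sum`, `natDegree_le`), and `val N w k / k ^ κ = ∏ s, dot (t_s (k) / k) w → ∏ s, dot (ξ s) w`.  So the two polynomials agree at all
points (`MvPolynomial.funext`).  `coeff_ne`: apply `aeval v`; each factor is `dot (toL L (ξ s)) v ≠ 0` since `ξ s ≠ 0`.
-/

open MvPolynomial Filter Topology

noncomputable section

namespace Pool.Agent.H5.DG

variable {n κ : ℕ} {N : Polynomial (PV n)}

private theorem CoeffSplit_cne (k : ℕ) : ((k : ℂ) + 1) ≠ 0 := by
  exact_mod_cast Nat.succ_ne_zero k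

private theorem CoeffSplit_lim (c : ℕ → ℂ) (κ : ℕ) :
    Tendsto (fun k : ℕ => (∑ i ∈ Finset.range (κ + 1), c i * ((k : ℂ) + 1) ^ i) /
      ((k : ℂ) + 1) ^ κ) atTop (𝓝 (c κ)) := by
  have h0 : Tendsto (fun k : ℕ => (((k : ℂ) + 1))⁻¹) atTop (𝓝 0) := by
    have h1 : Tendsto (fun k : ℕ => ((1 : ℂ) / ((k : ℂ) + 1))) atTop (𝓝 0) :=
      tendsto_one_div_add_atTop_nhds_zero_nat
    refine h1.congr fun k => ?_
    rw [one_div]
  have h2 : ∀ i ∈ Finset.range κ, Tendsto (fun k : ℕ => c i * (((k : ℂ) + 1)⁻¹) ^ (κ - i)) atTop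
      (𝓝 0) := by
    intro i hi
    have h3 : κ - i ≠ 0 := by
      have := Finset.mem_range.mp hi
      omega
    have h4 := (h0.pow (κ - i)).const_mul (c i)
    rwa [zero_pow h3, mul_zero] at h4
  have h5 : Tendsto (fun k : ℕ => ∑ i ∈ Finset.range κ, c i * (((k : ℂ) + 1)⁻¹) ^ (κ - i)) atTop
      (𝓝 (∑ _i ∈ Finset.range κ, 0)) := tendsto_finsetSum _ h2
  rw [Finset.sum_const_zero] at h5
  have h6 := h5.add_const (c κ)
  rw [zero_add] at h6
  refine h6.congr fun k => ?_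
  rw [Finset.sum_range_succ, add_div, mul_div_assoc,
    div_self (pow_ne_zero κ (CoeffSplit_cne k)), mul_one, Finset.sum_div]
  congr 1
  refine Finset.sum_congr rfl fun i hi => ?_
  have h7 : i ≤ κ := (Finset.mem_range.mp hi).le
  rw [mul_div_assoc]
  congr 1
  rw [inv_pow, ← one_div, div_eq_div_iff (pow_ne_zero _ (CoeffSplit_cne k))
    (pow_ne_zero _ (CoeffSplit_cne k)), one_mul, ← pow_add]
  congr 1
  omega

theorem coeff_split (hκ : 1 ≤ κ) (hN : IsPreNorm κ N) : ∃ ξ : Fin κ → Fin (n + 2) → ℂ,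
    (∀ s, ξ s 1 = 1) ∧ N.coeff κ = ∏ s, ∑ a, C (ξ s a) * X a := by
  obtain ⟨B, hB1, hB⟩ := size_abs hκ hN
  choose t ht1 ht2 using fun k : ℕ => hN.split ℂ ((k : ℂ) + 1)
  have hmem : ∀ k s, t k s ∈ Gam N ℂ := fun k s =>
    (mem_Gam_iff (ht1 k) (ht2 k) (t k s) (ht1 k s).2).mpr ⟨s, rfl⟩
  have hnk : ∀ k : ℕ, ‖(k : ℂ) + 1‖ = (k : ℝ) + 1 := by
    intro k
    have h1 : ((k : ℂ) + 1) = (((k : ℝ) + 1 : ℝ) : ℂ) := by push_cast; rfl
    rw [h1, Complex.norm_real, Real.norm_of_nonneg (by positivity)]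
  set T : ℕ → Fin κ → Fin (n + 2) → ℂ := fun k s a => t k s a / ((k : ℂ) + 1) with hT
  have hTb : ∀ k, T k ∈ Metric.closedBall (0 : Fin κ → Fin (n + 2) → ℂ) B := by
    intro k
    rw [mem_closedBall_zero_iff, pi_norm_le_iff_of_nonneg (by linarith)]
    intro s
    rw [pi_norm_le_iff_of_nonneg (by linarith)]
    intro a
    have h1 := hB (t k s) (hmem k s)
    rw [(ht1 k s).2, hnk k, max_eq_right (by linarith [Nat.cast_nonneg (α := ℝ) k])] at h1
    have h2 : ‖t k s a‖ ≤ ‖t k s‖ := norm_le_pi_norm (t k s) a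
    have h3 : (0 : ℝ) < (k : ℝ) + 1 := by positivity
    change ‖t k s a / ((k : ℂ) + 1)‖ ≤ B
    rw [norm_div, hnk k, div_le_iff₀ h3]
    exact h2.trans h1
  obtain ⟨ξ, -, φ, hφ, hlim⟩ := (isCompact_closedBall (0 : Fin κ → Fin (n + 2) → ℂ) B).tendsto_subseq
    hTb
  have hcoord : ∀ s a, Tendsto (fun k => T (φ k) s a) atTop (𝓝 (ξ s a)) := by
    intro s a
    have h1 := tendsto_pi_nhds.mp hlim s
    exact tendsto_pi_nhds.mp h1 a
  refine ⟨ξ, ?_, ?_⟩
  · intro s
    have h1 := hcoord s 1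
    have h2 : (fun k => T (φ k) s 1) = fun _ => (1 : ℂ) := by
      funext k
      change t (φ k) s 1 / (((φ k : ℕ) : ℂ) + 1) = 1
      rw [(ht1 (φ k) s).2, div_self (CoeffSplit_cne _)]
    rw [h2] at h1
    exact tendsto_nhds_unique h1 tendsto_const_nhds
  · refine MvPolynomial.funext fun w => ?_
    rw [map_prod]
    have hR : Tendsto (fun k => ∏ s, dot (T (φ k) s) w) atTop
        (𝓝 (∏ s, dot (ξ s) w)) := by
      refine tendsto_finsetProd _ fun s _ => ?_
      unfold dot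
      exact tendsto_finsetSum _ fun a _ => (hcoord s a).mul_const (w a)
    have hL := (CoeffSplit_lim (fun i => MvPolynomial.aeval w (N.coeff i)) κ).comp hφ.tendsto_atTop
    have heq : ∀ k : ℕ, (∑ i ∈ Finset.range (κ + 1), MvPolynomial.aeval w (N.coeff i) *
        ((k : ℂ) + 1) ^ i) / ((k : ℂ) + 1) ^ κ = ∏ s, dot (T k s) w := by
      intro k
      rw [← val_eq_sum (natDegree_le hN) w ((k : ℂ) + 1), ht2 k w]
      have h1 : ∀ s, dot (t k s) w = ((k : ℂ) + 1) * dot (T k s) w := by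
        intro s
        unfold dot
        rw [Finset.mul_sum]
        refine Finset.sum_congr rfl fun a _ => ?_
        change t k s a * w a = ((k : ℂ) + 1) * (t k s a / ((k : ℂ) + 1) * w a)
        rw [← mul_assoc, mul_div_cancel₀ _ (CoeffSplit_cne k)]
      rw [Finset.prod_congr rfl fun s _ => h1 s, Finset.prod_mul_distrib, Finset.prod_const,
        Finset.card_univ, Fintype.card_fin, mul_div_cancel_left₀ _
          (pow_ne_zero κ (CoeffSplit_cne k))]
    have hL' : Tendsto (fun k => ∏ s, dot (T (φ k) s) w) atTop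
        (𝓝 (MvPolynomial.aeval w (N.coeff κ))) := hL.congr fun k => heq (φ k)
    have h2 := tendsto_nhds_unique hL' hR
    have h3 : MvPolynomial.aeval w (N.coeff κ) = MvPolynomial.eval w (N.coeff κ) := by
      rw [← MvPolynomial.coe_aeval_eq_eval]
      rfl
    rw [← h3, h2]
    refine Finset.prod_congr rfl fun s _ => ?_
    rw [map_sum]
    unfold dot
    refine Finset.sum_congr rfl fun a _ => ?_
    rw [map_mul, MvPolynomial.eval_C, MvPolynomial.eval_X]

/-- The leading coefficient does not vanish at vectors which are linearly independent over `ℂ`. -/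
theorem coeff_ne (hκ : 1 ≤ κ) (hN : IsPreNorm κ N) {L : Type} [Field L] [Algebra ℂ L]
    (v : Fin (n + 2) → L) (hv : ∀ x : Fin (n + 2) → ℂ, dot (toL L x) v = 0 → x = 0) :
    MvPolynomial.aeval v (N.coeff κ) ≠ 0 := by
  obtain ⟨ξ, hξ, he⟩ := coeff_split hκ hN
  rw [he, map_prod]
  refine Finset.prod_ne_zero_iff.mpr fun s _ => ?_
  have h1 : MvPolynomial.aeval v (∑ a, C (ξ s a) * X a : MvPolynomial (Fin (n + 2)) ℂ) =
      dot (toL L (ξ s)) v := by
    rw [map_sum]
    unfold dot toL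
    refine Finset.sum_congr rfl fun a _ => ?_
    rw [map_mul, MvPolynomial.aeval_C, MvPolynomial.aeval_X]
  rw [h1]
  intro h2
  have h3 := hv (ξ s) h2
  have h4 := hξ s
  rw [h3] at h4
  exact zero_ne_one h4

end Pool.Agent.H5.DG
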