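import Pool.Agent.H5.DG2.Defs
import Pool.Agent.H5.DG.D2

/-!
# Project DG2, module Core2: the analytic core without general position

`A` = the `a` with `MeroPunct R₀ (g a)` (`a₀ ∈ A` since `g a₀ = 1`), `S` = the `j` with `MeroPunct R₀ (lin (p j) g)`.
Apply `analytic_core h.data h.hom` (module D2) with `ι = Fin (n + 2) ⊕ {j // j ∈ S}`, `lam (inl a) = Pi.single a 1` for `a ∈ A`,
`Pi.single a 1 + Pi.single a₀ 1` for `a ∉ A` (the value along `g` is `g a`, respectively `g a + g a₀`, which is `1` generically),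
`lam (inr j) = p j`; `b a (inl a) = 1`, and `b a (inl a₀) = -1` if `a ∉ A`; `c = 1`, `J` = all `inr j`.
`exists_constants h.data` (module D2) gives `T`, `T.card ≤ κ`, which contains the `p j`, `j ∉ S` (injective), so `S.card ≥ m - κ` and
`4 * κ < J.card` by `h.card` (`κ ≥ 1`).  `i₀ = inl a₀`.
Multiplicities: let `μ ≤` all orders, attained at `i`.  `i = inl a`, `a ∈ A`: use `a`; `a ∉ A`: the order is `0`, use `a₀`; `i = inr j`:
`lin (p j) g = ∑ a ∈ A, p j a * g a` near `s` (punctured), so if all `ordZ (g a) s ≥ μ + 1`, `a ∈ A`, then `ordZ (lin (p j) g) s ≥ μ + 1`.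
In all cases some `a ∈ A` has `ordZ (g a) s = μ`, and `hmult` applies.  Conclusion: `PunctMero (lin (lam (inl a)) g)`: for `a ∈ A` this is
`g a`; for `a ∉ A` the function `g a` vanishes near all points of the punctured disc (see the end of `core_analytic` in D2Core).
-/

open MvPolynomial Filter Topology
open Pool.Agent.H62.FC (MeroPunct PunctMero)
open Pool.Agent.H92.GGL (ordZ)

noncomputable section

namespace Pool.Agent.H5.DG

private theorem le_order_mul2 {u : ℂ → ℂ} {s : ℂ} (hu : MeromorphicAt u s) (x : ℂ)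
    {k : WithTop ℤ} (h : k ≤ meromorphicOrderAt u s) :
    k ≤ meromorphicOrderAt (fun ζ => x * u ζ) s := by
  have h1 : (fun ζ => x * u ζ) = (fun _ => x) * u := rfl
  rw [h1, meromorphicOrderAt_mul (MeromorphicAt.const _ _) hu]
  have h2 : 0 ≤ meromorphicOrderAt (fun _ : ℂ => x) s := by
    rw [meromorphicOrderAt_const]
    split_ifs
    · exact le_top
    · exact le_rfl
  calc k = 0 + k := (zero_add k).symm
    _ ≤ _ := add_le_add h2 h

private theorem le_order_sum2 {ι : Type*} (S : Finset ι) {u : ι → ℂ → ℂ} {s : ℂ}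
    (hu : ∀ i, MeromorphicAt (u i) s) {k : WithTop ℤ}
    (h : ∀ i, k ≤ meromorphicOrderAt (u i) s) :
    k ≤ meromorphicOrderAt (∑ i ∈ S, u i) s := by
  classical
  induction S using Finset.induction_on with
  | empty =>
    rw [Finset.sum_empty]
    have : meromorphicOrderAt (0 : ℂ → ℂ) s = ⊤ := by
      rw [meromorphicOrderAt_eq_top_iff]
      exact Filter.Eventually.of_forall fun _ => rfl
    rw [this]
    exact le_top
  | insert a S ha ih =>
    rw [Finset.sum_insert ha]
    have h1 := meromorphicOrderAt_add (hu a) (MeromorphicAt.sum (s := S) fun i _ => hu i)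
    exact (le_min (h a) ih).trans h1

private theorem lin_mero2 {n : ℕ} {g : Fin (n + 2) → ℂ → ℂ} {z : ℂ}
    (hg : ∀ a, MeromorphicAt (g a) z) (τ : Fin (n + 2) → ℂ) : MeromorphicAt (lin τ g) z := by
  have h : lin τ g = ∑ a, fun ζ => τ a * g a ζ := by
    funext ζ
    rw [Finset.sum_apply]
    rfl
  rw [h]
  exact MeromorphicAt.sum fun a _ => (MeromorphicAt.const _ _).mul (hg a)

/-- A meromorphic function which is `1` generically. -/
private theorem order_one {u : ℂ → ℂ} {s : ℂ} (h : ∀ᶠ ζ in 𝓝[≠] s, u ζ = 1) :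
    meromorphicOrderAt u s = 0 := by
  have h1 : u =ᶠ[𝓝[≠] s] fun _ => (1 : ℂ) := h
  rw [meromorphicOrderAt_congr h1, meromorphicOrderAt_const, if_neg one_ne_zero]

private theorem ordZ_one {u : ℂ → ℂ} {s : ℂ} (h : ∀ᶠ ζ in 𝓝[≠] s, u ζ = 1) : ordZ u s = 0 := by
  have h1 := order_one h
  have h2 : meromorphicOrderAt u s ≠ ⊤ := by
    rw [h1]
    exact WithTop.zero_ne_top
  have h3 := Pool.Agent.H92.GGL.ordZ_cast h2
  rw [h1] at h3
  exact_mod_cast h3

private theorem dot_single2 {n : ℕ} (a : Fin (n + 2)) (v : Fin (n + 2) → ℂ) :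
    dot (Pi.single a 1) v = v a := by
  unfold dot
  rw [Finset.sum_eq_single a]
  · rw [Pi.single_eq_same, one_mul]
  · intro b _ hb
    rw [Pi.single_eq_of_ne hb, zero_mul]
  · intro h
    exact absurd (Finset.mem_univ a) h

private theorem dot_add2 {n : ℕ} (x y v : Fin (n + 2) → ℂ) :
    dot (x + y) v = dot x v + dot y v := by
  unfold dot
  rw [← Finset.sum_add_distrib]
  exact Finset.sum_congr rfl fun a _ => by rw [Pi.add_apply, add_mul]

theorem core_analytic2 {n m κ : ℕ} {p : Fin m → Fin (n + 2) → ℂ} {N : Polynomial (PV n)}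
    {φ : PVW n} (h : Pkg2 p κ N φ) {R₀ : ℝ} (hR₀ : 0 < R₀) {g : Fin (n + 2) → ℂ → ℂ}
    (hg : ∀ a z, 0 < ‖z‖ → ‖z‖ < R₀ → MeromorphicAt (g a) z)
    (hΔ : ∀ z, 0 < ‖z‖ → ‖z‖ < R₀ →
      ∀ᶠ ζ in 𝓝[≠] z, MvPolynomial.eval (fun a => g a ζ) (Del κ N) ≠ 0)
    (hcoord : ∀ a, MeroPunct R₀ (g a) ∨
      ∀ z, 0 < ‖z‖ → ‖z‖ < R₀ → ∀ᶠ ζ in 𝓝[≠] z, g a ζ = 0)
    (hdich : ∀ j, MeroPunct R₀ (lin (p j) g) ∨
      ∀ z, 0 < ‖z‖ → ‖z‖ < R₀ → ∀ᶠ ζ in 𝓝[≠] z, lin (p j) g ζ = 0) {a₀ : Fin (n + 2)}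
    (ha₀ : ∀ z, 0 < ‖z‖ → ‖z‖ < R₀ → ∀ᶠ ζ in 𝓝[≠] z, g a₀ ζ = 1)
    (hmult : ∀ j, MeroPunct R₀ (lin (p j) g) → ∀ s, 0 < ‖s‖ → ‖s‖ < R₀ → ∀ μ : ℤ,
      (∀ a, MeroPunct R₀ (g a) → μ ≤ ordZ (g a) s) →
      (∃ a, MeroPunct R₀ (g a) ∧ ordZ (g a) s = μ) →
      ordZ (lin (p j) g) s = μ ∨ μ + 2 ≤ ordZ (lin (p j) g) s) (a : Fin (n + 2)) :
    PunctMero (g a) := by
  classical
  have hz₁ : 0 < ‖((R₀ / 2 : ℝ) : ℂ)‖ ∧ ‖((R₀ / 2 : ℝ) : ℂ)‖ < R₀ := by
    rw [Complex.norm_real, Real.norm_of_nonneg (by linarith)]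
    constructor <;> linarith
  -- the coordinate `a₀`
  have ha₀A : MeroPunct R₀ (g a₀) := by
    refine ⟨hg a₀, fun z h1 h2 => ?_⟩
    rw [order_one (ha₀ z h1 h2)]
    exact WithTop.zero_ne_top
  have hnA : ∀ a, ¬ MeroPunct R₀ (g a) →
      ∀ z, 0 < ‖z‖ → ‖z‖ < R₀ → ∀ᶠ ζ in 𝓝[≠] z, g a ζ = 0 := fun a ha =>
    (hcoord a).resolve_left ha
  -- the points whose linear forms do not vanish identically
  set S : Finset (Fin m) := Finset.univ.filter fun j => MeroPunct R₀ (lin (p j) g) with hSdef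
  have hSmem : ∀ j, j ∈ S ↔ MeroPunct R₀ (lin (p j) g) := by
    intro j
    rw [hSdef, Finset.mem_filter]
    exact ⟨fun h => h.2, fun h => ⟨Finset.mem_univ _, h⟩⟩
  obtain ⟨T, hTcard, hTmem, _⟩ := exists_constants h.data hR₀ hg hΔ
  have hcompl : (Finset.univ \ S).card ≤ κ := by
    refine le_trans ?_ hTcard
    apply Finset.card_le_card_of_injOn p
    · intro j hj
      rw [Finset.mem_coe, Finset.mem_sdiff] at hj
      rw [Finset.mem_coe, hTmem]
      refine ⟨h.mem j, (hdich j).resolve_left fun h1 => hj.2 ((hSmem j).2 h1)⟩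
    · intro j _ j' _ hjj
      exact h.inj hjj
  have hScard : 4 * κ < S.card := by
    have h1 := Finset.card_sdiff_add_card_eq_card (Finset.subset_univ S)
    rw [Finset.card_univ, Fintype.card_fin] at h1
    have h2 := h.card
    have h3 : (2 * n + 8) * κ = 2 * (n * κ) + 8 * κ := by ring
    have h4 := h.data.pos
    omega
  -- the new data
  set lam : Fin (n + 2) ⊕ {j : Fin m // j ∈ S} → Fin (n + 2) → ℂ := fun i =>
    Sum.elim (fun a => if MeroPunct R₀ (g a) then Pi.single a 1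
      else Pi.single a 1 + Pi.single a₀ 1) (fun j => p j.1) i with hlam
  have hlamA : ∀ a, MeroPunct R₀ (g a) → lam (Sum.inl a) = Pi.single a 1 := fun a ha => if_pos ha
  have hlamN : ∀ a, ¬ MeroPunct R₀ (g a) →
      lam (Sum.inl a) = Pi.single a 1 + Pi.single a₀ 1 := fun a ha => if_neg ha
  have hlamR : ∀ j : {j : Fin m // j ∈ S}, lam (Sum.inr j) = p j.1 := fun j => rfl
  have hlinA : ∀ a, MeroPunct R₀ (g a) → lin (lam (Sum.inl a)) g = g a := by
    intro a ha
    rw [hlamA a ha]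
    funext z
    exact dot_single2 a _
  have hlinN : ∀ a, ¬ MeroPunct R₀ (g a) → ∀ z, 0 < ‖z‖ → ‖z‖ < R₀ →
      ∀ᶠ ζ in 𝓝[≠] z, lin (lam (Sum.inl a)) g ζ = 1 := by
    intro a ha z h1 h2
    filter_upwards [hnA a ha z h1 h2, ha₀ z h1 h2] with ζ h3 h4
    rw [hlamN a ha]
    change dot (Pi.single a 1 + Pi.single a₀ 1) (fun a => g a ζ) = 1
    rw [dot_add2, dot_single2, dot_single2, h3, h4, zero_add]
  obtain ⟨b, hb⟩ : ∃ b : Fin (n + 2) → Fin (n + 2) ⊕ {j : Fin m // j ∈ S} → ℂ,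
      ∀ (v : Fin (n + 2) → ℂ) a, v a = ∑ i, b a i * dot (lam i) v := by
    refine ⟨fun a i => Sum.elim (fun a' => (if a' = a then 1 else 0) -
      (if a' = a₀ ∧ ¬ MeroPunct R₀ (g a) then 1 else 0)) (fun _ => 0) i, fun v a => ?_⟩
    rw [Fintype.sum_sum_type]
    simp only [Sum.elim_inl, Sum.elim_inr, zero_mul, Finset.sum_const_zero, add_zero, sub_mul]
    rw [Finset.sum_sub_distrib]
    have e1 : ∑ a', (if a' = a then (1 : ℂ) else 0) * dot (lam (Sum.inl a')) v =
        dot (lam (Sum.inl a)) v := by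
      rw [Finset.sum_eq_single a]
      · rw [if_pos rfl, one_mul]
      · intro a' _ h1
        rw [if_neg h1, zero_mul]
      · intro h1
        exact absurd (Finset.mem_univ a) h1
    have e2 : ∑ a', (if a' = a₀ ∧ ¬ MeroPunct R₀ (g a) then (1 : ℂ) else 0) *
        dot (lam (Sum.inl a')) v = if ¬ MeroPunct R₀ (g a) then v a₀ else 0 := by
      rw [Finset.sum_eq_single a₀]
      · rw [hlamA a₀ ha₀A, dot_single2]
        by_cases ha : MeroPunct R₀ (g a)
        · rw [if_neg fun h1 => h1.2 ha, if_neg (not_not.2 ha), zero_mul]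
        · rw [if_pos ⟨rfl, ha⟩, if_pos ha, one_mul]
      · intro a' _ h1
        rw [if_neg fun h2 => h1 h2.1, zero_mul]
      · intro h1
        exact absurd (Finset.mem_univ a₀) h1
    rw [e1, e2]
    by_cases ha : MeroPunct R₀ (g a)
    · rw [hlamA a ha, dot_single2, if_neg (not_not.2 ha), sub_zero]
    · rw [hlamN a ha, dot_add2, dot_single2, dot_single2, if_pos ha, add_sub_cancel_right]
  have hne : ∀ i, MeroPunct R₀ (lin (lam i) g) := by
    rintro (a | j)
    · by_cases ha : MeroPunct R₀ (g a)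
      · rw [hlinA a ha]
        exact ha
      · refine ⟨fun z h1 h2 => lin_mero2 (fun a => hg a z h1 h2) _, fun z h1 h2 => ?_⟩
        rw [order_one (hlinN a ha z h1 h2)]
        exact WithTop.zero_ne_top
    · exact (hSmem j.1).1 j.2
  -- the marked points
  set J : Finset (Fin (n + 2) ⊕ {j : Fin m // j ∈ S}) := Finset.univ.map
    (Function.Embedding.inr : {j : Fin m // j ∈ S} ↪ Fin (n + 2) ⊕ {j : Fin m // j ∈ S}) with hJdef
  have hJmem : ∀ i ∈ J, ∃ j : {j : Fin m // j ∈ S}, i = Sum.inr j := by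
    intro i hi
    rw [hJdef, Finset.mem_map] at hi
    obtain ⟨j, _, hj⟩ := hi
    exact ⟨j, hj.symm⟩
  have hJcard : 4 * κ < J.card := by
    rw [hJdef, Finset.card_map, Finset.card_univ, Fintype.card_coe]
    exact hScard
  have hmarked : Marked N lam (fun _ => 1) J := by
    refine ⟨fun _ _ => one_ne_zero, fun i hi => ?_, fun i hi i' hi' hii => ?_⟩
    · obtain ⟨j, rfl⟩ := hJmem i hi
      simp only [one_mul]
      exact h.mem j.1
    · obtain ⟨j, rfl⟩ := hJmem i hi
      obtain ⟨j', rfl⟩ := hJmem i' hi'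
      simp only [one_mul] at hii
      have h1 : p j.1 = p j'.1 := funext fun a => congrFun hii a
      rw [Subtype.ext (h.inj h1)]
  by_cases ha : MeroPunct R₀ (g a)
  · have h1 := analytic_core h.data h.hom hb hmarked hJcard hR₀ hg hΔ hne (i₀ := Sum.inl a₀)
      (fun z h2 h3 => by rw [hlinA a₀ ha₀A]; exact ha₀ z h2 h3) ?_ (Sum.inl a)
    · rw [hlinA a ha] at h1
      exact h1
    · intro i hi s hs hs' μ h2 h3
      obtain ⟨j, rfl⟩ := hJmem i hi
      rw [hlamR]
      refine hmult j.1 ((hSmem j.1).1 j.2) s hs hs' μ (fun a ha => ?_) ?_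
      · have := h2 (Sum.inl a)
        rwa [hlinA a ha] at this
      · by_contra hcon
        push Not at hcon
        have h4 : ∀ a, MeroPunct R₀ (g a) → μ + 1 ≤ ordZ (g a) s := by
          intro a ha
          have h5 := h2 (Sum.inl a)
          rw [hlinA a ha] at h5
          have h6 := hcon a ha
          omega
        obtain ⟨i, hi⟩ := h3
        have h5 : μ + 1 ≤ ordZ (lin (lam i) g) s := by
          rcases i with (a | j)
          · by_cases ha : MeroPunct R₀ (g a)
            · rw [hlinA a ha]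
              exact h4 a ha
            · rw [ordZ_one (hlinN a ha s hs hs'), ← ordZ_one (ha₀ s hs hs')]
              exact h4 a₀ ha₀A
          · have h6 : ∀ a, ((μ + 1 : ℤ) : WithTop ℤ) ≤ meromorphicOrderAt (g a) s := by
              intro a
              by_cases ha : MeroPunct R₀ (g a)
              · rw [← Pool.Agent.H92.GGL.ordZ_cast (ha.ord s hs hs')]
                exact_mod_cast h4 a ha
              · rw [meromorphicOrderAt_eq_top_iff.2 (hnA a ha s hs hs')]
                exact le_top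
            have h7 : lin (lam (Sum.inr j)) g = ∑ a, fun ζ => lam (Sum.inr j) a * g a ζ := by
              funext ζ
              rw [Finset.sum_apply]
              rfl
            have h8 : ((μ + 1 : ℤ) : WithTop ℤ) ≤
                meromorphicOrderAt (lin (lam (Sum.inr j)) g) s := by
              rw [h7]
              exact le_order_sum2 _
                (fun a => (MeromorphicAt.const _ _).mul (hg a s hs hs')) fun a =>
                le_order_mul2 (hg a s hs hs') _ (h6 a)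
            rw [← Pool.Agent.H92.GGL.ordZ_cast ((hne (Sum.inr j)).ord s hs hs')] at h8
            exact_mod_cast h8
        omega
  · refine ⟨fun _ => 0, MeromorphicAt.const 0 0, ?_⟩
    have h1 : ∀ᶠ z in 𝓝[≠] (0 : ℂ), ‖z‖ < R₀ ∧ z ≠ 0 := by
      refine Filter.Eventually.and ?_ (eventually_mem_nhdsWithin.mono fun z hz => hz)
      apply eventually_nhdsWithin_of_eventually_nhds
      exact (continuous_norm.tendsto (0 : ℂ)).eventually_lt_const (by rw [norm_zero]; exact hR₀)
    filter_upwards [h1] with z hz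
    exact hnA a ha z (norm_pos_iff.2 hz.2) hz.1

end Pool.Agent.H5.DG
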