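import Pool.Agent.H5.DG2.Main2
import Pool.Agent.H5.DG.Joint

/-!
# Project DG2, module Joint2: hyperplanes of projective space
-/

open MvPolynomial
open Pool.Agent.H17 (PN VanishesAt)

noncomputable section

namespace Pool.Agent.H5.DG

theorem baseFree_X (r : ℕ) : BaseFree (⊥ : Ideal (MvPolynomial (Fin (r + 1)) ℂ)) 1 X where
  pos := le_rfl
  hom := fun a => isHomogeneous_X ℂ a
  base := fun i => ⟨1, by
    rw [pow_one]
    exact Ideal.mem_sup_left (Ideal.subset_span ⟨i, rfl⟩)⟩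

theorem homog_bot (r : ℕ) : Homog (⊥ : Ideal (MvPolynomial (Fin (r + 1)) ℂ)) := by
  intro p hp k
  rw [Ideal.mem_bot] at hp ⊢
  rw [hp, map_zero]

/-- The linear form with the coefficients `l`. -/
def linearForm {r : ℕ} (l : Fin (r + 1) → ℂ) : MvPolynomial (Fin (r + 1)) ℂ :=
  ∑ a, C (l a) * X a

theorem linearForm_isHomogeneous {r : ℕ} (l : Fin (r + 1) → ℂ) :
    (linearForm l).IsHomogeneous 1 :=
  comb_isHomogeneous l fun a => isHomogeneous_X ℂ a

/-- The theorem for hyperplanes of `ℙ^r`. -/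
theorem HyperplaneTheorem.sections {q m r k : ℕ} {l : Fin m → Fin (r + 1) → ℂ}
    {Δ : MvPolynomial (Fin (r + 1)) ℂ} (hk : Δ.IsHomogeneous k) (hΔ : Δ ≠ 0)
    (h : HyperplaneTheorem q l Δ) : SectionTheorem q ⊥ (fun j => linearForm (l j)) Δ := by
  have hX : aeval X Δ = Δ := MvPolynomial.aeval_X_left_apply Δ
  have h1 := SectionTheorem.of_linear (P := (⊥ : Ideal (MvPolynomial (Fin (r + 1)) ℂ)))
    (homog_bot r) (baseFree_X r) (G := fun j => linearForm (l j))
    (fun j => ⟨1, linearForm_isHomogeneous (l j)⟩) hk h.linearPart (σ := id) (c := fun _ => 1)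
    (fun _ => one_ne_zero) (fun j => by
      rw [C_1, one_mul]
      exact (Ideal.mem_bot).2 (sub_self _)) (by
      rw [hX, Ideal.mem_bot]
      exact hΔ)
  rwa [hX] at h1

end Pool.Agent.H5.DG
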