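import Pool.Agent.H5.DG.DerExt

/-!
# Project DG2, module Omega: the algebraic closure of `ℂ(u)`

`exists_emb`: `u` is transcendental over `ℂ` (`ℂ` is algebraically closed), so `Polynomial.aeval u` is injective and extends to
`RatFunc ℂ →ₐ[ℂ] L` (`RatFunc.liftAlgHom`) and, `L` being algebraically closed, to `Omg` (`IsAlgClosed.lift` with the induced
`RatFunc ℂ`-algebra structure on `L`).
`exists_der`: the derivation `d/dX` of `RatFunc ℂ` (extend `Polynomial.derivative`; e.g. `Derivation` lifts to localizations, or use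
`KaehlerDifferential`) extended by `exists_derivation_ext` (module DerExt).
`der_comp` is not needed.
-/

open MvPolynomial

noncomputable section

namespace Pool.Agent.H5.DG

/-- The algebraic closure of the field of rational functions. -/
abbrev Omg : Type := AlgebraicClosure (RatFunc ℂ)

/-- The variable. -/
def uu : Omg := algebraMap (RatFunc ℂ) Omg RatFunc.X

private theorem Omega_aeval (p : Polynomial ℂ) :
    Polynomial.aeval uu p = algebraMap (RatFunc ℂ) Omg (algebraMap (Polynomial ℂ) (RatFunc ℂ) p) := by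
  unfold uu
  rw [Polynomial.aeval_algebraMap_apply]
  congr 1
  induction p using Polynomial.induction_on' with
  | add p q hp hq => rw [map_add, map_add, hp, hq]
  | monomial n a =>
    rw [Polynomial.aeval_monomial, ← Polynomial.C_mul_X_pow_eq_monomial, map_mul, map_pow,
      RatFunc.algebraMap_X, RatFunc.algebraMap_C, ← RatFunc.algebraMap_eq_C]

private theorem Omega_der : ∃ D : Derivation ℂ (RatFunc ℂ) (RatFunc ℂ), D RatFunc.X = 1 := by
  have : Algebra.FormallyEtale (Polynomial ℂ) (RatFunc ℂ) :=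
    Algebra.FormallyEtale.of_isLocalization (nonZeroDivisors (Polynomial ℂ))
  let D : Derivation ℂ (Polynomial ℂ) (Polynomial ℂ) := Polynomial.derivative'
  let l : Ω[Polynomial ℂ⁄ℂ] →ₗ[Polynomial ℂ] (RatFunc ℂ) :=
    (Algebra.linearMap (Polynomial ℂ) (RatFunc ℂ)).comp D.liftKaehlerDifferential
  let e := KaehlerDifferential.tensorKaehlerEquivOfFormallyEtale ℂ (Polynomial ℂ) (RatFunc ℂ)
  let l' : Ω[RatFunc ℂ⁄ℂ] →ₗ[RatFunc ℂ] (RatFunc ℂ) :=
    (l.liftBaseChange (RatFunc ℂ)).comp e.symm.toLinearMap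
  refine ⟨l'.compDer (KaehlerDifferential.D ℂ (RatFunc ℂ)), ?_⟩
  rw [← RatFunc.algebraMap_X]
  change l.liftBaseChange (RatFunc ℂ) (e.symm (KaehlerDifferential.D ℂ (RatFunc ℂ)
    (algebraMap (Polynomial ℂ) (RatFunc ℂ) Polynomial.X))) = _
  rw [KaehlerDifferential.tensorKaehlerEquivOfFormallyEtale_symm_D_algebraMap,
    LinearMap.liftBaseChange_tmul, one_smul]
  change algebraMap (Polynomial ℂ) (RatFunc ℂ)
    (D.liftKaehlerDifferential (KaehlerDifferential.D ℂ (Polynomial ℂ) Polynomial.X)) = _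
  rw [Derivation.liftKaehlerDifferential_comp_D]
  change algebraMap (Polynomial ℂ) (RatFunc ℂ) (Polynomial.derivative Polynomial.X) = _
  rw [Polynomial.derivative_X, map_one]

theorem exists_emb {L : Type} [Field L] [Algebra ℂ L] [IsAlgClosed L] (u : L)
    (hu : ∀ c : ℂ, u ≠ algebraMap ℂ L c) : ∃ j : Omg →ₐ[ℂ] L, j uu = u := by
  have htr : Transcendental ℂ u := by
    intro hal
    have h1 : IsIntegral ℂ u := hal.isIntegral
    have h2 := IsAlgClosed.degree_eq_one_of_irreducible ℂ (minpoly.irreducible h1)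
    obtain ⟨c, hc⟩ := minpoly.mem_range_of_degree_eq_one ℂ u h2
    exact hu c hc.symm
  have hinj : Function.Injective (Polynomial.aeval u : Polynomial ℂ →ₐ[ℂ] L) :=
    transcendental_iff_injective.1 htr
  let φ : RatFunc ℂ →ₐ[ℂ] L := RatFunc.liftAlgHom (Polynomial.aeval u)
    (nonZeroDivisors_le_comap_nonZeroDivisors_of_injective _ hinj)
  let _ : Algebra (RatFunc ℂ) L := φ.toRingHom.toAlgebra
  have : IsScalarTower ℂ (RatFunc ℂ) L := by
    refine IsScalarTower.of_algebraMap_eq fun c => ?_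
    exact (φ.commutes c).symm
  let j : Omg →ₐ[RatFunc ℂ] L := IsAlgClosed.lift
  refine ⟨j.restrictScalars ℂ, ?_⟩
  change j (algebraMap (RatFunc ℂ) Omg RatFunc.X) = u
  rw [j.commutes]
  change φ RatFunc.X = u
  have h3 : φ (algebraMap (Polynomial ℂ) (RatFunc ℂ) Polynomial.X /
      algebraMap (Polynomial ℂ) (RatFunc ℂ) 1) = u := by
    refine (RatFunc.liftAlgHom_apply_div (Polynomial.aeval u)
      (nonZeroDivisors_le_comap_nonZeroDivisors_of_injective _ hinj) Polynomial.X 1).trans ?_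
    rw [Polynomial.aeval_X, map_one, div_one]
  rw [RatFunc.algebraMap_X, map_one, div_one] at h3
  exact h3

theorem exists_der : ∃ d : Derivation ℂ Omg Omg, d uu = 1 := by
  obtain ⟨D, hD⟩ := Omega_der
  obtain ⟨D', hD'⟩ := exists_derivation_ext (L := Omg) D
  refine ⟨D', ?_⟩
  unfold uu
  rw [hD', hD, map_one]

/-- Elements of `Omg` are algebraic over `ℂ[u]`. -/
theorem omg_algebraic (x : Omg) : ∃ A : Polynomial (Polynomial ℂ), A ≠ 0 ∧
    (A.map (Polynomial.aeval uu : Polynomial ℂ →ₐ[ℂ] Omg).toRingHom).eval x = 0 := by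
  have h1 : IsAlgebraic (RatFunc ℂ) x := Algebra.IsAlgebraic.isAlgebraic x
  have h2 : IsAlgebraic (Polynomial ℂ) x :=
    (IsFractionRing.isAlgebraic_iff (Polynomial ℂ) (RatFunc ℂ) Omg).2 h1
  obtain ⟨A, hA, hAx⟩ := h2
  refine ⟨A, hA, ?_⟩
  have h3 : (Polynomial.aeval uu : Polynomial ℂ →ₐ[ℂ] Omg).toRingHom =
      algebraMap (Polynomial ℂ) Omg := by
    refine RingHom.ext fun p => ?_
    refine (Omega_aeval p).trans ?_
    rw [IsScalarTower.algebraMap_apply (Polynomial ℂ) (RatFunc ℂ) Omg]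
  rw [h3, Polynomial.eval_map_algebraMap]
  exact hAx

theorem aeval_uu_injective :
    Function.Injective (Polynomial.aeval uu : Polynomial ℂ →ₐ[ℂ] Omg) := by
  intro p q h
  rw [Omega_aeval, Omega_aeval] at h
  exact RatFunc.algebraMap_injective ℂ ((algebraMap (RatFunc ℂ) Omg).injective h)

end Pool.Agent.H5.DG
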