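import Pool.Agent.H5.DG2.Pack1

/-!
# Project DG2, module Pack: the package for vectors

Strong induction on `D`.  `N₀ (D, ρ) = max 2 (1 + ..)`: for `V` with `finrank V ≤ 1` two vectors `l 0`, `l 1` none of which is a multiple of
the other do not exist (`m ≥ 2`).  For `finrank V = n + 2 ≤ D`: `partA n ρ'` with `ρ' = max (2 * n + 8) (max ρ N')`, `N'` = the number of the
induction hypothesis for `D - 1` and `ρ`, applied to the coordinate vectors of the `l j` in a basis (`l j ≠ 0`: take `i ≠ j`, `c = 0`,
`m ≥ 2`).  If the `l j`, `j ∈ J`, span `V`: `pack_span` (`ρ < J.card` since `κ ≥ 1`).  Otherwise apply the induction hypothesis to the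
span `W` of the `l j`, `j ∈ J` (`finrank W ≤ D - 1`), and the `J.card ≥ N'` vectors `l j` of `W`; compose with the inclusion of `W`.
(Take the maximum over all `n + 2 ≤ D` of the numbers of `partA`.)
-/

open MvPolynomial

noncomputable section

namespace Pool.Agent.H5.DG

/-- **The package for vectors.** -/
theorem pack2 (D ρ : ℕ) : ∃ N₀ : ℕ, ∀ (V : Type) [AddCommGroup V] [Module ℂ V]
    [FiniteDimensional ℂ V], Module.finrank ℂ V ≤ D → ∀ (m : ℕ) (l : Fin m → V), N₀ ≤ m →
    (∀ i j, i ≠ j → ∀ c : ℂ, l i ≠ c • l j) →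
    ∃ (n m' κ : ℕ) (ι : Fin m' → Fin m) (N : Polynomial (PV n)) (φ : PVW n)
      (p : Fin m' → Fin (n + 2) → ℂ) (c : Fin m' → ℂ) (B : Fin (n + 2) → V),
      Function.Injective ι ∧ Pkg2 p κ N φ ∧ ρ < m' ∧ LinearIndependent ℂ B ∧
      ∀ j, c j ≠ 0 ∧ c j • l (ι j) = ∑ a, p j a • B a := by
  classical
  induction D with
  | zero =>
    refine ⟨2, ?_⟩
    intro V _ _ _ hV m l hm hl
    exfalso
    have h0 : Module.finrank ℂ V = 0 := Nat.le_zero.1 hV
    have h1 : Subsingleton V := Module.finrank_zero_iff.1 h0
    exact hl ⟨0, by omega⟩ ⟨1, by omega⟩ (by simp) 0 (Subsingleton.elim _ _)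
  | succ D ih =>
    obtain ⟨N', hN'⟩ := ih
    rcases D with - | n
    · refine ⟨2, ?_⟩
      intro V _ _ _ hV m l hm hl
      exfalso
      have hne : l ⟨1, by omega⟩ ≠ 0 := by
        intro h
        refine hl ⟨1, by omega⟩ ⟨0, by omega⟩ (by simp) 0 ?_
        rw [h, zero_smul]
      have h1 : Module.finrank ℂ V = 1 := by
        have h2 : Module.finrank ℂ V ≠ 0 := by
          intro h3
          have h4 : Subsingleton V := Module.finrank_zero_iff.1 h3
          exact hne (Subsingleton.elim _ _)
        omega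
      obtain ⟨c, hc⟩ := exists_smul_eq_of_finrank_eq_one h1 hne (l ⟨0, by omega⟩)
      exact hl ⟨0, by omega⟩ ⟨1, by omega⟩ (by simp) c hc.symm
    · obtain ⟨N₁, hN₁⟩ := partA n (max (2 * n + 8) (max ρ N'))
      refine ⟨max 2 (max N' N₁), ?_⟩
      intro V _ _ _ hV m l hm hl
      have hm2 : 2 ≤ m := (le_max_left _ _).trans hm
      have hmN' : N' ≤ m := ((le_max_left _ _).trans (le_max_right _ _)).trans hm
      have hmN₁ : N₁ ≤ m := ((le_max_right _ _).trans (le_max_right _ _)).trans hm
      by_cases hfr : Module.finrank ℂ V ≤ n + 1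
      · exact hN' V hfr m l hmN' hl
      have hfr2 : Module.finrank ℂ V = n + 2 := by omega
      have hl0 : ∀ j, l j ≠ 0 := by
        intro j h
        obtain ⟨i, hi⟩ : ∃ i : Fin m, i ≠ j := by
          by_cases hj : j.1 = 0
          · exact ⟨⟨1, by omega⟩, fun h1 => by
              have h2 := congrArg Fin.val h1
              simp only at h2
              omega⟩
          · exact ⟨⟨0, by omega⟩, fun h1 => hj (by rw [← h1])⟩
        refine hl j i hi.symm 0 ?_
        rw [h, zero_smul]
      let b : Module.Basis (Fin (n + 2)) ℂ V := Module.finBasisOfFinrankEq ℂ V hfr2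
      obtain ⟨M, κ, N, J, c, hM, hκ, hN, hJ, hc⟩ := hN₁ m (fun j a => b.repr (l j) a) hmN₁
        (by
          intro j h
          apply hl0 j
          have h1 : b.repr (l j) = 0 := by
            ext a
            exact congrFun h a
          exact (map_eq_zero_iff _ b.repr.injective).1 h1)
      have hJ1 : max (2 * n + 8) (max ρ N') < J.card :=
        lt_of_le_of_lt (Nat.le_mul_of_pos_right _ hκ) hJ
      have hJρ : ρ < J.card :=
        lt_of_le_of_lt ((le_max_left _ _).trans (le_max_right _ _)) hJ1
      have hJN' : N' ≤ J.card :=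
        (lt_of_le_of_lt ((le_max_right _ _).trans (le_max_right _ _)) hJ1).le
      have hJn : (2 * n + 8) * κ < J.card :=
        lt_of_le_of_lt (Nat.mul_le_mul_right κ (le_max_left _ _)) hJ
      by_cases hspan : Submodule.span ℂ (l '' J) = ⊤
      · obtain ⟨ι, φ, p, c', B, hι, hpkg, hB, hcp⟩ :=
          pack_span b l hl hM hκ hN hc hJn hspan
        exact ⟨n, J.card, κ, ι, N, φ, p, c', B, hι, hpkg, hJρ, hB, hcp⟩
      · let W : Submodule ℂ V := Submodule.span ℂ (l '' J)
        have hW : Module.finrank ℂ W ≤ n + 1 := by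
          have h1 : Module.finrank ℂ W < Module.finrank ℂ V := Submodule.finrank_lt hspan
          omega
        have hmem : ∀ i : Fin J.card, l (J.orderEmbOfFin rfl i) ∈ W := fun i =>
          Submodule.subset_span ⟨_, Finset.mem_coe.2 (J.orderEmbOfFin_mem rfl i), rfl⟩
        obtain ⟨n', m', κ', ι, N₂, φ, p, c', B, hι, hpkg, hρ, hB, hcp⟩ :=
          hN' W hW J.card (fun i => ⟨l (J.orderEmbOfFin rfl i), hmem i⟩) hJN' (by
            intro i j hij a h
            refine hl (J.orderEmbOfFin rfl i) (J.orderEmbOfFin rfl j)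
              (fun h1 => hij ((J.orderEmbOfFin rfl).injective h1)) a ?_
            exact congrArg Subtype.val h)
        refine ⟨n', m', κ', fun i => J.orderEmbOfFin rfl (ι i), N₂, φ, p, c',
          fun a => (B a : V), ?_, hpkg, hρ, ?_, ?_⟩
        · exact (J.orderEmbOfFin rfl).injective.comp hι
        · exact hB.map' W.subtype W.ker_subtype
        · intro j
          refine ⟨(hcp j).1, ?_⟩
          have h1 := congrArg W.subtype (hcp j).2
          rw [map_smul, map_sum] at h1
          simp only [map_smul] at h1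
          exact h1

end Pool.Agent.H5.DG
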