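import Pool.Agent.H5.DG2.Defs
import Pool.Agent.H5.DG.Package

/-!
# Project DG2, module Pack1: the package for vectors which span the space

`J ≃ Fin J.card` (`J.orderEmbOfFin rfl`) gives `ι`; `p j a = c (ι j) * ∑ b', x b' * M b' a`, where `x` are the coordinates of `l (ι j)`;
`B a = ∑ b', M⁻¹ a b' • b b'` (the rows of `M⁻¹` in the basis `b`), so `c (ι j) • l (ι j) = ∑ a, p j a • B a` (`M * M⁻¹ = 1`); `B` is
independent since `M⁻¹` is invertible.  The `p j` are distinct: `p i = p j` would give `l (ι i) = (c (ι i))⁻¹ * c (ι j) • l (ι j)`.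
`hspan` gives: if `dot (p j) w = 0` for all `j` then the linear form `x ↦ dot (x M) w` vanishes on the `l (ι j)`, so it is zero and
`M.mulVec w = 0`, `w = 0`.  Then `nondeg_of_span hκ hN Finset.univ p ..`, `del_ne_zero hκ hN`, `exists_chow_eq hκ hN.pre hΔ`, `chow_dvd`,
`del_homogeneous hN.pre` as in `Pool.Agent.H5.DG.Package`.
-/

open MvPolynomial

noncomputable section

namespace Pool.Agent.H5.DG

theorem pack_span {n m κ : ℕ} {V : Type} [AddCommGroup V] [Module ℂ V]
    (b : Module.Basis (Fin (n + 2)) ℂ V) (l : Fin m → V)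
    (hl : ∀ i j, i ≠ j → ∀ c : ℂ, l i ≠ c • l j) {N : Polynomial (PV n)} {J : Finset (Fin m)}
    {M : Matrix (Fin (n + 2)) (Fin (n + 2)) ℂ} {c : Fin m → ℂ} (hM : IsUnit M.det) (hκ : 1 ≤ κ)
    (hN : IsNormForm κ N)
    (hc : ∀ j ∈ J, c j ≠ 0 ∧ (fun a => c j * ∑ b', b.repr (l j) b' * M b' a) ∈ Gam N ℂ)
    (hcard : (2 * n + 8) * κ < J.card) (hspan : Submodule.span ℂ (l '' J) = ⊤) :
    ∃ (ι : Fin J.card → Fin m) (φ : PVW n) (p : Fin J.card → Fin (n + 2) → ℂ)
      (c' : Fin J.card → ℂ) (B : Fin (n + 2) → V),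
      Function.Injective ι ∧ Pkg2 p κ N φ ∧ LinearIndependent ℂ B ∧
      ∀ j, c' j ≠ 0 ∧ c' j • l (ι j) = ∑ a, p j a • B a := by
  classical
  -- the indices
  set ι : Fin J.card → Fin m := fun i => J.orderEmbOfFin rfl i with hι
  have hιmem : ∀ i, ι i ∈ J := fun i => Finset.orderEmbOfFin_mem J rfl i
  have hιinj : Function.Injective ι := (J.orderEmbOfFin rfl).injective
  have hιsurj : ∀ j ∈ J, ∃ i, ι i = j := by
    intro j hj
    have h1 : (j : Fin m) ∈ Set.range (J.orderEmbOfFin rfl) := by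
      rw [Finset.range_orderEmbOfFin]
      exact hj
    exact h1
  set p : Fin J.card → Fin (n + 2) → ℂ :=
    fun j a => c (ι j) * ∑ b', b.repr (l (ι j)) b' * M b' a with hp
  set B : Fin (n + 2) → V := fun a => ∑ b', M⁻¹ a b' • b b' with hB
  have hMM : M * M⁻¹ = 1 := Matrix.mul_nonsing_inv M hM
  have hMM' : M⁻¹ * M = 1 := Matrix.nonsing_inv_mul M hM
  have hcomb : ∀ g : Fin (n + 2) → ℂ, ∑ a, g a • B a = ∑ b', (∑ a, g a * M⁻¹ a b') • b b' := by
    intro g
    simp only [hB, Finset.smul_sum, Finset.sum_smul, smul_smul]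
    exact Finset.sum_comm
  have hlin : LinearIndependent ℂ B := by
    rw [Fintype.linearIndependent_iff]
    intro g hg
    rw [hcomb] at hg
    have h1 := (Fintype.linearIndependent_iff.1 b.linearIndependent) _ hg
    have h2 : Matrix.vecMul g M⁻¹ = 0 := by
      funext b'
      exact h1 b'
    have h3 : g = 0 := by
      have h4 : Matrix.vecMul (Matrix.vecMul g M⁻¹) M = g := by
        rw [Matrix.vecMul_vecMul, hMM', Matrix.vecMul_one]
      rw [← h4, h2, Matrix.zero_vecMul]
    intro i
    rw [h3]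
    rfl
  have hrep : ∀ j, c (ι j) • l (ι j) = ∑ a, p j a • B a := by
    intro j
    rw [hcomb]
    have h1 : ∀ b', ∑ a, p j a * M⁻¹ a b' = c (ι j) * b.repr (l (ι j)) b' := by
      intro b'
      have h2 : ∑ a, p j a * M⁻¹ a b' =
          c (ι j) * ∑ b'', b.repr (l (ι j)) b'' * (M * M⁻¹) b'' b' := by
        simp only [hp, Matrix.mul_apply, Finset.mul_sum, Finset.sum_mul]
        rw [Finset.sum_comm]
        refine Finset.sum_congr rfl fun x _ => Finset.sum_congr rfl fun y _ => ?_
        ring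
      rw [h2, hMM]
      congr 1
      rw [Finset.sum_eq_single b']
      · rw [Matrix.one_apply_eq, mul_one]
      · intro b'' _ hne
        rw [Matrix.one_apply_ne hne, mul_zero]
      · intro h
        exact absurd (Finset.mem_univ _) h
    simp only [h1]
    rw [← b.sum_repr (l (ι j))]
    rw [Finset.smul_sum]
    refine Finset.sum_congr rfl fun b' _ => ?_
    rw [b.sum_repr, smul_smul]
  have hpinj : Function.Injective p := by
    intro i j hij
    by_contra hne
    have h1 : c (ι i) • l (ι i) = c (ι j) • l (ι j) := by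
      rw [hrep i, hrep j, hij]
    have hci : c (ι i) ≠ 0 := (hc _ (hιmem i)).1
    refine hl (ι i) (ι j) (fun h => hne (hιinj h)) ((c (ι i))⁻¹ * c (ι j)) ?_
    rw [mul_smul, ← h1, smul_smul, inv_mul_cancel₀ hci, one_smul]
  have hmem : ∀ j, p j ∈ Gam N ℂ := fun j => (hc _ (hιmem j)).2
  have hsp : ∀ w : Fin (n + 2) → ℂ, (∀ j ∈ (Finset.univ : Finset (Fin J.card)),
      dot (p j) w = 0) → w = 0 := by
    intro w hw
    have h1 : ∀ j : Fin J.card, ∑ b', b.repr (l (ι j)) b' * (M.mulVec w) b' = 0 := by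
      intro j
      have h2 : dot (p j) w = c (ι j) * ∑ b', b.repr (l (ι j)) b' * (M.mulVec w) b' := by
        unfold dot
        simp only [hp, Matrix.mulVec, dotProduct, Finset.mul_sum, Finset.sum_mul]
        rw [Finset.sum_comm]
        refine Finset.sum_congr rfl fun x _ => Finset.sum_congr rfl fun y _ => ?_
        ring
      have h3 := hw j (Finset.mem_univ _)
      rw [h2] at h3
      exact (mul_eq_zero.1 h3).resolve_left (hc _ (hιmem j)).1
    have h4 : ∀ v : V, ∑ b', b.repr v b' * (M.mulVec w) b' = 0 := by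
      intro v
      have hv : v ∈ Submodule.span ℂ (l '' J) := by
        rw [hspan]
        exact Submodule.mem_top
      induction hv using Submodule.span_induction with
      | mem x hx =>
        obtain ⟨j, hj, rfl⟩ := hx
        obtain ⟨i, hi⟩ := hιsurj j hj
        rw [← hi]
        exact h1 i
      | zero => simp
      | add x y _ _ hx hy =>
        simp only [map_add, Finsupp.add_apply, add_mul, Finset.sum_add_distrib, hx, hy, add_zero]
      | smul a x _ hx =>
        simp only [map_smul, Finsupp.smul_apply, smul_eq_mul, mul_assoc]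
        rw [← Finset.mul_sum, hx, mul_zero]
    have h5 : M.mulVec w = 0 := by
      funext b'
      have h6 := h4 (b b')
      rw [Finset.sum_eq_single b'] at h6
      · rw [b.repr_self, Finsupp.single_eq_same, one_mul] at h6
        exact h6
      · intro b'' _ hne
        rw [b.repr_self, Finsupp.single_eq_of_ne hne, zero_mul]
      · intro h
        exact absurd (Finset.mem_univ _) h
    exact Matrix.eq_zero_of_mulVec_eq_zero hM.ne_zero h5
  have hΔ := del_ne_zero hκ hN
  obtain ⟨φ, hφ⟩ := exists_chow_eq hκ hN.pre hΔ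
  refine ⟨ι, φ, p, fun j => c (ι j), B, hιinj, ⟨⟨hκ, hN, ?_, ⟨hφ, fun p hp w hw =>
    chow_dvd hκ hN.pre hΔ hφ p hp w hw⟩⟩, hΔ, del_homogeneous hN.pre, hmem, hpinj, hcard⟩, hlin,
    fun j => ⟨(hc _ (hιmem j)).1, hrep j⟩⟩
  exact nondeg_of_span hκ hN Finset.univ p (fun j _ => hmem j) hsp

end Pool.Agent.H5.DG
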