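import Pool.Agent.H5.DG2.Omega

/-!
# Project DG2, module Place: a place of the algebraic closure of `ℂ(u)` over `u = c`

`A` = the image of `Polynomial.aeval uu` (a subring of `Omg` isomorphic to `ℂ[X]` by `aeval_uu_injective`), `P` = the prime ideal
generated by `uu - c`; `LocalSubring.ofPrime A P`, `LocalSubring.exists_le_valuationSubring` give a valuation subring `O ⊇ A` with
`uu - c` in its maximal ideal (it contains `ℂ`).  The residue field `k` of `O` is algebraic over `ℂ`: for `x ∈ O` there is a
non-zero `A ∈ ℂ[X][Y]` with `A (uu, x) = 0` (`omg_algebraic`); divide by the largest power of `X - c` which divides all coefficients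
(`aeval uu` is injective, `Omg` is a field); then `A (c, Y) ≠ 0` and `A (c, residue of x) = 0`.  `ℂ` is algebraically closed, so `ℂ → k` is
bijective (`IsAlgClosed.algebraMap_bijective_of_isIntegral`); `π` = residue map followed by the inverse.
-/

open MvPolynomial

noncomputable section

namespace Pool.Agent.H5.DG

/-- A place of `Omg` with values in `ℂ`. -/
structure IsPlace (O : ValuationSubring Omg) (π : O →+* ℂ) : Prop where
  const : ∀ z : ℂ, ∃ h : algebraMap ℂ Omg z ∈ O, π ⟨algebraMap ℂ Omg z, h⟩ = z

/-- A valuation ring which contains `ℂ[u]` and in which `u - c` is not a unit. -/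
private theorem exists_valuationSubring (c : ℂ) : ∃ O : ValuationSubring Omg,
    (∀ p : Polynomial ℂ, Polynomial.aeval uu p ∈ O) ∧
      Polynomial.aeval uu (Polynomial.X - Polynomial.C c) ∈ O.nonunits := by
  set g : Polynomial ℂ →+* Omg := (Polynomial.aeval uu : Polynomial ℂ →ₐ[ℂ] Omg).toRingHom with hg
  have hinj : Function.Injective g := aeval_uu_injective
  let a : g.range := ⟨g (Polynomial.X - Polynomial.C c), ⟨_, rfl⟩⟩
  have hne : Ideal.span {a} ≠ ⊤ := by
    intro h
    have h1 : (1 : g.range) ∈ Ideal.span {a} := by rw [h]; trivial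
    rw [Ideal.mem_span_singleton'] at h1
    obtain ⟨⟨b, ⟨p, hp⟩⟩, hb⟩ := h1
    have h2 : b * g (Polynomial.X - Polynomial.C c) = 1 := congrArg Subtype.val hb
    rw [← hp, ← map_mul, ← map_one g] at h2
    have h3 := hinj h2
    have h4 := congrArg (Polynomial.eval c) h3
    simp at h4
  obtain ⟨O, hO1, hO2⟩ := Ideal.image_subset_nonunits_valuationSubring _ hne
  refine ⟨O, fun p => hO1 ⟨p, rfl⟩, hO2 ⟨a, Ideal.subset_span rfl, rfl⟩⟩

theorem exists_place (c : ℂ) : ∃ (O : ValuationSubring Omg) (π : O →+* ℂ), IsPlace O π ∧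
    ∃ h : uu ∈ O, π ⟨uu, h⟩ = c := by
  obtain ⟨O, hO1, hO2⟩ := exists_valuationSubring c
  set g : Polynomial ℂ →+* Omg := (Polynomial.aeval uu : Polynomial ℂ →ₐ[ℂ] Omg).toRingHom with hg
  have hinj : Function.Injective g := aeval_uu_injective
  have hgC : ∀ z : ℂ, g (Polynomial.C z) = algebraMap ℂ Omg z := fun z => Polynomial.aeval_C uu z
  have hgX : g Polynomial.X = uu := Polynomial.aeval_X uu
  -- the map `ℂ[X] → O`
  let h : Polynomial ℂ →+* O := g.codRestrict O.toSubring (fun p => hO1 p)
  have hsub : O.subtype.comp h = g := by ext <;> rfl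
  let r : O →+* IsLocalRing.ResidueField O := IsLocalRing.residue O
  -- the map `ℂ → k`
  let φ : ℂ →+* IsLocalRing.ResidueField O := (r.comp h).comp Polynomial.C
  have hXc : r (h (Polynomial.X - Polynomial.C c)) = 0 := by
    rw [IsLocalRing.residue_eq_zero_iff]
    rw [ValuationSubring.mem_nonunits_iff_exists_mem_maximalIdeal] at hO2
    obtain ⟨h1, h2⟩ := hO2
    exact h2
  have hcomp : r.comp h = φ.comp (Polynomial.evalRingHom c) := by
    apply Polynomial.ringHom_ext
    · intro z
      simp [φ]
    · have h5 := hXc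
      rw [map_sub, map_sub, sub_eq_zero] at h5
      simpa [φ] using h5
  let _alg : Algebra ℂ (IsLocalRing.ResidueField O) := φ.toAlgebra
  have hint : Algebra.IsIntegral ℂ (IsLocalRing.ResidueField O) := by
    rw [← Algebra.isAlgebraic_iff_isIntegral]
    refine ⟨fun y => ?_⟩
    obtain ⟨x, rfl⟩ := IsLocalRing.residue_surjective y
    obtain ⟨A, hA0, hA⟩ := omg_algebraic (x : Omg)
    have hnu : ¬ IsUnit (Polynomial.C (Polynomial.X - Polynomial.C c) : Polynomial (Polynomial ℂ)) := by
      rw [Polynomial.isUnit_C]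
      exact Polynomial.not_isUnit_X_sub_C c
    obtain ⟨B, hB1, hB2⟩ :=
      (FiniteMultiplicity.of_not_isUnit hnu hA0).exists_eq_pow_mul_and_not_dvd
    have hB0 : (B.map g).eval (x : Omg) = 0 := by
      have h6 : (A.map g).eval (x : Omg) = 0 := hA
      rw [hB1, Polynomial.map_mul, Polynomial.map_pow, Polynomial.map_C, Polynomial.eval_mul,
        Polynomial.eval_pow, Polynomial.eval_C] at h6
      rcases mul_eq_zero.mp h6 with h7 | h7
      · exfalso
        have h8 : g (Polynomial.X - Polynomial.C c) = 0 := eq_zero_of_pow_eq_zero h7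
        exact Polynomial.X_sub_C_ne_zero c (hinj (h8.trans (map_zero g).symm))
      · exact h7
    have hB3 : (B.map h).eval x = 0 := by
      have h9 : O.subtype ((B.map h).eval x) = 0 := by
        rw [← Polynomial.eval_map_apply, Polynomial.map_map, hsub]
        exact hB0
      exact Subtype.ext h9
    have hB4 : ((B.map (Polynomial.evalRingHom c)).map φ).eval (r x) = 0 := by
      rw [Polynomial.map_map, ← hcomp, ← Polynomial.map_map, Polynomial.eval_map_apply, hB3, map_zero]
    refine ⟨B.map (Polynomial.evalRingHom c), ?_, ?_⟩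
    · intro h10
      apply hB2
      rw [Polynomial.C_dvd_iff_dvd_coeff]
      intro i
      rw [Polynomial.dvd_iff_isRoot]
      have h11 := congrArg (fun q => Polynomial.coeff q i) h10
      simpa [Polynomial.coeff_map] using h11
    · rw [Polynomial.aeval_def, ← Polynomial.eval_map]
      exact hB4
  have hbij : Function.Bijective φ :=
    IsAlgClosed.algebraMap_bijective_of_isIntegral (k := ℂ) (K := IsLocalRing.ResidueField O)
  let e : ℂ ≃+* IsLocalRing.ResidueField O := RingEquiv.ofBijective φ hbij
  have hrC : ∀ z : ℂ, r (h (Polynomial.C z)) = φ z := fun z => rfl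
  refine ⟨O, (e.symm : IsLocalRing.ResidueField O →+* ℂ).comp r, ⟨fun z => ?_⟩, ?_⟩
  · have hz : algebraMap ℂ Omg z ∈ O := by rw [← hgC]; exact hO1 _
    refine ⟨hz, ?_⟩
    have h12 : (⟨algebraMap ℂ Omg z, hz⟩ : O) = h (Polynomial.C z) := Subtype.ext (hgC z).symm
    rw [h12]
    change e.symm (r (h (Polynomial.C z))) = z
    rw [hrC, RingEquiv.symm_apply_eq]
    rfl
  · have hz : uu ∈ O := by rw [← hgX]; exact hO1 _
    refine ⟨hz, ?_⟩
    have h12 : (⟨uu, hz⟩ : O) = h Polynomial.X := Subtype.ext hgX.symm
    rw [h12]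
    change e.symm (r (h Polynomial.X)) = c
    rw [RingEquiv.symm_apply_eq]
    have h13 := congrArg (fun f : Polynomial ℂ →+* IsLocalRing.ResidueField O => f Polynomial.X) hcomp
    change r (h Polynomial.X) = φ c
    simpa using h13

end Pool.Agent.H5.DG
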