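import Pool.Agent.H5.DG2.Omega
import Pool.Agent.H5.DG.Iface

/-!
# Project DG2, module Theta: norm forms as polynomials over `ℂ(u)`

`Th G = ∑ i, (coefficient i of G) * u ^ i`, a polynomial in the variables `v a` over `RatFunc ℂ`; it is the ring homomorphism
`Polynomial.eval₂RingHom (MvPolynomial.map (algebraMap ℂ (RatFunc ℂ))) (MvPolynomial.C RatFunc.X)`.
`Th_injective`: compare coefficients (`coeff m (Th G) = algebraMap (Polynomial ℂ) (RatFunc ℂ) (∑ i, monomial i (coeff m (G.coeff i)))`).
`Th_clear`: multiply `Q` by a common denominator of its coefficients (`IsLocalization.exist_integer_multiples` or an induction).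
`val_eq_Th`: both sides are ring homomorphisms in `N`.
-/

open MvPolynomial

noncomputable section

namespace Pool.Agent.H5.DG

variable {n : ℕ}

/-- The polynomial `N (v; u)` over `ℂ(u)`. -/
def Th : Polynomial (PV n) →+* MvPolynomial (Fin (n + 2)) (RatFunc ℂ) :=
  Polynomial.eval₂RingHom (MvPolynomial.map (algebraMap ℂ (RatFunc ℂ)))
    (MvPolynomial.C RatFunc.X)

private def cf (m : Fin (n + 2) →₀ ℕ) (G : Polynomial (PV n)) : Polynomial ℂ :=
  G.sum fun i a => Polynomial.monomial i (coeff m a)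

private theorem cf_coeff (m : Fin (n + 2) →₀ ℕ) (G : Polynomial (PV n)) (i : ℕ) :
    (cf m G).coeff i = coeff m (G.coeff i) := by
  classical
  unfold cf
  rw [Polynomial.sum_def, Polynomial.finsetSum_coeff]
  simp only [Polynomial.coeff_monomial]
  rw [Finset.sum_ite_eq' G.support i]
  split_ifs with h
  · rfl
  · rw [Polynomial.notMem_support_iff.1 h]
    simp

private theorem algMap_C (a : ℂ) : algebraMap ℂ (RatFunc ℂ) a
    = algebraMap (Polynomial ℂ) (RatFunc ℂ) (Polynomial.C a) := by
  rw [IsScalarTower.algebraMap_apply ℂ (Polynomial ℂ) (RatFunc ℂ)]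
  rfl

private theorem coeff_Th (m : Fin (n + 2) →₀ ℕ) (G : Polynomial (PV n)) :
    coeff m (Th G) = algebraMap (Polynomial ℂ) (RatFunc ℂ) (cf m G) := by
  classical
  unfold Th cf
  rw [Polynomial.coe_eval₂RingHom, Polynomial.eval₂_eq_sum, Polynomial.sum_def,
    Polynomial.sum_def, map_sum, MvPolynomial.coeff_sum]
  refine Finset.sum_congr rfl fun i _ => ?_
  rw [← map_pow, mul_comm, MvPolynomial.coeff_C_mul, MvPolynomial.coeff_map,
    ← Polynomial.C_mul_X_pow_eq_monomial, map_mul, map_pow, RatFunc.algebraMap_X, algMap_C,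
    mul_comm]

theorem Th_injective : Function.Injective (Th (n := n)) := by
  intro F G h
  refine Polynomial.ext fun i => MvPolynomial.ext _ _ fun m => ?_
  have h1 : coeff m (Th F) = coeff m (Th G) := by rw [h]
  rw [coeff_Th, coeff_Th] at h1
  have h2 := IsFractionRing.injective (Polynomial ℂ) (RatFunc ℂ) h1
  rw [← cf_coeff, ← cf_coeff, h2]

private theorem Th_CX (m : Fin (n + 2) →₀ ℕ) (g : Polynomial ℂ) :
    Th (n := n) (g.sum fun i a => Polynomial.monomial i (MvPolynomial.monomial m a))
      = MvPolynomial.monomial m (algebraMap (Polynomial ℂ) (RatFunc ℂ) g) := by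
  classical
  rw [Polynomial.sum_def, map_sum]
  have h1 : ∀ i ∈ g.support, Th (n := n) (Polynomial.monomial i (MvPolynomial.monomial m (g.coeff i)))
      = MvPolynomial.monomial m (algebraMap (Polynomial ℂ) (RatFunc ℂ)
        (Polynomial.monomial i (g.coeff i))) := by
    intro i _
    unfold Th
    rw [Polynomial.coe_eval₂RingHom, Polynomial.eval₂_monomial, MvPolynomial.map_monomial,
      ← map_pow, mul_comm, MvPolynomial.C_mul_monomial, ← Polynomial.C_mul_X_pow_eq_monomial]
    congr 1
    rw [map_mul, map_pow, RatFunc.algebraMap_X, algMap_C, mul_comm]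
  rw [Finset.sum_congr rfl h1, ← map_sum, ← map_sum]
  congr 2
  conv_rhs => rw [Polynomial.as_sum_support g]

theorem Th_clear (Q : MvPolynomial (Fin (n + 2)) (RatFunc ℂ)) :
    ∃ (q : Polynomial ℂ) (G : Polynomial (PV n)), q ≠ 0 ∧
      Th G = MvPolynomial.C (algebraMap (Polynomial ℂ) (RatFunc ℂ) q) * Q := by
  induction Q using MvPolynomial.induction_on' with
  | monomial m a =>
    obtain ⟨b, c, hc, hab⟩ := IsFractionRing.div_surjective (A := Polynomial ℂ) a
    have hc0 : c ≠ 0 := nonZeroDivisors.ne_zero hc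
    have hc1 : algebraMap (Polynomial ℂ) (RatFunc ℂ) c ≠ 0 := fun h0 =>
      hc0 (IsFractionRing.injective (Polynomial ℂ) (RatFunc ℂ) (by rw [h0, map_zero]))
    refine ⟨c, b.sum fun i a => Polynomial.monomial i (MvPolynomial.monomial m a), hc0, ?_⟩
    rw [Th_CX, MvPolynomial.C_mul_monomial, ← hab, mul_div_cancel₀ _ hc1]
  | add P R hP hR =>
    obtain ⟨q, G, hq, h1⟩ := hP
    obtain ⟨q', G', hq', h2⟩ := hR
    have hC : ∀ r : Polynomial ℂ, ∃ R : Polynomial (PV n), Th R =
        MvPolynomial.C (algebraMap (Polynomial ℂ) (RatFunc ℂ) r) := by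
      intro r
      refine ⟨r.sum fun i a => Polynomial.monomial i (MvPolynomial.monomial 0 a), ?_⟩
      rw [Th_CX]
      rfl
    obtain ⟨A, hA⟩ := hC q
    obtain ⟨B, hB⟩ := hC q'
    refine ⟨q * q', B * G + A * G', mul_ne_zero hq hq', ?_⟩
    rw [map_add, map_mul, map_mul, hA, hB, h1, h2, map_mul, map_mul]
    ring

theorem Th_isHomogeneous {κ : ℕ} {G : Polynomial (PV n)}
    (hG : ∀ i, (G.coeff i).IsHomogeneous κ) : (Th G).IsHomogeneous κ := by
  intro m hm
  rw [coeff_Th] at hm
  have h1 : cf m G ≠ 0 := fun h0 => hm (by rw [h0, map_zero])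
  obtain ⟨i, hi⟩ : ∃ i, (cf m G).coeff i ≠ 0 := by
    by_contra hcon
    push Not at hcon
    exact h1 (Polynomial.ext fun i => by rw [hcon i, Polynomial.coeff_zero])
  rw [cf_coeff] at hi
  exact hG i hi

theorem val_eq_Th (G : Polynomial (PV n)) (w : Fin (n + 2) → Omg) :
    val G w uu = MvPolynomial.aeval w (Th G) := by
  unfold val atV Th
  rw [Polynomial.eval_map, Polynomial.coe_eval₂RingHom, Polynomial.eval₂_eq_sum,
    Polynomial.eval₂_eq_sum, Polynomial.sum_def, Polynomial.sum_def, map_sum]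
  refine Finset.sum_congr rfl fun i _ => ?_
  rw [map_mul, map_pow, MvPolynomial.aeval_C]
  congr 1
  rw [MvPolynomial.aeval_map_algebraMap]
  rfl

end Pool.Agent.H5.DG
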