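import Pool.Agent.H5.DG2.Trans
import Pool.Agent.H5.DG2.CoeffSplit

/-!
# Project DG2, module TwoForms: points where the exceptional form vanishes

`N (v; ·)` has degree exactly `κ` by `coeff_ne`, so, if `Del κ N` vanishes at `v`, `N (v; ·)` has a common root `u` with `∂N/∂v₀ (v; ·)` or
with its derivative (`Polynomial.resultant` of the polynomials `atV N v`, `atV (dN 0 N) v` (degree `≤ κ`) over the algebraically closed
field `L`: `Polynomial.resultant_map_map`, `Polynomial.resultant_add_right_deg`, `Polynomial.resultant_eq_zero_iff`; compare with modules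
ResEval, PtsRoots).  `u` is not in the image of `ℂ`: for `u ∈ ℂ` the factors of `N (·; u)` over `ℂ` (`hN.split ℂ u`; the identity
`val N w u = ∏ ..` is one of polynomials in `w`, so it holds over `L`) give `dot (toL L t) v = 0` with `t 0 = 1`, against `hv`.
`exists_emb` gives `j` with `j uu = u`; `exists_factors`, `exists_der`, `Factors.identities` at `w = v`: some `dot (j ∘ t s) v = 0`.  If
`val (dN 0 N) v u = 0`: all terms but that of `s` vanish in the sum, so `dot (j ∘ t s') v = 0` for some `s' ≠ s`; `τ = t s' - t s`, which is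
not `0` by `Factors.trans`.  Otherwise the product over `s' ≠ s` is not zero, and `N' (v; u) = 0` gives `dot (j ∘ d ∘ t s) v = 0`:
`τ = d ∘ t s`, `τ 0 = d 1 = 0`, `τ 1 = d uu = 1`.
-/

open MvPolynomial

noncomputable section

namespace Pool.Agent.H5.DG

variable {n κ : ℕ} {N : Polynomial (PV n)}

private theorem twoForms_root {L : Type} [Field L] [Algebra ℂ L] [IsAlgClosed L]
    (hN : IsPreNorm κ N) (v : Fin (n + 2) → L) (hc : MvPolynomial.aeval v (N.coeff κ) ≠ 0)
    (g : Polynomial L) (hg : g.natDegree ≤ κ)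
    (h0 : Polynomial.resultant (atV N v) g κ κ = 0) :
    ∃ u : L, val N v u = 0 ∧ g.eval u = 0 := by
  classical
  obtain ⟨hdeg, hlead⟩ := atV_natDegree hN v hc
  have h := Polynomial.resultant_eq_prod_eval (atV N v) g κ hg (IsAlgClosed.splits _)
  rw [hdeg, hlead, h0] at h
  have h1 := (mul_eq_zero.mp h.symm).resolve_left (pow_ne_zero _ hc)
  rw [Multiset.prod_eq_zero_iff, Multiset.mem_map] at h1
  obtain ⟨u, hu, hgu⟩ := h1
  refine ⟨u, ?_, hgu⟩
  exact (Polynomial.mem_roots'.mp hu).2

/-- a common root of `N (v; ·)` and of `D_0 N (v; ·)` or of the derivative -/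
private theorem twoForms_common (hκ : 1 ≤ κ) (hN : IsPreNorm κ N) {L : Type} [Field L]
    [Algebra ℂ L] [IsAlgClosed L] (v : Fin (n + 2) → L)
    (hc : MvPolynomial.aeval v (N.coeff κ) ≠ 0)
    (hdel : MvPolynomial.aeval v (Del κ N) = 0) :
    ∃ u : L, val N v u = 0 ∧ (val (dN 0 N) v u = 0 ∨
      (Polynomial.derivative (atV N v)).eval u = 0) := by
  rw [Del, map_mul, map_mul] at hdel
  rcases mul_eq_zero.mp hdel with h | h
  · have h1 := (mul_eq_zero.mp h).resolve_left hc
    have h2 : Polynomial.resultant (atV N v) (atV (dN 0 N) v) κ κ = 0 := by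
      rw [← h1]
      unfold atV res0
      rw [Polynomial.resultant_map_map]
      rfl
    obtain ⟨u, hu, hg⟩ := twoForms_root hN v hc (atV (dN 0 N) v)
      ((Polynomial.natDegree_map_le).trans (natDegree_dN_le hN 0)) h2
    exact ⟨u, hu, Or.inl hg⟩
  · have h2 : Polynomial.resultant (atV N v) (Polynomial.derivative (atV N v)) κ κ = 0 := by
      rw [← h, atV, Polynomial.derivative_map, Polynomial.resultant_map_map]
      rfl
    obtain ⟨u, hu, hg⟩ := twoForms_root hN v hc (Polynomial.derivative (atV N v))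
      ((Polynomial.natDegree_derivative_le _).trans
        (by have := (atV_natDegree hN v hc).1; omega)) h2
    exact ⟨u, hu, Or.inr hg⟩

/-- the roots of `N (v; ·)` are not complex -/
private theorem twoForms_notC (hN : IsPreNorm κ N) {L : Type} [Field L] [Algebra ℂ L]
    (v : Fin (n + 2) → L) (hv : ∀ x : Fin (n + 2) → ℂ, dot (toL L x) v = 0 → x = 0) {u : L}
    (hu : val N v u = 0) (c : ℂ) : u ≠ algebraMap ℂ L c := by
  intro huc
  subst huc
  obtain ⟨t, ht1, ht⟩ := hN.split ℂ c
  have h1 : (∑ i ∈ Finset.range (κ + 1), N.coeff i * MvPolynomial.C (c ^ i)) =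
      ∏ s, (∑ a, MvPolynomial.C (t s a) * MvPolynomial.X a : PV n) := by
    refine MvPolynomial.funext fun w => ?_
    have h2 := ht w
    rw [val_eq_sum (natDegree_le hN)] at h2
    rw [map_sum, map_prod]
    simp only [map_mul, MvPolynomial.eval_C, map_sum, MvPolynomial.eval_X]
    exact h2
  rw [val_eq_sum (natDegree_le hN)] at hu
  have h2 := congrArg (MvPolynomial.aeval v : PV n →ₐ[ℂ] L) h1
  rw [map_sum, map_prod] at h2
  simp only [map_mul, MvPolynomial.aeval_C, map_sum, MvPolynomial.aeval_X, map_pow] at h2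
  rw [hu] at h2
  obtain ⟨s, _, hs⟩ := Finset.prod_eq_zero_iff.mp h2.symm
  have h3 : t s = 0 := hv (t s) hs
  have h4 := (ht1 s).1
  rw [h3, Pi.zero_apply] at h4
  exact zero_ne_one h4

/-- all terms but that of `s` vanish -/
private theorem twoForms_single {L : Type} [Field L] (a : Fin κ → L) (x : Fin κ → L) {s : Fin κ}
    (hs : x s = 0) : ∑ s', a s' * ∏ s'' ∈ Finset.univ.erase s', x s'' =
      a s * ∏ s'' ∈ Finset.univ.erase s, x s'' := by
  refine Finset.sum_eq_single s ?_ ?_
  · intro b _ hb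
    rw [Finset.prod_eq_zero (Finset.mem_erase.mpr ⟨hb.symm, Finset.mem_univ s⟩) hs, mul_zero]
  · intro h
    exact absurd (Finset.mem_univ s) h

theorem two_forms (hκ : 1 ≤ κ) (hN : IsNormForm κ N) {L : Type} [Field L] [Algebra ℂ L]
    [IsAlgClosed L] (v : Fin (n + 2) → L)
    (hv : ∀ x : Fin (n + 2) → ℂ, dot (toL L x) v = 0 → x = 0)
    (hdel : MvPolynomial.aeval v (Del κ N) = 0) :
    ∃ (t : Fin κ → Fin (n + 2) → Omg) (s : Fin κ) (τ : Fin (n + 2) → Omg) (j : Omg →ₐ[ℂ] L),
      Factors N t ∧ dot (fun a => j (t s a)) v = 0 ∧ τ 0 = 0 ∧ τ ≠ 0 ∧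
        dot (fun a => j (τ a)) v = 0 := by
  have hpre := hN.pre
  have hc := coeff_ne hκ hpre v hv
  obtain ⟨u, hu, hg⟩ := twoForms_common hκ hpre v hc hdel
  obtain ⟨j, hj⟩ := exists_emb u (twoForms_notC hpre v hv hu)
  obtain ⟨t, ht⟩ := exists_factors hpre
  obtain ⟨d, hd⟩ := exists_der
  obtain ⟨i1, i2, i3⟩ := ht.identities d hd j v
  rw [hj] at i1 i2 i3
  rw [hu] at i1
  obtain ⟨s, _, hs⟩ := Finset.prod_eq_zero_iff.mp i1.symm
  obtain ⟨hinj, _⟩ := ht.trans hN
  -- the case of a second factor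
  have key : ∏ s' ∈ Finset.univ.erase s, dot (fun a => j (t s' a)) v = 0 →
      ∃ (t : Fin κ → Fin (n + 2) → Omg) (s : Fin κ) (τ : Fin (n + 2) → Omg) (j : Omg →ₐ[ℂ] L),
        Factors N t ∧ dot (fun a => j (t s a)) v = 0 ∧ τ 0 = 0 ∧ τ ≠ 0 ∧
          dot (fun a => j (τ a)) v = 0 := by
    intro h
    obtain ⟨s', hs', h0⟩ := Finset.prod_eq_zero_iff.mp h
    have hne : s' ≠ s := (Finset.mem_erase.mp hs').1
    refine ⟨t, s, fun a => t s' a - t s a, j, ht, hs, ?_, ?_, ?_⟩
    · show t s' 0 - t s 0 = 0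
      rw [ht.zero, ht.zero, sub_self]
    · intro h1
      apply hne
      apply hinj
      funext a
      have h2 := congrFun h1 a
      exact sub_eq_zero.mp h2
    · have h1 : dot (fun a => j (t s' a - t s a)) v =
          dot (fun a => j (t s' a)) v - dot (fun a => j (t s a)) v := by
        simp only [dot, map_sub, sub_mul, Finset.sum_sub_distrib]
      rw [h1, h0, hs, sub_self]
  rcases hg with hg | hg
  · rw [hg] at i2
    have h1 := twoForms_single (fun _ => (1 : L)) (fun s' => dot (fun a => j (t s' a)) v) hs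
    simp only [one_mul] at h1
    exact key (h1.symm.trans i2.symm)
  · rw [hg] at i3
    have h1 := twoForms_single (fun s' => dot (fun a => j (d (t s' a))) v)
      (fun s' => dot (fun a => j (t s' a)) v) hs
    rcases mul_eq_zero.mp (h1.symm.trans i3.symm) with h2 | h2
    · refine ⟨t, s, fun a => d (t s a), j, ht, hs, ?_, ?_, h2⟩
      · show d (t s 0) = 0
        rw [ht.zero]
        exact d.map_one_eq_zero
      · intro h3
        have h4 : d (t s 1) = 0 := congrFun h3 1
        rw [ht.one, hd] at h4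
        exact one_ne_zero h4
    · exact key h2

end Pool.Agent.H5.DG
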