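import Pool.Agent.H5.DG2.Pack
import Pool.Agent.H5.DG.CoverDefs

/-!
# Project DG2, module VPack: the package for forms

`e ≤ δ` which is the degree of many `G j` (pigeonhole; `N₀ = δ * (max of the numbers of pack2 for all e ≤ δ) + 1`; reindex these `j` by an
injection).  `V` = the quotient of the space of the forms of degree `e` (`homogeneousSubmodule (Fin (M + 1)) ℂ e`, finite-dimensional:
spanned by the monomials of degree `e`; `D` = the dimension of this space) by the subspace of those in `P`; the classes of the `G j` are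
pairwise no multiples of each other.  `pack2 D ρ`; `B a` = a form of degree `e` in the class of `B a`: `comb x B ∈ P` means `∑ a, x a • [B a] = 0`.
-/

open MvPolynomial

noncomputable section

namespace Pool.Agent.H5.DG

private theorem vp_pigeon {m δ K : ℕ} (hm : δ * K < m) (e : Fin m → ℕ)
    (he : ∀ j, 1 ≤ e j ∧ e j ≤ δ) : ∃ (e₀ m₁ : ℕ) (ι : Fin m₁ → Fin m), 1 ≤ e₀ ∧ e₀ ≤ δ ∧
      K < m₁ ∧ Function.Injective ι ∧ ∀ i, e (ι i) = e₀ := by
  classical
  have h1 : (Finset.Icc 1 δ).card * K < (Finset.univ : Finset (Fin m)).card := by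
    rw [Nat.card_Icc, Nat.add_sub_cancel, Finset.card_univ, Fintype.card_fin]
    exact hm
  obtain ⟨e₀, he₀, h2⟩ := Finset.exists_lt_card_fiber_of_mul_lt_card_of_maps_to
    (f := e) (fun j _ => Finset.mem_Icc.2 (he j)) h1
  rw [Finset.mem_Icc] at he₀
  refine ⟨e₀, _, (Finset.univ.filter fun j => e j = e₀).orderEmbOfFin rfl, he₀.1, he₀.2, h2,
    ((Finset.univ.filter fun j => e j = e₀).orderEmbOfFin rfl).injective, fun i => ?_⟩
  have h3 := Finset.orderEmbOfFin_mem (Finset.univ.filter fun j => e j = e₀) rfl i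
  exact (Finset.mem_filter.1 h3).2

private instance vp_fin (M e : ℕ) :
    FiniteDimensional ℂ (homogeneousSubmodule (Fin (M + 1)) ℂ e) :=
  Module.Finite.iff_fg.2 (homogeneousSubmodule_fg (Fin (M + 1)) ℂ e)

private abbrev vp_sub {M : ℕ} (P : Ideal (MvPolynomial (Fin (M + 1)) ℂ)) (e : ℕ) :
    Submodule ℂ (homogeneousSubmodule (Fin (M + 1)) ℂ e) :=
  (P.restrictScalars ℂ).comap (homogeneousSubmodule (Fin (M + 1)) ℂ e).subtype

private theorem vp_mk_zero {M : ℕ} (P : Ideal (MvPolynomial (Fin (M + 1)) ℂ)) {e : ℕ}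
    (h : homogeneousSubmodule (Fin (M + 1)) ℂ e) :
    (vp_sub P e).mkQ h = 0 ↔ (h : MvPolynomial (Fin (M + 1)) ℂ) ∈ P := by
  rw [Submodule.mkQ_apply, Submodule.Quotient.mk_eq_zero]
  rfl

private theorem vp_comb {M n : ℕ} (P : Ideal (MvPolynomial (Fin (M + 1)) ℂ)) {e : ℕ}
    (B : Fin n → homogeneousSubmodule (Fin (M + 1)) ℂ e) (x : Fin n → ℂ) :
    comb x (fun a => (B a : MvPolynomial (Fin (M + 1)) ℂ)) ∈ P ↔
      ∑ a, x a • (vp_sub P e).mkQ (B a) = 0 := by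
  have h1 : ∑ a, x a • (vp_sub P e).mkQ (B a) = (vp_sub P e).mkQ (∑ a, x a • B a) := by
    rw [map_sum]
    simp only [map_smul]
  rw [h1, vp_mk_zero]
  have h2 : ((∑ a, x a • B a : homogeneousSubmodule (Fin (M + 1)) ℂ e) :
      MvPolynomial (Fin (M + 1)) ℂ) =
      comb x (fun a => (B a : MvPolynomial (Fin (M + 1)) ℂ)) := by
    unfold comb
    rw [AddSubmonoidClass.coe_finsetSum]
    refine Finset.sum_congr rfl fun a _ => ?_
    rw [Submodule.coe_smul, MvPolynomial.smul_eq_C_mul]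
  rw [h2]

/-- **The package for forms.** -/
theorem vpack (M δ ρ : ℕ) : ∃ N₀ : ℕ, ∀ (P : Ideal (MvPolynomial (Fin (M + 1)) ℂ)) (m : ℕ)
    (G : Fin m → MvPolynomial (Fin (M + 1)) ℂ), N₀ ≤ m →
    (∀ j, ∃ e, 1 ≤ e ∧ e ≤ δ ∧ (G j).IsHomogeneous e) →
    (∀ i j, i ≠ j → ∀ c : ℂ, G i - C c * G j ∉ P) →
    ∃ (e n m' κ : ℕ) (ι : Fin m' → Fin m) (N : Polynomial (PV n)) (φ : PVW n)
      (p : Fin m' → Fin (n + 2) → ℂ) (c : Fin m' → ℂ)
      (B : Fin (n + 2) → MvPolynomial (Fin (M + 1)) ℂ),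
      1 ≤ e ∧ Function.Injective ι ∧ Pkg2 p κ N φ ∧ ρ < m' ∧ (∀ a, (B a).IsHomogeneous e) ∧
      (∀ x : Fin (n + 2) → ℂ, comb x B ∈ P → x = 0) ∧
      ∀ j, c j ≠ 0 ∧ C (c j) * G (ι j) - comb (p j) B ∈ P := by
  classical
  choose K hK using fun e : ℕ =>
    pack2 (Module.finrank ℂ (homogeneousSubmodule (Fin (M + 1)) ℂ e)) ρ
  refine ⟨δ * (∑ e ∈ Finset.range (δ + 1), K e) + 1, fun P m G hm hdeg hmul => ?_⟩
  choose ee h1 h2 h3 using hdeg
  obtain ⟨e, m₁, ι₁, he1, heδ, hKm, hι₁, hee⟩ :=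
    vp_pigeon (Nat.lt_of_succ_le hm) ee fun j => ⟨h1 j, h2 j⟩
  have hKe : K e ≤ m₁ := by
    refine le_trans ?_ hKm.le
    exact Finset.single_le_sum (f := K) (fun _ _ => Nat.zero_le _)
      (Finset.mem_range.2 (Nat.lt_succ_of_le heδ))
  have hG : ∀ i, G (ι₁ i) ∈ homogeneousSubmodule (Fin (M + 1)) ℂ e := by
    intro i
    rw [mem_homogeneousSubmodule, ← hee i]
    exact h3 _
  set H := homogeneousSubmodule (Fin (M + 1)) ℂ e
  set l : Fin m₁ → H ⧸ vp_sub P e := fun i => (vp_sub P e).mkQ ⟨G (ι₁ i), hG i⟩ with hl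
  have hlm : ∀ i j, i ≠ j → ∀ c : ℂ, l i ≠ c • l j := by
    intro i j hij c hc
    refine hmul (ι₁ i) (ι₁ j) (fun h => hij (hι₁ h)) c ?_
    rw [← sub_eq_zero, hl] at hc
    simp only at hc
    rw [← map_smul, ← map_sub, vp_mk_zero] at hc
    rw [Submodule.coe_sub, Submodule.coe_smul, MvPolynomial.smul_eq_C_mul] at hc
    exact hc
  obtain ⟨n, m', κ, ι₂, N, φ, p, c, B, hι₂, hpkg, hρ, hB, hc⟩ :=
    hK e (H ⧸ vp_sub P e) (Submodule.finrank_quotient_le _) m₁ l hKe hlm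
  choose B' hB' using fun a => (vp_sub P e).mkQ_surjective (B a)
  refine ⟨e, n, m', κ, ι₁ ∘ ι₂, N, φ, p, c, fun a => (B' a : MvPolynomial (Fin (M + 1)) ℂ), he1,
    hι₁.comp hι₂, hpkg, hρ, fun a => ?_, fun x hx => ?_, fun j => ⟨(hc j).1, ?_⟩⟩
  · exact (mem_homogeneousSubmodule e _).1 (B' a).2
  · rw [vp_comb] at hx
    simp only [hB'] at hx
    exact funext fun a => Fintype.linearIndependent_iff.1 hB x hx a
  · have h4 := (hc j).2
    have h5 : ∑ a, p j a • B a = (vp_sub P e).mkQ (∑ a, p j a • B' a) := by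
      rw [map_sum]
      simp only [map_smul, hB']
    rw [h5, hl, ← sub_eq_zero, ← map_smul, ← map_sub, vp_mk_zero] at h4
    have h6 : ((∑ a, p j a • B' a : H) : MvPolynomial (Fin (M + 1)) ℂ) =
        comb (p j) (fun a => (B' a : MvPolynomial (Fin (M + 1)) ℂ)) := by
      unfold comb
      rw [AddSubmonoidClass.coe_finsetSum]
      refine Finset.sum_congr rfl fun a _ => ?_
      rw [Submodule.coe_smul, MvPolynomial.smul_eq_C_mul]
    rw [Submodule.coe_sub, Submodule.coe_smul, MvPolynomial.smul_eq_C_mul, h6] at h4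
    exact h4

end Pool.Agent.H5.DG
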